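import Pool.Agent.H811R2.T.Defs

/-! Vitali covering estimate for a periodic density (task A1). -/

open Set MeasureTheory Topology Filter
open scoped ENNReal

namespace Pool.Agent.H811R2.Quad

theorem tA1 : StA1 := by
  intro w hw h0 hper t ht O hO hl
  choose! l hl0 hl1 hl2 using hl
  obtain ⟨u, huO, hdisj, hcov⟩ :=
    Vitali.exists_disjoint_subfamily_covering_enlargement_closedBall O (fun x : ℝ => x) l
      (2 * Real.pi) hl1 5 (by norm_num)
  have hcount : u.Countable := by
    refine hdisj.countable_of_nonempty_interior fun a ha => ?_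
    rw [interior_closedBall _ (hl0 a (huO ha)).ne']
    exact ⟨a, Metric.mem_ball_self (hl0 a (huO ha))⟩
  have h1 : O ⊆ ⋃ b ∈ u, Metric.closedBall b (5 * l b) := by
    intro x hx
    obtain ⟨b, hb, hsub⟩ := hcov x hx
    rw [mem_iUnion₂]
    exact ⟨b, hb, hsub (Metric.mem_closedBall_self (hl0 x hx).le)⟩
  have hball : ∀ b ∈ u, ENNReal.ofReal (2 * (5 * l b)) ≤
      ENNReal.ofReal (5 / t) * ∫⁻ x in Metric.closedBall b (l b), ENNReal.ofReal (w x) := by
    intro b hb
    have hb0 := hl0 b (huO hb)
    have hb2 := hl2 b (huO hb)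
    rw [intervalIntegral.integral_of_le (by linarith), ← integral_Icc_eq_integral_Ioc] at hb2
    rw [Real.closedBall_eq_Icc, ← ofReal_integral_eq_lintegral_ofReal
      (hw.continuousOn.integrableOn_compact isCompact_Icc) (Eventually.of_forall h0),
      ← ENNReal.ofReal_mul (by positivity)]
    apply ENNReal.ofReal_le_ofReal
    calc 2 * (5 * l b) = 5 / t * (2 * l b * t) := by field_simp
      _ ≤ 5 / t * ∫ x in Icc (b - l b) (b + l b), w x :=
        mul_le_mul_of_nonneg_left hb2 (by positivity)
  have hpi := Real.pi_pos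
  have hbig : ∫⁻ x in Icc (-(2 * Real.pi)) (4 * Real.pi), ENNReal.ofReal (w x) =
      ENNReal.ofReal (3 * ∫ x in (0:ℝ)..(2 * Real.pi), w x) := by
    rw [← ofReal_integral_eq_lintegral_ofReal
      (hw.continuousOn.integrableOn_compact isCompact_Icc) (Eventually.of_forall h0),
      integral_Icc_eq_integral_Ioc, ← intervalIntegral.integral_of_le (by linarith)]
    congr 1
    have hp : Function.Periodic w (2 * Real.pi) := hper
    have e1 : ∫ x in (-(2 * Real.pi))..0, w x = ∫ x in (0:ℝ)..(2 * Real.pi), w x := by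
      have := hp.intervalIntegral_add_eq (-(2 * Real.pi)) 0
      rw [zero_add] at this
      rw [← this]
      congr 1
      ring
    have e2 : ∫ x in (2 * Real.pi)..(4 * Real.pi), w x = ∫ x in (0:ℝ)..(2 * Real.pi), w x := by
      have := hp.intervalIntegral_add_eq (2 * Real.pi) 0
      rw [zero_add] at this
      rw [← this]
      congr 1
      ring
    have hi : ∀ a b : ℝ, IntervalIntegrable w volume a b := fun a b => hw.intervalIntegrable a b
    rw [← intervalIntegral.integral_add_adjacent_intervals (hi (-(2 * Real.pi)) 0)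
      (hi 0 (4 * Real.pi)), ← intervalIntegral.integral_add_adjacent_intervals
      (hi 0 (2 * Real.pi)) (hi (2 * Real.pi) (4 * Real.pi)), e1, e2]
    ring
  have hsub : (⋃ b ∈ u, Metric.closedBall b (l b)) ⊆ Icc (-(2 * Real.pi)) (4 * Real.pi) := by
    intro x hx
    rw [mem_iUnion₂] at hx
    obtain ⟨b, hb, hx⟩ := hx
    rw [Real.closedBall_eq_Icc, mem_Icc] at hx
    have hb1 := hl1 b (huO hb)
    have hbO := hO (huO hb)
    rw [mem_Icc] at hbO ⊢
    constructor <;> linarith [hbO.1, hbO.2, hx.1, hx.2]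
  calc volume O ≤ volume (⋃ b ∈ u, Metric.closedBall b (5 * l b)) := measure_mono h1
    _ ≤ ∑' b : u, volume (Metric.closedBall (b : ℝ) (5 * l b)) := measure_biUnion_le _ hcount _
    _ = ∑' b : u, ENNReal.ofReal (2 * (5 * l b)) := by simp_rw [Real.volume_closedBall]
    _ ≤ ∑' b : u, ENNReal.ofReal (5 / t) *
          ∫⁻ x in Metric.closedBall (b : ℝ) (l b), ENNReal.ofReal (w x) :=
        ENNReal.tsum_le_tsum fun b => hball b b.2
    _ = ENNReal.ofReal (5 / t) * ∑' b : u,
          ∫⁻ x in Metric.closedBall (b : ℝ) (l b), ENNReal.ofReal (w x) := ENNReal.tsum_mul_left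
    _ = ENNReal.ofReal (5 / t) * ∫⁻ x in ⋃ b ∈ u, Metric.closedBall b (l b),
          ENNReal.ofReal (w x) := by
        rw [lintegral_biUnion hcount (fun b _ => Metric.isClosed_closedBall.measurableSet) hdisj]
    _ ≤ ENNReal.ofReal (5 / t) * ∫⁻ x in Icc (-(2 * Real.pi)) (4 * Real.pi),
          ENNReal.ofReal (w x) := by
        gcongr
    _ = ENNReal.ofReal (15 / t * ∫ x in (0:ℝ)..(2 * Real.pi), w x) := by
        rw [hbig, ← ENNReal.ofReal_mul (by positivity)]
        congr 1
        ring

end Pool.Agent.H811R2.Quad
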