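import Pool.Agent.H811R2.T.Defs

/-! Step A2: the Poisson kernel is controlled by averages over intervals. -/

open Set MeasureTheory Topology Filter
open scoped ENNReal

namespace Pool.Agent.H811R2.Quad

lemma a2_normSq (r ρ φ τ : ℝ) :
    ‖(r:ℂ) * ex φ - (ρ:ℂ) * ex τ‖ ^ 2 = (r - ρ) ^ 2 + 2 * (r * ρ) * (1 - Real.cos (φ - τ)) := by
  rw [← Complex.normSq_eq_norm_sq, Complex.normSq_apply]
  unfold ex
  rw [Complex.exp_mul_I, Complex.exp_mul_I, ← Complex.ofReal_cos, ← Complex.ofReal_sin,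
    ← Complex.ofReal_cos, ← Complex.ofReal_sin, Real.cos_sub]
  simp only [Complex.sub_re, Complex.sub_im, Complex.mul_re, Complex.mul_im, Complex.add_re,
    Complex.add_im, Complex.ofReal_re, Complex.ofReal_im, Complex.I_re, Complex.I_im]
  have h1 := Real.sin_sq_add_cos_sq φ
  have h2 := Real.sin_sq_add_cos_sq τ
  linear_combination (r ^ 2) * h1 + (ρ ^ 2) * h2

lemma a2_ex_cont : Continuous ex := by
  unfold ex
  fun_prop

lemma a2_ex_add (x : ℝ) : ex (x + 2 * Real.pi) = ex x := by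
  unfold ex
  push_cast
  rw [add_mul, Complex.exp_add, Complex.exp_two_pi_mul_I, mul_one]

/-- one dyadic step -/
lemma a2_step {w : ℝ → ℝ} (hw : Continuous w) (hw0 : ∀ x, 0 ≤ w x) {τ t δ L : ℝ} (hδ : 0 < δ)
    (hL : 0 < L) (hI : ∫ x in (τ - 2 * L)..(τ + 2 * L), w x ≤ 2 * (2 * L) * t) :
    ∫ x in (τ - 2 * L)..(τ + 2 * L), δ / (δ ^ 2 + (x - τ) ^ 2) * w x ≤
      (∫ x in (τ - L)..(τ + L), δ / (δ ^ 2 + (x - τ) ^ 2) * w x) + 4 * δ * t / L := by
  have hf : Continuous fun x => δ / (δ ^ 2 + (x - τ) ^ 2) * w x := by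
    apply Continuous.mul _ hw
    apply continuous_const.div (by fun_prop)
    intro x
    positivity
  have hfi : ∀ a b : ℝ, IntervalIntegrable (fun x => δ / (δ ^ 2 + (x - τ) ^ 2) * w x) volume a b :=
    fun a b => hf.intervalIntegrable a b
  have hwi : ∀ a b : ℝ, IntervalIntegrable w volume a b := fun a b => hw.intervalIntegrable a b
  have e1 : ∫ x in (τ - 2 * L)..(τ + 2 * L), δ / (δ ^ 2 + (x - τ) ^ 2) * w x =
      (∫ x in (τ - 2 * L)..(τ - L), δ / (δ ^ 2 + (x - τ) ^ 2) * w x) +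
      (∫ x in (τ - L)..(τ + L), δ / (δ ^ 2 + (x - τ) ^ 2) * w x) +
      ∫ x in (τ + L)..(τ + 2 * L), δ / (δ ^ 2 + (x - τ) ^ 2) * w x := by
    rw [intervalIntegral.integral_add_adjacent_intervals (hfi _ _) (hfi _ _),
      intervalIntegral.integral_add_adjacent_intervals (hfi _ _) (hfi _ _)]
  have e2 : ∫ x in (τ - 2 * L)..(τ + 2 * L), w x =
      (∫ x in (τ - 2 * L)..(τ - L), w x) + (∫ x in (τ - L)..(τ + L), w x) +
      ∫ x in (τ + L)..(τ + 2 * L), w x := by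
    rw [intervalIntegral.integral_add_adjacent_intervals (hwi _ _) (hwi _ _),
      intervalIntegral.integral_add_adjacent_intervals (hwi _ _) (hwi _ _)]
  have hmid : 0 ≤ ∫ x in (τ - L)..(τ + L), w x :=
    intervalIntegral.integral_nonneg (by linarith) fun x _ => hw0 x
  have hpt : ∀ x : ℝ, L ≤ |x - τ| → δ / (δ ^ 2 + (x - τ) ^ 2) * w x ≤ δ / L ^ 2 * w x := by
    intro x hx
    apply mul_le_mul_of_nonneg_right _ (hw0 x)
    apply div_le_div_of_nonneg_left hδ.le (by positivity)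
    have : L ^ 2 ≤ (x - τ) ^ 2 := by
      rw [← sq_abs (x - τ)]
      exact pow_le_pow_left₀ hL.le hx 2
    nlinarith [sq_nonneg δ]
  have h1 : ∫ x in (τ - 2 * L)..(τ - L), δ / (δ ^ 2 + (x - τ) ^ 2) * w x ≤
      δ / L ^ 2 * ∫ x in (τ - 2 * L)..(τ - L), w x := by
    rw [← intervalIntegral.integral_const_mul]
    apply intervalIntegral.integral_mono_on (by linarith) (hfi _ _) ((hwi _ _).const_mul _)
    intro x hx
    apply hpt
    rw [abs_of_nonpos (by linarith [hx.2])]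
    linarith [hx.2]
  have h2 : ∫ x in (τ + L)..(τ + 2 * L), δ / (δ ^ 2 + (x - τ) ^ 2) * w x ≤
      δ / L ^ 2 * ∫ x in (τ + L)..(τ + 2 * L), w x := by
    rw [← intervalIntegral.integral_const_mul]
    apply intervalIntegral.integral_mono_on (by linarith) (hfi _ _) ((hwi _ _).const_mul _)
    intro x hx
    apply hpt
    rw [abs_of_nonneg (by linarith [hx.1])]
    linarith [hx.1]
  have h3 : δ / L ^ 2 * ((∫ x in (τ - 2 * L)..(τ - L), w x) + ∫ x in (τ + L)..(τ + 2 * L), w x) ≤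
      δ / L ^ 2 * (2 * (2 * L) * t) := by
    apply mul_le_mul_of_nonneg_left _ (by positivity)
    linarith
  have h4 : δ / L ^ 2 * (2 * (2 * L) * t) = 4 * δ * t / L := by
    field_simp
    ring
  rw [h4, mul_add] at h3
  rw [e1]
  linarith

lemma a2_dyadic {w : ℝ → ℝ} (hw : Continuous w) (hw0 : ∀ x, 0 ≤ w x) {τ t δ : ℝ} (hδ : 0 < δ)
    (hI : ∀ l : ℝ, 0 < l → l ≤ 2 * Real.pi → ∫ x in (τ - l)..(τ + l), w x ≤ 2 * l * t) (k : ℕ) :
    (2:ℝ) ^ k * δ ≤ 2 * Real.pi →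
    ∫ x in (τ - 2 ^ k * δ)..(τ + 2 ^ k * δ), δ / (δ ^ 2 + (x - τ) ^ 2) * w x ≤
      10 * t - 8 * t / 2 ^ k := by
  induction k with
  | zero =>
    intro hk
    rw [pow_zero, one_mul] at hk ⊢
    have h1 := hI δ hδ hk
    have h2 : ∫ x in (τ - δ)..(τ + δ), δ / (δ ^ 2 + (x - τ) ^ 2) * w x ≤
        ∫ x in (τ - δ)..(τ + δ), 1 / δ * w x := by
      apply intervalIntegral.integral_mono_on (by linarith)
      · apply Continuous.intervalIntegrable
        apply Continuous.mul _ hw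
        apply continuous_const.div (by fun_prop)
        intro x
        positivity
      · exact (hw.intervalIntegrable _ _).const_mul _
      · intro x _
        apply mul_le_mul_of_nonneg_right _ (hw0 x)
        rw [div_le_div_iff₀ (by positivity) hδ]
        nlinarith [sq_nonneg (x - τ)]
    rw [intervalIntegral.integral_const_mul] at h2
    have h3 : 1 / δ * ∫ x in (τ - δ)..(τ + δ), w x ≤ 1 / δ * (2 * δ * t) :=
      mul_le_mul_of_nonneg_left h1 (by positivity)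
    have h4 : 1 / δ * (2 * δ * t) = 2 * t := by
      field_simp
    rw [h4] at h3
    linarith
  | succ k ih =>
    intro hk
    have e : (2:ℝ) ^ (k + 1) * δ = 2 * (2 ^ k * δ) := by
      rw [pow_succ]
      ring
    rw [e] at hk ⊢
    have hL : (0:ℝ) < 2 ^ k * δ := by positivity
    have h1 := ih (by linarith)
    have h2 := a2_step hw hw0 (t := t) hδ hL (hI _ (by linarith) hk)
    have h3 : 4 * δ * t / (2 ^ k * δ) = 4 * t / 2 ^ k := by
      field_simp
    have h4 : 8 * t / 2 ^ (k + 1) = 4 * t / 2 ^ k := by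
      rw [pow_succ]
      field_simp
      ring
    rw [h3] at h2
    rw [h4]
    have h5 : 8 * t / 2 ^ k = 2 * (4 * t / 2 ^ k) := by ring
    linarith

theorem tA2 : StA2 := by
  intro w hw hw0 hper r ρ τ t hρ hρr hr ht hI
  have hπ := Real.pi_pos
  have hπ3 := Real.pi_gt_three
  have hδ : 0 < r - ρ := by linarith
  have hmul : 1 / 9 ≤ r * ρ := by nlinarith
  have hden : ∀ φ, 0 < ‖(r:ℂ) * ex φ - (ρ:ℂ) * ex τ‖ ^ 2 := by
    intro φ
    rw [a2_normSq]
    have h1 := Real.cos_le_one (φ - τ)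
    have h2 : 0 ≤ 2 * (r * ρ) * (1 - Real.cos (φ - τ)) := by
      apply mul_nonneg (by linarith) (by linarith)
    have h3 : 0 < (r - ρ) ^ 2 := by positivity
    linarith
  -- periodicity
  have hp : Function.Periodic (fun φ => (r ^ 2 - ρ ^ 2) / ‖(r:ℂ) * ex φ - (ρ:ℂ) * ex τ‖ ^ 2 * w φ)
      (2 * Real.pi) := by
    intro x
    beta_reduce
    rw [a2_ex_add, hper]
  have e0 := hp.intervalIntegral_add_eq 0 (τ - Real.pi)
  rw [zero_add] at e0
  have e00 : τ - Real.pi + 2 * Real.pi = τ + Real.pi := by ring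
  rw [e00] at e0
  rw [e0]
  -- the kernel
  have hker : ∀ φ ∈ Icc (τ - Real.pi) (τ + Real.pi),
      (r ^ 2 - ρ ^ 2) / ‖(r:ℂ) * ex φ - (ρ:ℂ) * ex τ‖ ^ 2 * w φ ≤
        46 * ((r - ρ) / ((r - ρ) ^ 2 + (φ - τ) ^ 2) * w φ) := by
    intro φ hφ
    rw [← mul_assoc]
    apply mul_le_mul_of_nonneg_right _ (hw0 φ)
    rw [← mul_div_assoc, div_le_div_iff₀ (hden φ) (by positivity), a2_normSq]
    have hx : |φ - τ| ≤ Real.pi := by
      rw [abs_le]
      constructor
      · linarith [hφ.1]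
      · linarith [hφ.2]
    have hc := Real.cos_le_one_sub_mul_cos_sq hx
    have h1 : 2 / Real.pi ^ 2 * (φ - τ) ^ 2 ≤ 1 - Real.cos (φ - τ) := by linarith
    have hπ2 : Real.pi ^ 2 < 10 := by
      have := Real.pi_lt_d2
      nlinarith
    have h2 : (1:ℝ) / 5 ≤ 2 / Real.pi ^ 2 := by
      rw [div_le_div_iff₀ (by norm_num) (by positivity)]
      linarith
    have h3 : 1 / 5 * (φ - τ) ^ 2 ≤ 1 - Real.cos (φ - τ) :=
      (mul_le_mul_of_nonneg_right h2 (sq_nonneg _)).trans h1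
    have h4 : 2 / 45 * (φ - τ) ^ 2 ≤ 2 * (r * ρ) * (1 - Real.cos (φ - τ)) := by
      have h5 : 2 / 9 * (1 - Real.cos (φ - τ)) ≤ 2 * (r * ρ) * (1 - Real.cos (φ - τ)) := by
        apply mul_le_mul_of_nonneg_right (by linarith)
        linarith [Real.cos_le_one (φ - τ)]
      nlinarith
    have h6 : (r ^ 2 - ρ ^ 2) * ((r - ρ) ^ 2 + (φ - τ) ^ 2) ≤
        2 * (r - ρ) * ((r - ρ) ^ 2 + (φ - τ) ^ 2) := by
      apply mul_le_mul_of_nonneg_right _ (by positivity)
      nlinarith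
    have h7 : 2 * (r - ρ) * ((r - ρ) ^ 2 + (φ - τ) ^ 2) ≤
        46 * (r - ρ) * ((r - ρ) ^ 2 + 2 / 45 * (φ - τ) ^ 2) := by
      have : 46 * (r - ρ) * ((r - ρ) ^ 2 + 2 / 45 * (φ - τ) ^ 2) -
          2 * (r - ρ) * ((r - ρ) ^ 2 + (φ - τ) ^ 2) =
          (r - ρ) * (44 * (r - ρ) ^ 2 + (92 / 45 - 2) * (φ - τ) ^ 2) := by ring
      have h8 : 0 ≤ (r - ρ) * (44 * (r - ρ) ^ 2 + (92 / 45 - 2) * (φ - τ) ^ 2) := by
        apply mul_nonneg hδ.le
        have := sq_nonneg (φ - τ)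
        have := sq_nonneg (r - ρ)
        nlinarith
      linarith
    have h9 : 46 * (r - ρ) * ((r - ρ) ^ 2 + 2 / 45 * (φ - τ) ^ 2) ≤
        46 * (r - ρ) * ((r - ρ) ^ 2 + 2 * (r * ρ) * (1 - Real.cos (φ - τ))) := by
      apply mul_le_mul_of_nonneg_left (by linarith) (by linarith)
    linarith
  -- the number of dyadic steps
  obtain ⟨n, hn1, hn2⟩ := exists_nat_pow_near (x := Real.pi / (r - ρ)) (y := (2:ℝ))
    (by rw [le_div_iff₀ hδ]; linarith) (by norm_num)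
  rw [le_div_iff₀ hδ] at hn1
  rw [div_lt_iff₀ hδ] at hn2
  have hK : (2:ℝ) ^ (n + 1) * (r - ρ) ≤ 2 * Real.pi := by
    rw [pow_succ]
    linarith
  have hD := a2_dyadic hw hw0 hδ hI (n + 1) hK
  have hcont : Continuous fun x => (r - ρ) / ((r - ρ) ^ 2 + (x - τ) ^ 2) * w x := by
    apply Continuous.mul _ hw
    apply continuous_const.div (by fun_prop)
    intro x
    positivity
  have hcont2 : Continuous fun φ =>
      (r ^ 2 - ρ ^ 2) / ‖(r:ℂ) * ex φ - (ρ:ℂ) * ex τ‖ ^ 2 * w φ := by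
    apply Continuous.mul _ hw
    apply continuous_const.div
    · have := a2_ex_cont
      fun_prop
    · exact fun x => (hden x).ne'
  have hsub : ∫ x in (τ - Real.pi)..(τ + Real.pi), (r - ρ) / ((r - ρ) ^ 2 + (x - τ) ^ 2) * w x ≤
      ∫ x in (τ - 2 ^ (n + 1) * (r - ρ))..(τ + 2 ^ (n + 1) * (r - ρ)),
        (r - ρ) / ((r - ρ) ^ 2 + (x - τ) ^ 2) * w x := by
    apply intervalIntegral.integral_mono_interval (by linarith) (by linarith) (by linarith)
    · apply Filter.Eventually.of_forall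
      intro x
      have := hw0 x
      simp only [Pi.zero_apply]
      positivity
    · exact hcont.intervalIntegrable _ _
  have hmain : ∫ φ in (τ - Real.pi)..(τ + Real.pi),
      (r ^ 2 - ρ ^ 2) / ‖(r:ℂ) * ex φ - (ρ:ℂ) * ex τ‖ ^ 2 * w φ ≤
      46 * ∫ x in (τ - Real.pi)..(τ + Real.pi), (r - ρ) / ((r - ρ) ^ 2 + (x - τ) ^ 2) * w x := by
    rw [← intervalIntegral.integral_const_mul]
    exact intervalIntegral.integral_mono_on (by linarith) (hcont2.intervalIntegrable _ _)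
      ((hcont.intervalIntegrable _ _).const_mul _) hker
  have h8 : (0:ℝ) ≤ 8 * t / 2 ^ (n + 1) := by positivity
  have htot : ∫ φ in (τ - Real.pi)..(τ + Real.pi),
      (r ^ 2 - ρ ^ 2) / ‖(r:ℂ) * ex φ - (ρ:ℂ) * ex τ‖ ^ 2 * w φ ≤ 460 * t := by linarith
  calc (1 / (2 * Real.pi)) * ∫ φ in (τ - Real.pi)..(τ + Real.pi),
      (r ^ 2 - ρ ^ 2) / ‖(r:ℂ) * ex φ - (ρ:ℂ) * ex τ‖ ^ 2 * w φ
      ≤ (1 / (2 * Real.pi)) * (460 * t) := mul_le_mul_of_nonneg_left htot (by positivity)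
    _ ≤ 120 * t := by
      rw [div_mul_eq_mul_div, one_mul, div_le_iff₀ (by positivity)]
      nlinarith

end Pool.Agent.H811R2.Quad
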