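import Pool.Agent.H811R2.T.Defs

open Set MeasureTheory Topology Filter
open scoped ENNReal

namespace Pool.Agent.H811R2.Quad

noncomputable section

/-- the Herglotz field on the unit disc -/
def a3_f {d : ℕ} (a : Fin d → ℂ) (ζ : ℂ) : ℂ :=
  1 + ∑ j, (1 - (starRingEnd ℂ) (a j) * ζ)⁻¹

/-- its square root -/
def a3_g {d : ℕ} (a : Fin d → ℂ) (ζ : ℂ) : ℂ := (a3_f a ζ) ^ (2⁻¹ : ℂ)

lemma a3_norm_lt {b ζ : ℂ} (hb : ‖b‖ ≤ 1) (hζ : ‖ζ‖ < 1) : ‖(starRingEnd ℂ) b * ζ‖ < 1 := by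
  rw [norm_mul, Complex.norm_conj]
  nlinarith [norm_nonneg b, norm_nonneg ζ]

lemma a3_ne {b ζ : ℂ} (hb : ‖b‖ ≤ 1) (hζ : ‖ζ‖ < 1) : 1 - (starRingEnd ℂ) b * ζ ≠ 0 := by
  intro h
  have h1 : (starRingEnd ℂ) b * ζ = 1 := (sub_eq_zero.mp h).symm
  have := a3_norm_lt hb hζ
  rw [h1, norm_one] at this
  exact lt_irrefl _ this

lemma a3_re_inv {u : ℂ} (hu : ‖u‖ < 1) : 0 ≤ ((1 - u)⁻¹).re := by
  rw [Complex.inv_re]
  apply div_nonneg _ (Complex.normSq_nonneg _)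
  have := (Complex.re_le_norm u)
  simp only [Complex.sub_re, Complex.one_re]
  linarith

lemma a3_re {d : ℕ} {a : Fin d → ℂ} (ha : ∀ j, ‖a j‖ ≤ 1) {ζ : ℂ} (hζ : ‖ζ‖ < 1) :
    1 ≤ (a3_f a ζ).re := by
  unfold a3_f
  rw [Complex.add_re, Complex.one_re, Complex.re_sum]
  have : 0 ≤ ∑ j, ((1 - (starRingEnd ℂ) (a j) * ζ)⁻¹).re :=
    Finset.sum_nonneg fun j _ => a3_re_inv (a3_norm_lt (ha j) hζ)
  linarith

lemma a3_diff_f {d : ℕ} {a : Fin d → ℂ} (ha : ∀ j, ‖a j‖ ≤ 1) :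
    DifferentiableOn ℂ (a3_f a) (Metric.ball 0 1) := by
  intro ζ hζ
  have hζ' : ‖ζ‖ < 1 := by simpa using hζ
  apply DifferentiableAt.differentiableWithinAt
  unfold a3_f
  apply DifferentiableAt.add (differentiableAt_const _)
  apply DifferentiableAt.fun_sum
  intro j _
  apply DifferentiableAt.inv
  · fun_prop
  · exact a3_ne (ha j) hζ'

lemma a3_diff_g {d : ℕ} {a : Fin d → ℂ} (ha : ∀ j, ‖a j‖ ≤ 1) :
    DifferentiableOn ℂ (a3_g a) (Metric.ball 0 1) := by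
  unfold a3_g
  apply DifferentiableOn.cpow (a3_diff_f ha) (differentiableOn_const _)
  intro ζ hζ
  have hζ' : ‖ζ‖ < 1 := by simpa using hζ
  left
  have := a3_re ha hζ'
  linarith

lemma a3_g_re {d : ℕ} (a : Fin d → ℂ) (ζ : ℂ) :
    (a3_g a ζ).re = Real.sqrt ((‖a3_f a ζ‖ + (a3_f a ζ).re) / 2) := Complex.cpow_inv_two_re _

lemma a3_norm_ex (φ : ℝ) : ‖ex φ‖ = 1 := by
  unfold ex; exact Complex.norm_exp_ofReal_mul_I φ

lemma a3_conj_fld {d : ℕ} (a : Fin d → ℂ) (R τ : ℝ) (hR : 0 < R) :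
    (starRingEnd ℂ) (fld a (((1 + R : ℝ) : ℂ) * ex τ)) =
      a3_f a (((1 + R)⁻¹ : ℝ) * ex τ) - 1 := by
  unfold fld a3_f
  rw [map_sum, add_sub_cancel_left]
  apply Finset.sum_congr rfl
  intro j _
  rw [map_div₀, map_sub, map_mul]
  have h1 : (starRingEnd ℂ) (ex τ) = (ex τ)⁻¹ := by
    have hn : ex τ ≠ 0 := by
      intro h; have := a3_norm_ex τ; rw [h, norm_zero] at this; exact zero_ne_one this
    apply eq_inv_of_mul_eq_one_left
    rw [mul_comm, Complex.mul_conj, Complex.normSq_eq_norm_sq, a3_norm_ex]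
    norm_num
  have hn : ex τ ≠ 0 := by
    intro h; have := a3_norm_ex τ; rw [h, norm_zero] at this; exact zero_ne_one this
  have hR' : ((1 + R : ℝ) : ℂ) ≠ 0 := by
    exact_mod_cast (by linarith : (1 + R : ℝ) ≠ 0)
  rw [h1, Complex.conj_ofReal]
  have key : ((1 + R : ℝ) : ℂ) * (ex τ)⁻¹ - (starRingEnd ℂ) (a j) =
      (((1 + R : ℝ) : ℂ) * (ex τ)⁻¹) *
        (1 - (starRingEnd ℂ) (a j) * ((((1 + R)⁻¹ : ℝ) : ℂ) * ex τ)) := by
    rw [Complex.ofReal_inv]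
    field_simp
  rw [key]
  have hW : ((1 + R : ℝ) : ℂ) * (ex τ)⁻¹ ≠ 0 := mul_ne_zero hR' (inv_ne_zero hn)
  rw [div_mul_eq_div_div, div_self hW, one_div]

lemma a3_norm_fld {d : ℕ} {a : Fin d → ℂ} (ha : ∀ j, ‖a j‖ ≤ 1) (R τ : ℝ) (hR : 0 < R) :
    ‖fld a (((1 + R : ℝ) : ℂ) * ex τ)‖ ≤ ‖a3_f a (((1 + R)⁻¹ : ℝ) * ex τ)‖ := by
  rw [← Complex.norm_conj, a3_conj_fld a R τ hR]
  set z := a3_f a (((1 + R)⁻¹ : ℝ) * ex τ) with hz
  have hre : 1 ≤ z.re := by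
    apply a3_re ha
    rw [norm_mul, a3_norm_ex, mul_one, Complex.norm_real, Real.norm_of_nonneg (by positivity)]
    apply inv_lt_one_of_one_lt₀
    linarith
  have h1 := Complex.sq_norm (z - 1)
  have h2 := Complex.sq_norm z
  rw [Complex.normSq_apply] at h1 h2
  simp only [Complex.sub_re, Complex.sub_im, Complex.one_re, Complex.one_im, sub_zero] at h1
  refine (pow_le_pow_iff_left₀ (norm_nonneg _) (norm_nonneg _) two_ne_zero).mp ?_
  rw [h1, h2]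
  nlinarith

lemma a3_diffCont {d : ℕ} {a : Fin d → ℂ} (ha : ∀ j, ‖a j‖ ≤ 1) {r : ℝ} (hr : r < 1) :
    DiffContOnCl ℂ (a3_g a) (Metric.ball 0 r) := by
  apply DifferentiableOn.diffContOnCl
  apply (a3_diff_g ha).mono
  exact Metric.closure_ball_subset_closedBall.trans (Metric.closedBall_subset_ball hr)

lemma a3_circleMap (r φ : ℝ) : circleMap 0 r φ = (r : ℂ) * ex φ := by
  unfold circleMap ex; rw [zero_add]

lemma a3_cont_w {d : ℕ} {a : Fin d → ℂ} (ha : ∀ j, ‖a j‖ ≤ 1) {r : ℝ} (hr0 : 0 ≤ r)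
    (hr : r < 1) : Continuous (fun φ : ℝ => a3_g a ((r : ℂ) * ex φ)) := by
  apply ContinuousOn.comp_continuous (a3_diff_g ha).continuousOn
  · unfold ex; fun_prop
  · intro φ
    rw [mem_ball_zero_iff, norm_mul, a3_norm_ex, mul_one, Complex.norm_real,
      Real.norm_of_nonneg hr0]
    exact hr

lemma a3_mean {d : ℕ} {a : Fin d → ℂ} (ha : ∀ j, ‖a j‖ ≤ 1) {r : ℝ} (hr0 : 0 ≤ r) (hr : r < 1) :
    ∫ φ in (0:ℝ)..(2 * Real.pi), (a3_g a ((r : ℂ) * ex φ)).re =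
      2 * Real.pi * Real.sqrt (1 + d) := by
  have hd : DiffContOnCl ℂ (a3_g a) (Metric.ball 0 |r|) := by
    rw [abs_of_nonneg hr0]; exact a3_diffCont ha hr
  have hm := hd.circleAverage
  have hc : Continuous (fun φ : ℝ => a3_g a (circleMap 0 r φ)) := by
    simp_rw [a3_circleMap]; exact a3_cont_w ha hr0 hr
  have hci : CircleIntegrable (a3_g a) 0 r := hc.intervalIntegrable _ _
  have hm2 := Complex.reCLM.circleAverage_comp_comm hci
  rw [hm, Real.circleAverage_def] at hm2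
  have h0 : Complex.reCLM (a3_g a 0) = Real.sqrt (1 + d) := by
    rw [Complex.reCLM_apply, a3_g_re]
    have hf : a3_f a 0 = ((1 + d : ℝ) : ℂ) := by
      unfold a3_f; simp
    rw [hf, Complex.norm_real, Complex.ofReal_re, Real.norm_of_nonneg (by positivity)]
    congr 1; ring
  rw [h0] at hm2
  have hpi : (2 * Real.pi) ≠ 0 := by positivity
  rw [smul_eq_mul, inv_mul_eq_iff_eq_mul₀ hpi] at hm2
  rw [← hm2]
  apply intervalIntegral.integral_congr
  intro φ _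
  simp [a3_circleMap]

lemma a3_poisson {d : ℕ} {a : Fin d → ℂ} (ha : ∀ j, ‖a j‖ ≤ 1) {r ρ : ℝ} (τ : ℝ) (hρ0 : 0 ≤ ρ)
    (hρ : ρ < r) (hr : r < 1) :
    (1 / (2 * Real.pi)) * ∫ φ in (0:ℝ)..(2 * Real.pi),
      (r ^ 2 - ρ ^ 2) / ‖(r:ℂ) * ex φ - (ρ:ℂ) * ex τ‖ ^ 2 * (a3_g a ((r : ℂ) * ex φ)).re =
    (a3_g a ((ρ : ℂ) * ex τ)).re := by
  have hr0 : 0 ≤ r := hρ0.trans hρ.le
  have hw : (ρ : ℂ) * ex τ ∈ Metric.ball (0:ℂ) r := by
    rw [mem_ball_zero_iff, norm_mul, a3_norm_ex, mul_one, Complex.norm_real,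
      Real.norm_of_nonneg hρ0]
    exact hρ
  have hnρ : ‖(ρ : ℂ) * ex τ‖ = ρ := by
    rw [norm_mul, a3_norm_ex, mul_one, Complex.norm_real, Real.norm_of_nonneg hρ0]
  have hnr : ∀ φ, ‖(r : ℂ) * ex φ‖ = r := by
    intro φ
    rw [norm_mul, a3_norm_ex, mul_one, Complex.norm_real, Real.norm_of_nonneg hr0]
  have hne : ∀ φ, ‖(r:ℂ) * ex φ - (ρ:ℂ) * ex τ‖ ^ 2 ≠ 0 := by
    intro φ h
    have h1 : ‖(r:ℂ) * ex φ - (ρ:ℂ) * ex τ‖ = 0 := by
      exact pow_eq_zero_iff (two_ne_zero) |>.mp h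
    have h2 := sub_eq_zero.mp (norm_eq_zero.mp h1)
    have h3 := hnr φ
    rw [h2, hnρ] at h3
    linarith
  have P := (a3_diffCont ha hr).circleAverage_poissonKernel_smul' hw
  set F : ℂ → ℂ := fun z => ((‖z - 0‖ ^ 2 - ‖(ρ : ℂ) * ex τ - 0‖ ^ 2) /
    ‖(z - 0) - ((ρ : ℂ) * ex τ - 0)‖ ^ 2) • a3_g a z with hF
  have hFφ : ∀ φ, F (circleMap 0 r φ) =
      ((r ^ 2 - ρ ^ 2) / ‖(r:ℂ) * ex φ - (ρ:ℂ) * ex τ‖ ^ 2) • a3_g a ((r : ℂ) * ex φ) := by
    intro φ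
    rw [hF, a3_circleMap]
    simp only [sub_zero, hnρ, hnr]
  have hc : Continuous (fun φ : ℝ => F (circleMap 0 r φ)) := by
    simp_rw [hFφ]
    apply Continuous.fun_smul _ (a3_cont_w ha hr0 hr)
    apply Continuous.div continuous_const _ hne
    unfold ex; fun_prop
  have hci : CircleIntegrable F 0 r := hc.intervalIntegrable _ _
  have hm2 := Complex.reCLM.circleAverage_comp_comm hci
  rw [P, Real.circleAverage_def, Complex.reCLM_apply] at hm2
  rw [← hm2, one_div, smul_eq_mul]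
  congr 1
  apply intervalIntegral.integral_congr
  intro φ _
  simp only [Function.comp_apply, hFφ, Complex.reCLM_apply, Complex.real_smul,
    Complex.re_ofReal_mul]

theorem tA3' : StA1 → StA2 → StA3 := by
  intro A1 A2 d a ha h h0 h1 lam hlam
  set r : ℝ := (1 + h / 2)⁻¹ with hr
  have hr0 : 0 < r := by positivity
  have hr1 : r < 1 := inv_lt_one_of_one_lt₀ (by linarith)
  set w : ℝ → ℝ := fun φ => (a3_g a ((r : ℂ) * ex φ)).re with hw
  have hwc : Continuous w := Complex.continuous_re.comp (a3_cont_w ha hr0.le hr1)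
  have hw0 : ∀ x, 0 ≤ w x := by
    intro x; simp only [hw, a3_g_re]; exact Real.sqrt_nonneg _
  have hwp : ∀ x, w (x + 2 * Real.pi) = w x := by
    intro x
    simp only [hw]
    have : ex (x + 2 * Real.pi) = ex x := by
      unfold ex
      have := Complex.exp_periodic ((x : ℂ) * Complex.I)
      rw [← this]
      congr 1
      push_cast
      ring
    rw [this]
  set t : ℝ := Real.sqrt (lam / 2) / 120 with ht
  have ht0 : 0 < t := by positivity
  have key := A1 w hwc hw0 hwp t ht0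
    {τ : ℝ | τ ∈ Icc 0 (2 * Real.pi) ∧
      ∃ R ∈ Icc h 1, lam < ‖fld a (((1 + R : ℝ) : ℂ) * ex τ)‖} (fun τ hτ => hτ.1) (by
      rintro τ ⟨_, R, hR, hlR⟩
      by_contra hcon
      push Not at hcon
      have hRpos : 0 < R := lt_of_lt_of_le h0 hR.1
      set ρ : ℝ := (1 + R)⁻¹ with hρ
      have hρ0 : 0 < ρ := by positivity
      have hρ3 : 1 / 3 ≤ ρ := by
        rw [hρ, one_div]
        apply inv_anti₀ (by linarith)
        linarith [hR.2]
      have hρr : ρ < r := by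
        rw [hρ, hr]
        apply inv_strictAnti₀ (by linarith)
        linarith [hR.1]
      have hP := A2 w hwc hw0 hwp r ρ τ t hρ3 hρr hr1.le ht0.le (fun l hl0 hl1 =>
        (hcon l hl0 hl1).le)
      rw [hw, a3_poisson ha τ hρ0.le hρr hr1, a3_g_re] at hP
      have hn := a3_norm_fld ha R τ hRpos
      rw [← hρ] at hn
      have hρ1 : ρ < 1 := hρr.trans hr1
      have hre : 1 ≤ (a3_f a ((ρ : ℂ) * ex τ)).re := by
        apply a3_re ha
        rw [norm_mul, a3_norm_ex, mul_one, Complex.norm_real, Real.norm_of_nonneg hρ0.le]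
        exact hρ1
      have hlt : Real.sqrt (lam / 2) <
          Real.sqrt ((‖a3_f a ((ρ : ℂ) * ex τ)‖ + (a3_f a ((ρ : ℂ) * ex τ)).re) / 2) := by
        apply Real.sqrt_lt_sqrt (by positivity)
        linarith
      have : 120 * t = Real.sqrt (lam / 2) := by rw [ht]; ring
      rw [this] at hP
      linarith)
  refine key.trans (ENNReal.ofReal_le_ofReal ?_)
  have hmean : ∫ x in (0:ℝ)..(2 * Real.pi), w x = 2 * Real.pi * Real.sqrt (1 + d) :=
    a3_mean ha hr0.le hr1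
  rw [hmean, ht, Real.sqrt_div (by positivity : (0:ℝ) ≤ 1 + d), Real.sqrt_div hlam.le]
  have hs2 : Real.sqrt 2 ≤ 1.4143 := by
    rw [Real.sqrt_le_left (by norm_num)]; norm_num
  have hs2' : 0 < Real.sqrt 2 := by positivity
  have hsl : 0 < Real.sqrt lam := Real.sqrt_pos.mpr hlam
  have hpi : Real.pi ≤ 3.1416 := Real.pi_lt_d4.le
  have e : 15 / (Real.sqrt lam / Real.sqrt 2 / 120) * (2 * Real.pi * Real.sqrt (1 + d)) =
      (3600 * Real.pi * Real.sqrt 2) * (Real.sqrt (1 + d) / Real.sqrt lam) := by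
    field_simp
    ring
  rw [e]
  apply mul_le_mul_of_nonneg_right _ (by positivity)
  have : Real.pi * Real.sqrt 2 ≤ 3.1416 * 1.4143 :=
    mul_le_mul hpi hs2 hs2'.le (by norm_num)
  nlinarith

end

end Pool.Agent.H811R2.Quad
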