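import Pool.Agent.H811R2.T.Defs

/-! Task B: Jensen and Markov (helper506). -/

open Set MeasureTheory Topology Filter

namespace Pool.Agent.H811R2.Quad

theorem b_norm_ex (τ : ℝ) : ‖ex τ‖ = 1 := by
  rw [ex, Complex.norm_exp_ofReal_mul_I]

theorem b_circle (R τ : ℝ) : (R : ℂ) * ex τ = circleMap 0 R τ := by
  rw [circleMap_zero, ex]

theorem b_int (a : ℂ) (ha : ‖a‖ ≤ 1) {R : ℝ} (hR : 1 ≤ R) :
    IntervalIntegrable (fun τ : ℝ => Real.log ‖(R : ℂ) * ex τ - a‖) volume 0 (2 * Real.pi) ∧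
      ∫ τ in (0:ℝ)..(2 * Real.pi), Real.log ‖(R : ℂ) * ex τ - a‖ =
        2 * Real.pi * Real.log R := by
  have h1 : CircleIntegrable (Real.log ‖· - a‖) 0 R := circleIntegrable_log_norm_sub_const R
  have h2 := circleAverage_log_norm_sub_const_of_mem_closedBall (a := a) (c := 0) (R := R) (by
    rw [Metric.mem_closedBall, dist_zero_right, abs_of_pos (by linarith)]
    linarith)
  rw [Real.circleAverage_def, smul_eq_mul] at h2
  simp only [b_circle]
  refine ⟨h1, ?_⟩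
  have hpi : (2 * Real.pi) ≠ 0 := by positivity
  rw [← h2, ← mul_assoc, mul_inv_cancel₀ hpi, one_mul]

theorem b_countable (a : ℂ) : {τ : ℝ | ex τ = a}.Countable := by
  rcases (Set.eq_empty_or_nonempty {τ : ℝ | ex τ = a}) with h | ⟨τ0, h0⟩
  · rw [h]; exact Set.countable_empty
  · refine (Set.countable_range fun k : ℤ => τ0 + k * (2 * Real.pi)).mono ?_
    intro τ hτ
    have h1 : ex τ = ex τ0 := by
      exact (show ex τ = a from hτ).trans (show ex τ0 = a from h0).symm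
    unfold ex at h1
    obtain ⟨k, hk⟩ := Complex.exp_eq_exp_iff_exists_int.1 h1
    refine ⟨k, ?_⟩
    have h2 : (τ : ℂ) = ((τ0 + k * (2 * Real.pi) : ℝ) : ℂ) := by
      have h3 : ((τ : ℂ) - ((τ0 + k * (2 * Real.pi) : ℝ) : ℂ)) * Complex.I = 0 := by
        push_cast
        linear_combination hk
      have h4 := (mul_eq_zero.1 h3).resolve_right Complex.I_ne_zero
      exact sub_eq_zero.1 h4
    exact (Complex.ofReal_injective h2).symm

theorem b_nonneg (a u : ℂ) (ha : ‖a‖ ≤ 1) (hu : ‖u‖ = 1) (hua : u ≠ a) {h : ℝ} (hh : 0 < h) :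
    0 ≤ Real.log ‖((1 + h : ℝ) : ℂ) * u - a‖ - Real.log ‖u - a‖ := by
  rw [sub_nonneg]
  refine Real.log_le_log (norm_pos_iff.2 (sub_ne_zero.2 hua)) ?_
  have h1 : ‖u - a‖ ^ 2 ≤ ‖((1 + h : ℝ) : ℂ) * u - a‖ ^ 2 := by
    have hu2 : u.re ^ 2 + u.im ^ 2 = 1 := by
      have := Complex.sq_norm u
      rw [hu, Complex.normSq_apply] at this
      linarith
    have ha2 : a.re ^ 2 + a.im ^ 2 ≤ 1 := by
      have h3 := Complex.sq_norm a
      rw [Complex.normSq_apply] at h3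
      have : ‖a‖ ^ 2 ≤ 1 := pow_le_one₀ (norm_nonneg a) ha
      linarith
    rw [Complex.sq_norm, Complex.sq_norm, Complex.normSq_apply, Complex.normSq_apply]
    simp only [Complex.sub_re, Complex.sub_im, Complex.mul_re, Complex.mul_im, Complex.ofReal_re,
      Complex.ofReal_im, zero_mul, sub_zero, add_zero]
    have hip : u.re * a.re + u.im * a.im ≤ 1 := by
      nlinarith [sq_nonneg (u.re - a.re), sq_nonneg (u.im - a.im)]
    nlinarith [mul_nonneg hh.le (sub_nonneg.2 hip), mul_pos hh hh]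
  exact (sq_le_sq₀ (norm_nonneg _) (norm_nonneg _)).1 h1

theorem tB : StB := by
  intro d a ha h hh A hA
  obtain ⟨F, hF⟩ : ∃ F : ℝ → ℝ, F = fun τ => ∑ j, (Real.log ‖((1 + h : ℝ) : ℂ) * ex τ - a j‖ -
    Real.log ‖ex τ - a j‖) := ⟨_, rfl⟩
  have hpi : 0 < 2 * Real.pi := by positivity
  have hi : ∀ j, IntervalIntegrable (fun τ : ℝ => Real.log ‖((1 + h : ℝ) : ℂ) * ex τ - a j‖ -
      Real.log ‖ex τ - a j‖) volume 0 (2 * Real.pi) ∧
      ∫ τ in (0:ℝ)..(2 * Real.pi), (Real.log ‖((1 + h : ℝ) : ℂ) * ex τ - a j‖ -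
        Real.log ‖ex τ - a j‖) = 2 * Real.pi * Real.log (1 + h) := by
    intro j
    have h1 := b_int (a j) (ha j) (R := 1 + h) (by linarith)
    have h2 := b_int (a j) (ha j) (R := 1) le_rfl
    simp only [Complex.ofReal_one, one_mul, Real.log_one, mul_zero] at h2
    refine ⟨h1.1.sub h2.1, ?_⟩
    rw [intervalIntegral.integral_sub h1.1 h2.1, h1.2, h2.2, sub_zero]
  have hFi : IntervalIntegrable F volume 0 (2 * Real.pi) := by
    have h0 := IntervalIntegrable.sum (f := fun (j : Fin d) τ =>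
      Real.log ‖((1 + h : ℝ) : ℂ) * ex τ - a j‖ - Real.log ‖ex τ - a j‖) Finset.univ
      fun j _ => (hi j).1
    have e : F = ∑ j : Fin d, fun τ : ℝ =>
        Real.log ‖((1 + h : ℝ) : ℂ) * ex τ - a j‖ - Real.log ‖ex τ - a j‖ := by
      rw [hF]
      funext τ
      rw [Finset.sum_apply]
    rw [e]
    exact h0
  have hFI : ∫ τ in (0:ℝ)..(2 * Real.pi), F τ ≤ 2 * Real.pi * d * h := by
    rw [hF, intervalIntegral.integral_finsetSum fun j _ => (hi j).1]
    simp only [fun j => (hi j).2, Finset.sum_const, Finset.card_univ, Fintype.card_fin,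
      nsmul_eq_mul]
    have h3 : Real.log (1 + h) ≤ h := by
      have := Real.log_le_sub_one_of_pos (show 0 < 1 + h by linarith)
      linarith
    have hd : (0 : ℝ) ≤ d := Nat.cast_nonneg d
    calc (d : ℝ) * (2 * Real.pi * Real.log (1 + h)) = 2 * Real.pi * d * Real.log (1 + h) := by ring
      _ ≤ _ := by gcongr
  have hN : (⋃ j, {τ : ℝ | ex τ = a j}).Countable := Set.countable_iUnion fun j => b_countable (a j)
  have hN0 : volume (⋃ j, {τ : ℝ | ex τ = a j}) = 0 := hN.measure_zero _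
  have hF0 : 0 ≤ᵐ[volume.restrict (Ioc 0 (2 * Real.pi))] F := by
    refine ae_restrict_of_ae ?_
    have : ∀ᵐ τ ∂(volume : Measure ℝ), τ ∉ ⋃ j, {τ : ℝ | ex τ = a j} := by
      rw [ae_iff]
      simp only [not_not]
      exact hN0
    filter_upwards [this] with τ hτ
    rw [hF]
    refine Finset.sum_nonneg fun j _ => b_nonneg (a j) (ex τ) (ha j) (b_norm_ex τ) ?_ hh
    intro h4
    exact hτ (mem_iUnion.2 ⟨j, h4⟩)
  have hFint : Integrable F (volume.restrict (Ioc 0 (2 * Real.pi))) :=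
    (intervalIntegrable_iff_integrableOn_Ioc_of_le hpi.le).1 hFi
  have hM := mul_meas_ge_le_integral_of_nonneg hF0 hFint A
  rw [← intervalIntegral.integral_of_le hpi.le] at hM
  have hfin : (volume.restrict (Ioc 0 (2 * Real.pi))) {τ | A ≤ F τ} ≠ ⊤ := measure_ne_top _ _
  have hM2 : (volume.restrict (Ioc 0 (2 * Real.pi))) {τ | A ≤ F τ} ≤
      ENNReal.ofReal (2 * Real.pi * d * h / A) := by
    rw [← ENNReal.ofReal_toReal hfin]
    refine ENNReal.ofReal_le_ofReal ?_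
    rw [le_div_iff₀ hA, mul_comm]
    exact hM.trans hFI
  have hsub : {τ : ℝ | τ ∈ Icc 0 (2 * Real.pi) ∧ ((∃ j, ex τ = a j) ∨
      A < ∑ j, (Real.log ‖((1 + h : ℝ) : ℂ) * ex τ - a j‖ - Real.log ‖ex τ - a j‖))} ⊆
      ((⋃ j, {τ : ℝ | ex τ = a j}) ∪ {0}) ∪ ({τ | A ≤ F τ} ∩ Ioc 0 (2 * Real.pi)) := by
    rintro τ ⟨hτ, h5 | h5⟩
    · exact Or.inl (Or.inl (mem_iUnion.2 h5))
    · rcases eq_or_ne τ 0 with h6 | h6
      · exact Or.inl (Or.inr h6)
      · refine Or.inr ⟨?_, lt_of_le_of_ne hτ.1 h6.symm, hτ.2⟩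
        rw [hF]
        exact h5.le
  calc _ ≤ volume (((⋃ j, {τ : ℝ | ex τ = a j}) ∪ {0}) ∪
        ({τ | A ≤ F τ} ∩ Ioc 0 (2 * Real.pi))) := measure_mono hsub
    _ ≤ volume ((⋃ j, {τ : ℝ | ex τ = a j}) ∪ {0}) +
        volume ({τ | A ≤ F τ} ∩ Ioc 0 (2 * Real.pi)) := measure_union_le _ _
    _ ≤ 0 + volume ({τ | A ≤ F τ} ∩ Ioc 0 (2 * Real.pi)) := by
        gcongr
        refine (measure_union_le _ _).trans ?_
        rw [hN0, Real.volume_singleton, add_zero]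
    _ = (volume.restrict (Ioc 0 (2 * Real.pi))) {τ | A ≤ F τ} := by
        rw [zero_add, Measure.restrict_apply' measurableSet_Ioc]
    _ ≤ _ := hM2

end Pool.Agent.H811R2.Quad
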