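import Pool.Agent.H811R2.T.Defs

/-! StC: growth of the product at a good point of the circle. -/

open Set MeasureTheory Topology Filter

namespace Pool.Agent.H811R2.Quad

noncomputable section

lemma c_norm_ex (τ : ℝ) : ‖ex τ‖ = 1 := by
  unfold ex
  exact Complex.norm_exp_ofReal_mul_I τ

/-- the point of modulus `1 + R` -/
def c_W (τ R : ℝ) : ℂ := ((1 + R : ℝ) : ℂ) * ex τ

lemma c_norm_W (τ : ℝ) {R : ℝ} (hR : 0 ≤ R) : ‖c_W τ R‖ = 1 + R := by
  unfold c_W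
  rw [norm_mul, c_norm_ex, mul_one, Complex.norm_real, Real.norm_of_nonneg (by linarith)]

lemma c_dist (τ : ℝ) {R : ℝ} (hR : 0 ≤ R) {a : ℂ} (ha : ‖a‖ ≤ 1) : R ≤ ‖c_W τ R - a‖ := by
  have h1 := norm_sub_norm_le (c_W τ R) a
  rw [c_norm_W τ hR] at h1
  linarith

lemma c_pos (τ : ℝ) {R : ℝ} (hR : 0 < R) {a : ℂ} (ha : ‖a‖ ≤ 1) : 0 < ‖c_W τ R - a‖ :=
  lt_of_lt_of_le hR (c_dist τ hR.le ha)

/-- `Re (W / (W - a)) ≥ R / |W - a|^2` -/
lemma c_re (τ : ℝ) {R : ℝ} (hR : 0 < R) {a : ℂ} (ha : ‖a‖ ≤ 1) :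
    R / ‖c_W τ R - a‖ ^ 2 ≤ (c_W τ R / (c_W τ R - a)).re := by
  have hp := c_pos τ hR ha
  have hp2 : 0 < ‖c_W τ R - a‖ ^ 2 := by positivity
  have h0 : (c_W τ R / (c_W τ R - a)).re =
      (c_W τ R * (starRingEnd ℂ) (c_W τ R - a)).re / ‖c_W τ R - a‖ ^ 2 := by
    rw [div_eq_mul_inv, Complex.inv_def, ← mul_assoc, Complex.normSq_eq_norm_sq]
    rw [mul_comm (c_W τ R * _), Complex.re_ofReal_mul]
    field_simp
  rw [h0]
  apply div_le_div_of_nonneg_right _ hp2.le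
  have hW := c_norm_W τ hR.le
  have e1 : ‖c_W τ R‖ ^ 2 = (c_W τ R).re ^ 2 + (c_W τ R).im ^ 2 := by
    rw [← Complex.normSq_eq_norm_sq, Complex.normSq_apply]; ring
  have e2 : ‖a‖ ^ 2 = a.re ^ 2 + a.im ^ 2 := by
    rw [← Complex.normSq_eq_norm_sq, Complex.normSq_apply]; ring
  have e3 : ‖a‖ ^ 2 ≤ 1 := by
    have := norm_nonneg a
    nlinarith
  have e4 : (c_W τ R * (starRingEnd ℂ) (c_W τ R - a)).re =
      (c_W τ R).re * ((c_W τ R).re - a.re) + (c_W τ R).im * ((c_W τ R).im - a.im) := by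
    simp [Complex.mul_re]
    ring
  rw [e4]
  rw [hW] at e1
  nlinarith [sq_nonneg ((c_W τ R).re - a.re), sq_nonneg ((c_W τ R).im - a.im)]

lemma c_norm_one_add (ζ : ℂ) : ‖1 + ζ‖ ≤ Real.exp (ζ.re + ‖ζ‖ ^ 2 / 2) := by
  have h1 : ‖1 + ζ‖ ^ 2 = 1 + 2 * ζ.re + ‖ζ‖ ^ 2 := by
    rw [← Complex.normSq_eq_norm_sq, ← Complex.normSq_eq_norm_sq, Complex.normSq_apply,
      Complex.normSq_apply]
    simp
    ring
  have h2 : ‖1 + ζ‖ ^ 2 ≤ Real.exp (ζ.re + ‖ζ‖ ^ 2 / 2) ^ 2 := by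
    rw [h1, ← Real.exp_nat_mul]
    have := Real.add_one_le_exp (2 * ζ.re + ‖ζ‖ ^ 2)
    calc 1 + 2 * ζ.re + ‖ζ‖ ^ 2 = (2 * ζ.re + ‖ζ‖ ^ 2) + 1 := by ring
      _ ≤ Real.exp (2 * ζ.re + ‖ζ‖ ^ 2) := this
      _ = _ := by
        congr 1
        push_cast
        ring
  exact le_of_sq_le_sq h2 (Real.exp_pos _).le

/-- derivative of `log |W_R - a|` -/
lemma c_deriv (τ : ℝ) {R : ℝ} (hR : 0 < R) {a : ℂ} (ha : ‖a‖ ≤ 1) :
    HasDerivAt (fun R => Real.log ‖c_W τ R - a‖)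
      ((c_W τ R / (c_W τ R - a)).re / (1 + R)) R := by
  have hp := c_pos τ hR ha
  have hW : HasDerivAt (fun R : ℝ => c_W τ R - a) (ex τ) R := by
    unfold c_W
    have h1 : HasDerivAt (fun R : ℝ => ((1 + R : ℝ) : ℂ)) 1 R := by
      have := ((hasDerivAt_id R).const_add 1).ofReal_comp
      simpa using this
    simpa using (h1.mul_const (ex τ)).sub_const a
  have h2 := hW.norm_sq
  have h3 := h2.log (ne_of_gt (by positivity : 0 < ‖c_W τ R - a‖ ^ 2))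
  have h4 := h3.const_mul (1 / 2 : ℝ)
  have hf : (fun R => 1 / 2 * Real.log (‖c_W τ R - a‖ ^ 2)) =
      fun R => Real.log ‖c_W τ R - a‖ := by
    funext R
    rw [Real.log_pow]
    push_cast
    ring
  rw [hf] at h4
  have h0 : (c_W τ R / (c_W τ R - a)).re =
      (c_W τ R * (starRingEnd ℂ) (c_W τ R - a)).re / ‖c_W τ R - a‖ ^ 2 := by
    rw [div_eq_mul_inv, Complex.inv_def, ← mul_assoc, Complex.normSq_eq_norm_sq]
    rw [mul_comm (c_W τ R * _), Complex.re_ofReal_mul]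
    field_simp
  have h5 : (c_W τ R * (starRingEnd ℂ) (c_W τ R - a)).re =
      (1 + R) * inner ℝ (c_W τ R - a) (ex τ) := by
    rw [Complex.inner]
    have : c_W τ R = ((1 + R : ℝ) : ℂ) * ex τ := rfl
    rw [this, mul_assoc, Complex.re_ofReal_mul, mul_comm (ex τ)]
  have h6 : (1 + R) ≠ 0 := by linarith
  have h7 : (c_W τ R / (c_W τ R - a)).re / (1 + R) =
      1 / 2 * (2 * inner ℝ (c_W τ R - a) (ex τ) / ‖c_W τ R - a‖ ^ 2) := by
    rw [h0, h5]
    field_simp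
  rw [h7]
  exact h4

lemma c_growth {d : ℕ} (a : Fin d → ℂ) (ha : ∀ j, ‖a j‖ ≤ 1) {h : ℝ} (hh : 0 < h) {lam τ : ℝ}
    (hfld : ∀ R ∈ Icc h 1, ‖fld a (((1 + R : ℝ) : ℂ) * ex τ)‖ ≤ lam) {R : ℝ} (hR : R ∈ Icc h 1) :
    ∑ j, Real.log ‖c_W τ R - a j‖ - ∑ j, Real.log ‖c_W τ h - a j‖ ≤ lam * (R - h) := by
  have hlam : 0 ≤ lam := (norm_nonneg _).trans (hfld R hR)
  have hd : ∀ R, 0 < R → HasDerivAt (fun R => ∑ j, Real.log ‖c_W τ R - a j‖)
      (∑ j, (c_W τ R / (c_W τ R - a j)).re / (1 + R)) R := by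
    intro R hR
    exact HasDerivAt.fun_sum (fun j _ => c_deriv τ hR (ha j))
  have hle : ∀ R ∈ Icc h 1, (∑ j, (c_W τ R / (c_W τ R - a j)).re / (1 + R)) ≤ lam := by
    intro R hR
    have hR0 : 0 < R := lt_of_lt_of_le hh hR.1
    rw [← Finset.sum_div, ← Complex.re_sum]
    have h1 := (Complex.re_le_norm (∑ j, c_W τ R / (c_W τ R - a j))).trans (hfld R hR)
    rw [div_le_iff₀ (by linarith)]
    nlinarith
  have := Convex.image_sub_le_mul_sub_of_deriv_le (convex_Icc h 1)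
    (f := fun R => ∑ j, Real.log ‖c_W τ R - a j‖) (C := lam)
    (fun R hR => (hd R (lt_of_lt_of_le hh hR.1)).continuousAt.continuousWithinAt)
    (fun R hR => by
      rw [interior_Icc] at hR
      exact (hd R (hh.trans hR.1)).differentiableAt.differentiableWithinAt)
    (fun R hR => by
      rw [interior_Icc] at hR
      rw [(hd R (hh.trans hR.1)).deriv]
      exact hle R (Ioo_subset_Icc_self hR))
    h (left_mem_Icc.2 (hR.1.trans hR.2)) R hR hR.1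
  exact this

lemma c_prod_exp {d : ℕ} (f : Fin d → ℝ) (hf : ∀ j, 0 < f j) :
    ∏ j, f j = Real.exp (∑ j, Real.log (f j)) := by
  rw [Real.exp_sum]
  exact Finset.prod_congr rfl (fun j _ => (Real.exp_log (hf j)).symm)

lemma c_prod {d : ℕ} (a : Fin d → ℂ) (ha : ∀ j, ‖a j‖ ≤ 1) {h : ℝ} (hh : 0 < h) {lam A τ : ℝ}
    (hfld : ∀ R ∈ Icc h 1, ‖fld a (((1 + R : ℝ) : ℂ) * ex τ)‖ ≤ lam)
    (hne : ∀ j, ex τ ≠ a j)
    (hA : ∑ j, (Real.log ‖((1 + h : ℝ) : ℂ) * ex τ - a j‖ - Real.log ‖ex τ - a j‖) ≤ A)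
    {R : ℝ} (hR : R ∈ Icc h 1) :
    ∏ j, ‖c_W τ R - a j‖ ≤ Real.exp (A + lam * (R - h)) * ∏ j, ‖ex τ - a j‖ := by
  have hR0 : 0 < R := lt_of_lt_of_le hh hR.1
  rw [c_prod_exp _ (fun j => c_pos τ hR0 (ha j)),
    c_prod_exp (fun j => ‖ex τ - a j‖) (fun j => norm_pos_iff.2 (sub_ne_zero.2 (hne j))),
    ← Real.exp_add]
  apply Real.exp_le_exp.2
  have h1 := c_growth a ha hh hfld hR
  rw [Finset.sum_sub_distrib] at hA
  have h2 : ∑ j, Real.log ‖c_W τ h - a j‖ = ∑ j, Real.log ‖((1 + h : ℝ) : ℂ) * ex τ - a j‖ := rfl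
  linarith

lemma c_mult {d : ℕ} (a : Fin d → ℂ) (ha : ∀ j, ‖a j‖ ≤ 1) {lam τ R : ℝ} (hR : 0 < R)
    (hfld : ‖fld a (c_W τ R)‖ ≤ lam) (w : ℂ) (hw : ‖w - c_W τ R‖ ≤ 2 * R) :
    ∏ j, ‖w - a j‖ ≤ Real.exp (4 * lam * R) * ∏ j, ‖c_W τ R - a j‖ := by
  set W := c_W τ R with hW
  have hWn : ‖W‖ = 1 + R := c_norm_W τ hR.le
  have hW0 : W ≠ 0 := by
    intro h0
    rw [h0, norm_zero] at hWn
    linarith
  have hne : ∀ j, W - a j ≠ 0 := fun j => norm_pos_iff.1 (c_pos τ hR (ha j))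
  have hlam : 0 ≤ lam := (norm_nonneg _).trans hfld
  -- termwise
  have h1 : ∀ j, ‖w - a j‖ ≤ ‖W - a j‖ *
      Real.exp (((w - W) / (W - a j)).re + ‖(w - W) / (W - a j)‖ ^ 2 / 2) := by
    intro j
    have e : w - a j = (W - a j) * (1 + (w - W) / (W - a j)) := by
      field_simp [hne j]
      ring
    rw [e, norm_mul]
    exact mul_le_mul_of_nonneg_left (c_norm_one_add _) (norm_nonneg _)
  have h2 : ∏ j, ‖w - a j‖ ≤ ∏ j, (‖W - a j‖ *
      Real.exp (((w - W) / (W - a j)).re + ‖(w - W) / (W - a j)‖ ^ 2 / 2)) :=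
    Finset.prod_le_prod (fun j _ => norm_nonneg _) (fun j _ => h1 j)
  rw [Finset.prod_mul_distrib, ← Real.exp_sum, Finset.sum_add_distrib] at h2
  have h3 : ∑ j, ((w - W) / (W - a j)).re ≤ ‖w - W‖ * lam := by
    have e : ∑ j, ((w - W) / (W - a j)) = (w - W) / W * fld a W := by
      unfold fld
      rw [Finset.mul_sum]
      refine Finset.sum_congr rfl (fun j _ => ?_)
      field_simp [hne j]
    rw [← Complex.re_sum, e]
    refine (Complex.re_le_norm _).trans ?_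
    rw [norm_mul, norm_div, hWn]
    have : ‖w - W‖ / (1 + R) ≤ ‖w - W‖ := div_le_self (norm_nonneg _) (by linarith)
    exact mul_le_mul this hfld (norm_nonneg _) (norm_nonneg _)
  have h4 : ∑ j, ‖(w - W) / (W - a j)‖ ^ 2 / 2 ≤ ‖w - W‖ ^ 2 * lam / (2 * R) := by
    have e1 : ∑ j, R / ‖W - a j‖ ^ 2 ≤ lam := by
      refine le_trans (Finset.sum_le_sum (fun j _ => c_re τ hR (ha j))) ?_
      rw [← Complex.re_sum]
      exact (Complex.re_le_norm _).trans hfld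
    have e2 : ∑ j, ‖(w - W) / (W - a j)‖ ^ 2 / 2 =
        ‖w - W‖ ^ 2 / (2 * R) * ∑ j, R / ‖W - a j‖ ^ 2 := by
      rw [Finset.mul_sum]
      refine Finset.sum_congr rfl (fun j _ => ?_)
      have := norm_pos_iff.2 (hne j)
      rw [norm_div, div_pow]
      field_simp
    rw [e2]
    have e3 : 0 ≤ ‖w - W‖ ^ 2 / (2 * R) := by positivity
    calc ‖w - W‖ ^ 2 / (2 * R) * ∑ j, R / ‖W - a j‖ ^ 2 ≤ ‖w - W‖ ^ 2 / (2 * R) * lam :=
          mul_le_mul_of_nonneg_left e1 e3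
      _ = _ := by ring
  have h5 : ∑ j, ((w - W) / (W - a j)).re + ∑ j, ‖(w - W) / (W - a j)‖ ^ 2 / 2 ≤
      4 * lam * R := by
    have e1 : ‖w - W‖ * lam ≤ 2 * R * lam := mul_le_mul_of_nonneg_right hw hlam
    have e2 : ‖w - W‖ ^ 2 * lam / (2 * R) ≤ 2 * R * lam := by
      rw [div_le_iff₀ (by linarith)]
      have : ‖w - W‖ ^ 2 ≤ (2 * R) ^ 2 := pow_le_pow_left₀ (norm_nonneg _) hw 2
      nlinarith [mul_le_mul_of_nonneg_right this hlam]
    linarith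
  refine h2.trans ?_
  rw [mul_comm]
  exact mul_le_mul_of_nonneg_right (Real.exp_le_exp.2 h5)
    (Finset.prod_nonneg (fun j _ => norm_nonneg _))

theorem tC : StC := by
  intro d a ha h hh hh1 lam A τ hlam hfld hne hA
  refine ⟨?_, ?_⟩
  · intro w hw
    set R := max ‖w - ex τ‖ h with hRdef
    have hRm : R ∈ Icc h 1 := ⟨le_max_right _ _, max_le hw hh1⟩
    have hR0 : 0 < R := lt_of_lt_of_le hh hRm.1
    have hdist : ‖w - c_W τ R‖ ≤ 2 * R := by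
      have e : w - c_W τ R = (w - ex τ) - (R : ℂ) * ex τ := by
        unfold c_W
        push_cast
        ring
      rw [e]
      refine (norm_sub_le _ _).trans ?_
      rw [norm_mul, c_norm_ex, mul_one, Complex.norm_real, Real.norm_of_nonneg hR0.le]
      have : ‖w - ex τ‖ ≤ R := le_max_left _ _
      linarith
    have h1 := c_mult a ha hR0 (hfld R hRm) w hdist
    have h2 := c_prod a ha hh hfld hne hA hRm
    refine h1.trans ((mul_le_mul_of_nonneg_left h2 (Real.exp_pos _).le).trans ?_)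
    rw [← mul_assoc, ← Real.exp_add]
    refine mul_le_mul_of_nonneg_right (Real.exp_le_exp.2 ?_)
      (Finset.prod_nonneg (fun j _ => norm_nonneg _))
    have hRle : R ≤ h + ‖w - ex τ‖ := by
      rw [hRdef]
      exact max_le (by linarith) (by linarith [norm_nonneg (w - ex τ)])
    nlinarith [mul_le_mul_of_nonneg_left hRle hlam, mul_nonneg hlam hh.le]
  · intro w
    have h1m : (1 : ℝ) ∈ Icc h 1 := ⟨hh1, le_refl _⟩
    have h2 := c_prod a ha hh hfld hne hA h1m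
    have h3 : ∀ j, ‖w - a j‖ ≤ (3 + ‖w‖) * ‖c_W τ 1 - a j‖ := by
      intro j
      have hd := c_dist τ (zero_le_one) (ha j)
      have e : w - a j = (w - c_W τ 1) + (c_W τ 1 - a j) := by ring
      have hn : ‖w - c_W τ 1‖ ≤ ‖w‖ + 2 := by
        refine (norm_sub_le _ _).trans ?_
        rw [c_norm_W τ zero_le_one]
        linarith
      rw [e]
      refine (norm_add_le _ _).trans ?_
      nlinarith [norm_nonneg w, norm_nonneg (w - c_W τ 1)]
    have h4 : ∏ j, ‖w - a j‖ ≤ ∏ j, ((3 + ‖w‖) * ‖c_W τ 1 - a j‖) :=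
      Finset.prod_le_prod (fun j _ => norm_nonneg _) (fun j _ => h3 j)
    rw [Finset.prod_mul_distrib, Finset.prod_const, Finset.card_univ, Fintype.card_fin] at h4
    have h5 : (0:ℝ) ≤ (3 + ‖w‖) ^ d := by positivity
    refine h4.trans ((mul_le_mul_of_nonneg_left h2 h5).trans ?_)
    rw [← mul_assoc, mul_comm ((3 + ‖w‖) ^ d)]
    refine mul_le_mul_of_nonneg_right ?_ (Finset.prod_nonneg (fun j _ => norm_nonneg _))
    refine mul_le_mul_of_nonneg_right (Real.exp_le_exp.2 ?_) h5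
    nlinarith [mul_nonneg hlam hh.le]

end

end Pool.Agent.H811R2.Quad
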