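import Pool.Agent.H811R2.T.Defs

open Set MeasureTheory Topology Filter

namespace Pool.Agent.H811R2.Quad

lemma d_key (b w : ℂ) : ‖1 - (starRingEnd ℂ) b * w‖ ^ 2 - ‖w - b‖ ^ 2
    = (1 - ‖b‖ ^ 2) * (1 - ‖w‖ ^ 2) := by
  simp only [← Complex.normSq_eq_norm_sq]
  simp [Complex.normSq_apply]
  ring

lemma d_key_le (b w : ℂ) (h : 0 ≤ (1 - ‖b‖ ^ 2) * (1 - ‖w‖ ^ 2)) :
    ‖w - b‖ ≤ ‖1 - (starRingEnd ℂ) b * w‖ := by
  have := d_key b w
  exact le_trans (le_abs_self _) (abs_le_of_sq_le_sq (by linarith) (norm_nonneg _))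

open Classical in
noncomputable def d_a (b : ℂ) : ℂ := if ‖b‖ ≤ 1 then b else ((starRingEnd ℂ) b)⁻¹

open Classical in
noncomputable def d_k (b : ℂ) : ℝ := if ‖b‖ ≤ 1 then 1 else ‖b‖

lemma d_a_le (b : ℂ) : ‖d_a b‖ ≤ 1 := by
  unfold d_a
  split_ifs with h
  · exact h
  · rw [norm_inv, RCLike.norm_conj]
    exact inv_le_one_of_one_le₀ (le_of_lt (not_le.mp h))

lemma d_k_pos (b : ℂ) : 0 < d_k b := by
  unfold d_k
  split_ifs with h
  · exact one_pos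
  · exact lt_trans one_pos (not_le.mp h)

lemma d_mul {b : ℂ} (hb : ¬ ‖b‖ ≤ 1) (w : ℂ) :
    ‖b‖ * ‖w - ((starRingEnd ℂ) b)⁻¹‖ = ‖1 - (starRingEnd ℂ) b * w‖ := by
  have hb0 : (starRingEnd ℂ) b ≠ 0 := by
    intro h
    rw [map_eq_zero] at h
    subst h
    simp at hb
  have h1 : ‖b‖ = ‖(starRingEnd ℂ) b‖ := (RCLike.norm_conj b).symm
  rw [h1, ← norm_mul, mul_sub, mul_inv_cancel₀ hb0, norm_sub_rev]

lemma d_i (b w : ℂ) (hw : 1 ≤ ‖w‖) : ‖w - b‖ ≤ d_k b * ‖w - d_a b‖ := by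
  unfold d_a d_k
  split_ifs with h
  · rw [one_mul]
  · rw [d_mul h]
    apply d_key_le
    have h1 : 1 ≤ ‖b‖ ^ 2 := one_le_pow₀ (le_of_lt (not_le.mp h))
    have h2 : 1 ≤ ‖w‖ ^ 2 := one_le_pow₀ hw
    nlinarith

lemma d_i' (b w : ℂ) (hw : ‖w‖ = 1) : ‖w - b‖ = d_k b * ‖w - d_a b‖ := by
  unfold d_a d_k
  split_ifs with h
  · rw [one_mul]
  · rw [d_mul h]
    have h1 := d_key b w
    rw [hw] at h1
    have h2 : ‖1 - (starRingEnd ℂ) b * w‖ ^ 2 = ‖w - b‖ ^ 2 := by linarith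
    exact ((sq_eq_sq₀ (norm_nonneg _) (norm_nonneg _)).mp h2).symm

lemma d_ii (b w : ℂ) (hw0 : w ≠ 0) (hw : ‖w‖ ≤ 1) :
    ‖w - b‖ ≤ d_k b * ‖((starRingEnd ℂ) w)⁻¹ - d_a b‖ := by
  have hwc : (starRingEnd ℂ) w ≠ 0 := by simpa using hw0
  have hwn : 0 < ‖w‖ := norm_pos_iff.mpr hw0
  have hwi : 1 ≤ ‖w‖⁻¹ := (one_le_inv₀ hwn).mpr hw
  unfold d_a d_k
  split_ifs with h
  · rw [one_mul]
    have h1 : ‖w - b‖ ≤ ‖1 - (starRingEnd ℂ) b * w‖ := by
      apply d_key_le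
      have h1 : ‖b‖ ^ 2 ≤ 1 := pow_le_one₀ (norm_nonneg _) h
      have h2 : ‖w‖ ^ 2 ≤ 1 := pow_le_one₀ (norm_nonneg _) hw
      nlinarith
    have h2 : ‖1 - (starRingEnd ℂ) b * w‖ = ‖w‖ * ‖((starRingEnd ℂ) w)⁻¹ - b‖ := by
      have h3 : ‖w‖ = ‖(starRingEnd ℂ) w‖ := (RCLike.norm_conj w).symm
      rw [h3, ← norm_mul, mul_sub, mul_inv_cancel₀ hwc]
      have h4 : (1 - (starRingEnd ℂ) w * b) = (starRingEnd ℂ) (1 - (starRingEnd ℂ) b * w) := by
        simp [mul_comm]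
      rw [h4, RCLike.norm_conj]
    rw [h2] at h1
    refine h1.trans ?_
    exact mul_le_of_le_one_left (norm_nonneg _) hw
  · have hb0 : b ≠ 0 := by
      intro h0
      subst h0
      simp at h
    have hbc : (starRingEnd ℂ) b ≠ 0 := by simpa using hb0
    have hbn : 0 < ‖b‖ := norm_pos_iff.mpr hb0
    have h2 : ((starRingEnd ℂ) w)⁻¹ - ((starRingEnd ℂ) b)⁻¹ =
        (starRingEnd ℂ) (b - w) * (((starRingEnd ℂ) w)⁻¹ * ((starRingEnd ℂ) b)⁻¹) := by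
      rw [map_sub]
      field_simp
    rw [h2, norm_mul, norm_mul, norm_inv, norm_inv, RCLike.norm_conj, RCLike.norm_conj,
      RCLike.norm_conj, norm_sub_rev b w]
    have h3 : ‖b‖ * (‖w - b‖ * (‖w‖⁻¹ * ‖b‖⁻¹)) = ‖w - b‖ * ‖w‖⁻¹ := by
      field_simp
    rw [h3]
    exact le_mul_of_one_le_right (norm_nonneg _) hwi

lemma d_poly (n : ℕ) (c : ℕ → ℂ) (h : ∃ w, Pc n c w ≠ 0) :
    ∃ (d : ℕ) (b : Fin d → ℂ) (l : ℂ), d ≤ n ∧ l ≠ 0 ∧
      ∀ w : ℂ, Pc n c w = l * ∏ j, (w - b j) := by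
  classical
  set P : Polynomial ℂ := ∑ j ∈ Finset.range (n + 1), Polynomial.C (c j) * Polynomial.X ^ j with hP
  have hev : ∀ w, P.eval w = Pc n c w := by
    intro w
    simp [hP, Pc, Polynomial.eval_finsetSum]
  have hP0 : P ≠ 0 := by
    intro h0
    obtain ⟨w, hw⟩ := h
    apply hw
    rw [← hev, h0]
    simp
  have hdeg : P.natDegree ≤ n := by
    rw [hP]
    apply Polynomial.natDegree_sum_le_of_forall_le
    intro j hj
    refine (Polynomial.natDegree_C_mul_X_pow_le _ _).trans ?_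
    simp at hj
    omega
  have hsp : P.Splits := IsAlgClosed.splits P
  refine ⟨P.roots.toList.length, fun i => P.roots.toList.get i, P.leadingCoeff, ?_, ?_, ?_⟩
  · rw [Multiset.length_toList]
    exact (Polynomial.card_roots' P).trans hdeg
  · simpa using hP0
  · intro w
    rw [← hev]
    have h1 := hsp.eval_eq_prod_roots w
    rw [h1]
    congr 1
    have h2 : (P.roots.map (fun x => w - x)).prod = (P.roots.toList.map (fun x => w - x)).prod := by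
      conv_lhs => rw [← Multiset.coe_toList P.roots]
      rw [Multiset.map_coe, Multiset.prod_coe]
    rw [h2]
    have := List.prod_ofFn (f := fun i : Fin P.roots.toList.length => w - P.roots.toList.get i)
    rw [← this]
    congr 1
    apply List.ext_get
    · simp
    · intro i h1 h2
      simp

theorem tD : StD := by
  intro n c h
  obtain ⟨d, b, l, hd, hl, hb⟩ := d_poly n c h
  refine ⟨d, fun j => d_a (b j), ‖l‖ * ∏ j, d_k (b j), hd, fun j => d_a_le _, ?_, ?_, ?_, ?_⟩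
  · exact mul_pos (norm_pos_iff.mpr hl) (Finset.prod_pos fun j _ => d_k_pos _)
  · intro w hw
    rw [hb, norm_mul, norm_prod, mul_assoc, ← Finset.prod_mul_distrib]
    exact mul_le_mul_of_nonneg_left
      (Finset.prod_le_prod (fun _ _ => norm_nonneg _) fun j _ => d_i _ _ hw) (norm_nonneg _)
  · intro w hw
    rw [hb, norm_mul, norm_prod, mul_assoc, ← Finset.prod_mul_distrib]
    congr 1
    exact Finset.prod_congr rfl fun j _ => d_i' _ _ hw
  · intro w hw0 hw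
    rw [hb, norm_mul, norm_prod, mul_assoc, ← Finset.prod_mul_distrib]
    exact mul_le_mul_of_nonneg_left
      (Finset.prod_le_prod (fun _ _ => norm_nonneg _) fun j _ => d_ii _ _ hw0 hw) (norm_nonneg _)

end Pool.Agent.H811R2.Quad
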