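import Pool.Agent.H811R2.QBern
import Pool.Agent.H811R2.QWindow

/-! Statements of the steps of the theorem: the mean number of closed orbits surrounding a focus
with a homogeneous perturbation of even degree is bounded independently of the degree. -/

open Set MeasureTheory Topology Filter
open scoped ENNReal

namespace Pool.Agent.H811R2.Quad

noncomputable section

/-- the unit vector -/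
def ex (τ : ℝ) : ℂ := Complex.exp (τ * Complex.I)

/-- the logarithmic derivative (times `W`) of `∏ (W - a j)` -/
def fld {d : ℕ} (a : Fin d → ℂ) (W : ℂ) : ℂ := ∑ j, W / (W - a j)

/-- the complexified trigonometric polynomial; `Gn n c θ = GC n c (θ : ℂ)` by `rfl` -/
def GC (n : ℕ) (c : ℕ → ℂ) (z : ℂ) : ℂ :=
  Complex.exp (-((n + 1 : ℕ) * z) * Complex.I) * Pc n c (Complex.exp (2 * z * Complex.I))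

lemma Gn_eq_GC (n : ℕ) (c : ℕ → ℂ) (θ : ℝ) : Gn n c θ = GC n c (θ : ℂ) := rfl

/-- the weighted length with a variable scale -/
def ellv (s : ℝ → ℝ) (v : ℝ → ℝ) : ℝ := ∫ θ in (0:ℝ)..(2 * Real.pi), X (s θ) (v θ) ^ 2

/-- Vitali covering estimate for a periodic density -/
def StA1 : Prop := ∀ w : ℝ → ℝ, Continuous w → (∀ x, 0 ≤ w x) →
  (∀ x, w (x + 2 * Real.pi) = w x) → ∀ t : ℝ, 0 < t → ∀ O : Set ℝ, O ⊆ Icc 0 (2 * Real.pi) →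
  (∀ τ ∈ O, ∃ l : ℝ, 0 < l ∧ l ≤ 2 * Real.pi ∧ 2 * l * t ≤ ∫ x in (τ - l)..(τ + l), w x) →
  volume O ≤ ENNReal.ofReal (15 / t * ∫ x in (0:ℝ)..(2 * Real.pi), w x)

/-- the Poisson kernel is controlled by averages over intervals -/
def StA2 : Prop := ∀ w : ℝ → ℝ, Continuous w → (∀ x, 0 ≤ w x) →
  (∀ x, w (x + 2 * Real.pi) = w x) → ∀ r ρ τ t : ℝ, 1 / 3 ≤ ρ → ρ < r → r ≤ 1 → 0 ≤ t →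
  (∀ l : ℝ, 0 < l → l ≤ 2 * Real.pi → ∫ x in (τ - l)..(τ + l), w x ≤ 2 * l * t) →
  (1 / (2 * Real.pi)) * ∫ φ in (0:ℝ)..(2 * Real.pi),
    (r ^ 2 - ρ ^ 2) / ‖(r:ℂ) * ex φ - (ρ:ℂ) * ex τ‖ ^ 2 * w φ ≤ 120 * t

/-- maximal estimate for the field of points of the closed unit disc -/
def StA3 : Prop := ∀ (d : ℕ) (a : Fin d → ℂ), (∀ j, ‖a j‖ ≤ 1) → ∀ h : ℝ, 0 < h → h ≤ 1 →
  ∀ lam : ℝ, 0 < lam →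
  volume {τ : ℝ | τ ∈ Icc 0 (2 * Real.pi) ∧
    ∃ R ∈ Icc h 1, lam < ‖fld a (((1 + R : ℝ) : ℂ) * ex τ)‖} ≤
  ENNReal.ofReal (20000 * Real.sqrt ((1 + d) / lam))

/-- Jensen and Markov -/
def StB : Prop := ∀ (d : ℕ) (a : Fin d → ℂ), (∀ j, ‖a j‖ ≤ 1) → ∀ h : ℝ, 0 < h →
  ∀ A : ℝ, 0 < A →
  volume {τ : ℝ | τ ∈ Icc 0 (2 * Real.pi) ∧ ((∃ j, ex τ = a j) ∨
    A < ∑ j, (Real.log ‖((1 + h : ℝ) : ℂ) * ex τ - a j‖ - Real.log ‖ex τ - a j‖))} ≤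
  ENNReal.ofReal (2 * Real.pi * d * h / A)

/-- growth of the product at a good point of the circle -/
def StC : Prop := ∀ (d : ℕ) (a : Fin d → ℂ), (∀ j, ‖a j‖ ≤ 1) → ∀ h : ℝ, 0 < h → h ≤ 1 →
  ∀ lam A τ : ℝ, 0 ≤ lam → (∀ R ∈ Icc h 1, ‖fld a (((1 + R : ℝ) : ℂ) * ex τ)‖ ≤ lam) →
  (∀ j, ex τ ≠ a j) →
  ∑ j, (Real.log ‖((1 + h : ℝ) : ℂ) * ex τ - a j‖ - Real.log ‖ex τ - a j‖) ≤ A →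
  (∀ w : ℂ, ‖w - ex τ‖ ≤ 1 →
    ∏ j, ‖w - a j‖ ≤ Real.exp (A + 5 * lam * (h + ‖w - ex τ‖)) * ∏ j, ‖ex τ - a j‖) ∧
  (∀ w : ℂ, ∏ j, ‖w - a j‖ ≤ Real.exp (A + lam) * (3 + ‖w‖) ^ d * ∏ j, ‖ex τ - a j‖)

/-- reflection of the zeros into the closed unit disc -/
def StD : Prop := ∀ (n : ℕ) (c : ℕ → ℂ), (∃ w, Pc n c w ≠ 0) →
  ∃ (d : ℕ) (a : Fin d → ℂ) (κ : ℝ), d ≤ n ∧ (∀ j, ‖a j‖ ≤ 1) ∧ 0 < κ ∧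
    (∀ w : ℂ, 1 ≤ ‖w‖ → ‖Pc n c w‖ ≤ κ * ∏ j, ‖w - a j‖) ∧
    (∀ w : ℂ, ‖w‖ = 1 → ‖Pc n c w‖ = κ * ∏ j, ‖w - a j‖) ∧
    (∀ w : ℂ, w ≠ 0 → ‖w‖ ≤ 1 → ‖Pc n c w‖ ≤ κ * ∏ j, ‖((starRingEnd ℂ) w)⁻¹ - a j‖)

/-- typical points of a trigonometric polynomial -/
def StE : Prop := ∃ B : ℝ, 1 ≤ B ∧ ∀ (n : ℕ) (c : ℕ → ℂ), 1 ≤ n → (∃ w, Pc n c w ≠ 0) →
  ∃ E : Set ℝ, MeasurableSet E ∧ E ⊆ Icc 0 Real.pi ∧ ENNReal.ofReal 1 ≤ volume E ∧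
    ∀ θ ∈ E, ∀ z : ℂ, ‖GC n c z‖ ≤ Real.exp (B + B * n * ‖z - θ‖) * ‖GC n c θ‖

/-- the envelope -/
def StF : Prop := ∀ (g : ℂ → ℂ) (b0 b K : ℝ), Differentiable ℂ g → 0 < b0 → b0 ≤ b →
  (∀ z, ‖g z‖ ≤ K * Real.exp (b0 * |z.im|)) → (∀ z, ‖g (z + Real.pi)‖ = ‖g z‖) →
  (∃ z, g z ≠ 0) →
  ∃ s s' : ℝ → ℝ, Continuous s' ∧ (∀ θ, HasDerivAt s (s' θ) θ) ∧ (∀ θ, 0 < s θ) ∧
    (∀ θ, s (θ + Real.pi) = s θ) ∧ (∀ θ, |s' θ| ≤ 8 * b * s θ) ∧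
    (∀ θ : ℝ, ‖g θ‖ ≤ 3 * s θ) ∧ (∀ θ : ℝ, ‖deriv g θ‖ ≤ 8 * b * s θ) ∧
    ∀ θ0 S : ℝ, (∀ z : ℂ, ‖g z‖ ≤ S * Real.exp (b * ‖z - θ0‖)) →
      ∀ θ : ℝ, |θ - θ0| ≤ 1 / b → s θ ≤ 8 * S ∧ ‖deriv g θ‖ ≤ 8 * b * S

/-- lower bound for the weighted length over a window on which `G₁` or `G₂` is large -/
def StG : Prop := ∀ (m μ : ℝ) (G1 G2 v s : ℝ → ℝ), 0 < m → 0 < μ →
  (∀ θ, G1 (θ + Real.pi) = -G1 θ) → (∀ θ, G2 (θ + Real.pi) = -G2 θ) →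
  PSol (fun θ => m * G1 θ) G2 (m * μ) v → Continuous s → (∀ θ, 0 < s θ) →
  (∀ θ, s (θ + Real.pi) = s θ) → ∀ θ0 η γ S : ℝ, 0 < η → m * η ≤ 1 → 0 < γ → 1 ≤ S →
  (∀ θ ∈ Icc (θ0 - η) (θ0 + η), s θ ≤ S * γ) →
  ((∀ θ ∈ Icc (θ0 - η) (θ0 + η), 9 / 20 * γ ≤ G1 θ) ∨
    (∀ θ ∈ Icc (θ0 - η) (θ0 + η), G1 θ ≤ -(9 / 20 * γ)) ∨
    (∀ θ ∈ Icc (θ0 - η) (θ0 + η), 9 / 20 * γ ≤ |G2 θ|)) →
  η * (m * η) ^ 2 / (400 * S ^ 2 * (1 + μ ^ 2)) ≤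
    ∫ θ in (θ0 - η)..(θ0 + η), (X (s θ) (v θ) ^ 2 + X (s θ) (v (θ + Real.pi)) ^ 2)

/-- averaging over the centres of the windows -/
def StH : Prop := ∀ f : ℝ → ℝ, Continuous f → (∀ x, 0 ≤ f x) → (∀ x, f (x + Real.pi) = f x) →
  ∀ E : Set ℝ, MeasurableSet E → E ⊆ Icc 0 Real.pi → ∀ η β : ℝ, 0 < η → 0 ≤ β →
  (∀ θ ∈ E, β ≤ ∫ x in (θ - η)..(θ + η), f x) →
  β * (volume E).toReal ≤ 2 * η * ∫ x in (0:ℝ)..Real.pi, f x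

/-- averaged count with a variable scale -/
def StI : Prop := ∀ k : ℝ, 0 ≤ k → ∃ C : ℝ, 0 ≤ C ∧ ∀ (m : ℝ) (G1 G2 G2' s s' : ℝ → ℝ), 0 < m →
  Continuous G1 → (∀ θ, HasDerivAt G2 (G2' θ) θ) → Continuous G2' →
  (∀ θ, G2 (θ + 2 * Real.pi) = G2 θ) → (∀ θ, HasDerivAt s (s' θ) θ) → Continuous s' →
  (∀ θ, 0 < s θ) → (∀ θ, s (θ + 2 * Real.pi) = s θ) → (∀ θ, |G1 θ| ≤ k * s θ) →
  (∀ θ, |G2 θ| ≤ k * s θ) → (∀ θ, |G2' θ| ≤ m * k * s θ) → (∀ θ, |s' θ| ≤ m * k * s θ) →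
  ∀ c : ℝ, 0 < c →
  (∀ μ v, 0 < μ → PSol (fun θ => m * G1 θ) G2 (m * μ) v → c / (1 + μ ^ 2) ≤ ellv s v) →
  ∀ M : ℝ, 1 ≤ M → ∃ g : ℝ → ℝ≥0∞, Measurable g ∧
    (∀ μ : ℝ, 0 < μ → μ ≤ M →
      ((({v : ℝ → ℝ | PSol (fun θ => m * G1 θ) G2 (m * μ) v} :
        Set (ℝ → ℝ)).encard : ℕ∞) : ℝ≥0∞) ≤ g μ) ∧
    ∫⁻ t, g t ≤ ENNReal.ofReal (C * M / c)

end

end Pool.Agent.H811R2.Quad
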