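import Pool.Agent.H811R2.T.Defs

/-! Task E: typical points of a trigonometric polynomial. -/

open Set MeasureTheory Topology Filter
open scoped ENNReal

namespace Pool.Agent.H811R2.Quad

noncomputable section

lemma e_norm_exp (z : ℂ) : ‖Complex.exp (2 * z * Complex.I)‖ = Real.exp (-2 * z.im) := by
  rw [Complex.norm_exp]
  congr 1
  simp

lemma e_im_le (z : ℂ) (θ : ℝ) : |z.im| ≤ ‖z - θ‖ := by
  have := Complex.abs_im_le_norm (z - θ)
  simpa using this

lemma e_reflect (n : ℕ) (c : ℕ → ℂ) {d : ℕ} (a : Fin d → ℂ) (κ : ℝ)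
    (h1 : ∀ w : ℂ, 1 ≤ ‖w‖ → ‖Pc n c w‖ ≤ κ * ∏ j, ‖w - a j‖)
    (h3 : ∀ w : ℂ, w ≠ 0 → ‖w‖ ≤ 1 → ‖Pc n c w‖ ≤ κ * ∏ j, ‖((starRingEnd ℂ) w)⁻¹ - a j‖)
    (z : ℂ) (θ : ℝ) : ∃ z' : ℂ, ‖z' - θ‖ = ‖z - θ‖ ∧
      ‖Pc n c (Complex.exp (2 * z * Complex.I))‖ ≤
        κ * ∏ j, ‖Complex.exp (2 * z' * Complex.I) - a j‖ := by
  rcases le_total z.im 0 with h | h
  · refine ⟨z, rfl, h1 _ ?_⟩
    rw [e_norm_exp]
    exact Real.one_le_exp (by linarith)
  · refine ⟨(starRingEnd ℂ) z, ?_, ?_⟩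
    · have : (starRingEnd ℂ) z - θ = (starRingEnd ℂ) (z - θ) := by
        rw [map_sub, Complex.conj_ofReal]
      rw [this, RCLike.norm_conj]
    · have := h3 (Complex.exp (2 * z * Complex.I)) (Complex.exp_ne_zero _) (by
        rw [e_norm_exp]
        exact Real.exp_le_one_iff.2 (by linarith))
      have e : ((starRingEnd ℂ) (Complex.exp (2 * z * Complex.I)))⁻¹ =
          Complex.exp (2 * (starRingEnd ℂ) z * Complex.I) := by
        rw [← Complex.exp_conj, ← Complex.exp_neg]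
        congr 1
        rw [map_mul, map_mul, Complex.conj_I, Complex.conj_ofNat]
        ring
      rwa [e] at this

lemma e_four_le (q : ℝ) (hq : 1 / 4 < q) : (4 : ℝ) ≤ Real.exp (6 * q) := by
  have h1 : Real.log 4 ≤ 3 / 2 := by
    have : (4 : ℝ) = 2 ^ 2 := by norm_num
    rw [this, Real.log_pow]
    have := Real.log_two_lt_d9
    push_cast
    linarith
  calc (4 : ℝ) = Real.exp (Real.log 4) := (Real.exp_log (by norm_num)).symm
    _ ≤ Real.exp (6 * q) := Real.exp_le_exp.2 (by linarith)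

lemma e_point (n : ℕ) (c : ℕ → ℂ) (hn : 1 ≤ n) {d : ℕ} (hd : d ≤ n) (a : Fin d → ℂ) (κ : ℝ)
    (hκ : 0 < κ)
    (h1 : ∀ w : ℂ, 1 ≤ ‖w‖ → ‖Pc n c w‖ ≤ κ * ∏ j, ‖w - a j‖)
    (h2 : ∀ w : ℂ, ‖w‖ = 1 → ‖Pc n c w‖ = κ * ∏ j, ‖w - a j‖)
    (h3 : ∀ w : ℂ, w ≠ 0 → ‖w‖ ≤ 1 → ‖Pc n c w‖ ≤ κ * ∏ j, ‖((starRingEnd ℂ) w)⁻¹ - a j‖)
    (Lam : ℝ) (hL : 1 ≤ Lam) (θ : ℝ)
    (hC1 : ∀ w : ℂ, ‖w - ex (2 * θ)‖ ≤ 1 →
      ∏ j, ‖w - a j‖ ≤ Real.exp (10 + 5 * (Lam * n) * (1 / n + ‖w - ex (2 * θ)‖)) *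
        ∏ j, ‖ex (2 * θ) - a j‖)
    (hC2 : ∀ w : ℂ, ∏ j, ‖w - a j‖ ≤ Real.exp (10 + Lam * n) * (3 + ‖w‖) ^ d *
      ∏ j, ‖ex (2 * θ) - a j‖) (z : ℂ) :
    ‖GC n c z‖ ≤ Real.exp ((10 + 100 * Lam) + (10 + 100 * Lam) * n * ‖z - θ‖) * ‖GC n c θ‖ := by
  have hn0 : (0 : ℝ) < n := by exact_mod_cast hn
  have hn1 : (1 : ℝ) ≤ n := by exact_mod_cast hn
  have hexp : ex (2 * θ) = Complex.exp (2 * (θ : ℂ) * Complex.I) := by
    unfold ex; push_cast; rfl
  have hexn : ‖ex (2 * θ)‖ = 1 := by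
    rw [hexp, e_norm_exp]; simp
  have hG0 : ‖GC n c θ‖ = κ * ∏ j, ‖ex (2 * θ) - a j‖ := by
    rw [GC, norm_mul, ← hexp, ← h2 _ hexn]
    have : ‖Complex.exp (-((n + 1 : ℕ) * (θ : ℂ)) * Complex.I)‖ = 1 := by
      rw [Complex.norm_exp]
      simp
    rw [this, one_mul]
  obtain ⟨z', hz', hP⟩ := e_reflect n c a κ h1 h3 z θ
  set q := ‖z - θ‖ with hq
  have hq0 : 0 ≤ q := norm_nonneg _
  have hpre : ‖Complex.exp (-((n + 1 : ℕ) * z) * Complex.I)‖ ≤ Real.exp (2 * n * q) := by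
    rw [Complex.norm_exp]
    apply Real.exp_le_exp.2
    have e : (-((n + 1 : ℕ) * z) * Complex.I).re = (n + 1) * z.im := by
      simp
    rw [e]
    have h5 : z.im ≤ q := (le_abs_self _).trans (e_im_le z θ)
    calc ((n : ℝ) + 1) * z.im ≤ (n + 1) * q := mul_le_mul_of_nonneg_left h5 (by linarith)
      _ ≤ 2 * n * q := by nlinarith
  have hprod0 : 0 ≤ ∏ j, ‖ex (2 * θ) - a j‖ := Finset.prod_nonneg fun _ _ => norm_nonneg _
  have key : ∏ j, ‖Complex.exp (2 * z' * Complex.I) - a j‖ ≤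
      Real.exp (10 + 5 * Lam + 28 * Lam * (n * q)) * ∏ j, ‖ex (2 * θ) - a j‖ := by
    rcases le_or_gt q (1 / 4) with h4 | h4
    · have hdist : ‖Complex.exp (2 * z' * Complex.I) - ex (2 * θ)‖ ≤ 4 * q := by
        have e1 : Complex.exp (2 * z' * Complex.I) - ex (2 * θ) =
            ex (2 * θ) * (Complex.exp (2 * (z' - θ) * Complex.I) - 1) := by
          rw [hexp, mul_sub, ← Complex.exp_add, mul_one]
          congr 2
          ring
        have e2 : ‖2 * (z' - θ) * Complex.I‖ = 2 * q := by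
          rw [norm_mul, norm_mul, Complex.norm_I, hz']
          simp
        rw [e1, norm_mul, hexn, one_mul]
        have e3 := Complex.norm_exp_sub_one_le (x := 2 * (z' - θ) * Complex.I)
          (by rw [e2]; linarith)
        rw [e2] at e3
        linarith
      refine (hC1 _ (hdist.trans (by linarith))).trans ?_
      apply mul_le_mul_of_nonneg_right _ hprod0
      apply Real.exp_le_exp.2
      have e4 : 5 * (Lam * n) * (1 / n + ‖Complex.exp (2 * z' * Complex.I) - ex (2 * θ)‖)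
          ≤ 5 * (Lam * n) * (1 / n + 4 * q) := by
        apply mul_le_mul_of_nonneg_left _ (by positivity)
        linarith
      have e5 : 5 * (Lam * n) * (1 / n + 4 * q) = 5 * Lam + 20 * Lam * (n * q) := by
        field_simp
        ring
      rw [e5] at e4
      have e6 : 0 ≤ Lam * (n * q) := by positivity
      linarith
    · refine (hC2 _).trans ?_
      apply mul_le_mul_of_nonneg_right _ hprod0
      have hw : ‖Complex.exp (2 * z' * Complex.I)‖ ≤ Real.exp (2 * q) := by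
        rw [e_norm_exp]
        apply Real.exp_le_exp.2
        have := e_im_le z' θ
        rw [hz'] at this
        have := (abs_le.1 this).1
        linarith
      have hexp1 : (1 : ℝ) ≤ Real.exp (2 * q) := Real.one_le_exp (by linarith)
      have h7 : (3 + ‖Complex.exp (2 * z' * Complex.I)‖) ≤ Real.exp (8 * q) := by
        calc (3 + ‖Complex.exp (2 * z' * Complex.I)‖) ≤ 4 * Real.exp (2 * q) := by linarith
          _ ≤ Real.exp (6 * q) * Real.exp (2 * q) :=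
              mul_le_mul_of_nonneg_right (e_four_le q h4) (Real.exp_pos _).le
          _ = Real.exp (8 * q) := by rw [← Real.exp_add]; congr 1; ring
      have h8 : (3 + ‖Complex.exp (2 * z' * Complex.I)‖) ^ d ≤ Real.exp (8 * (n * q)) := by
        calc (3 + ‖Complex.exp (2 * z' * Complex.I)‖) ^ d
            ≤ (3 + ‖Complex.exp (2 * z' * Complex.I)‖) ^ n :=
              pow_le_pow_right₀ (by linarith [norm_nonneg (Complex.exp (2 * z' * Complex.I))]) hd
          _ ≤ (Real.exp (8 * q)) ^ n := pow_le_pow_left₀ (by positivity) h7 _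
          _ = Real.exp (8 * (n * q)) := by rw [← Real.exp_nat_mul]; congr 1; ring
      calc Real.exp (10 + Lam * n) * (3 + ‖Complex.exp (2 * z' * Complex.I)‖) ^ d
          ≤ Real.exp (10 + Lam * n) * Real.exp (8 * (n * q)) :=
            mul_le_mul_of_nonneg_left h8 (Real.exp_pos _).le
        _ = Real.exp (10 + Lam * n + 8 * (n * q)) := by rw [← Real.exp_add]
        _ ≤ Real.exp (10 + 5 * Lam + 28 * Lam * (n * q)) := by
            apply Real.exp_le_exp.2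
            have h9 : Lam * n ≤ 4 * Lam * (n * q) := by
              have : Lam * n * 1 ≤ Lam * n * (4 * q) :=
                mul_le_mul_of_nonneg_left (by linarith) (by positivity)
              linarith
            have h10 : (n * q) * 1 ≤ (n * q) * Lam :=
              mul_le_mul_of_nonneg_left hL (by positivity)
            have h11 : 0 ≤ Lam * (n * q) := by positivity
            nlinarith
  have hP' : ‖Pc n c (Complex.exp (2 * z * Complex.I))‖ ≤
      Real.exp (10 + 5 * Lam + 28 * Lam * (n * q)) * ‖GC n c θ‖ := by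
    rw [hG0]
    calc _ ≤ κ * ∏ j, ‖Complex.exp (2 * z' * Complex.I) - a j‖ := hP
      _ ≤ κ * (Real.exp (10 + 5 * Lam + 28 * Lam * (n * q)) * ∏ j, ‖ex (2 * θ) - a j‖) :=
        mul_le_mul_of_nonneg_left key hκ.le
      _ = _ := by ring
  calc ‖GC n c z‖ = ‖Complex.exp (-((n + 1 : ℕ) * z) * Complex.I)‖ *
        ‖Pc n c (Complex.exp (2 * z * Complex.I))‖ := by rw [GC, norm_mul]
    _ ≤ Real.exp (2 * n * q) * (Real.exp (10 + 5 * Lam + 28 * Lam * (n * q)) * ‖GC n c θ‖) :=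
        mul_le_mul hpre hP' (norm_nonneg _) (Real.exp_pos _).le
    _ = Real.exp (2 * n * q + (10 + 5 * Lam + 28 * Lam * (n * q))) * ‖GC n c θ‖ := by
        rw [← mul_assoc, ← Real.exp_add]
    _ ≤ _ := by
        apply mul_le_mul_of_nonneg_right _ (norm_nonneg _)
        apply Real.exp_le_exp.2
        have h10 : (n * q) * 1 ≤ (n * q) * Lam :=
          mul_le_mul_of_nonneg_left hL (by positivity)
        have h11 : 0 ≤ (n : ℝ) * q := by positivity
        nlinarith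

theorem tE' : StA3 → StB → StC → StD → StE := by
  intro hA3 hB hC hD
  refine ⟨10 + 100 * 12800000000, by norm_num, ?_⟩
  intro n c hn hne
  obtain ⟨d, a, κ, hd, ha, hκ, h1, h2, h3⟩ := hD n c hne
  have hn0 : (0 : ℝ) < n := by exact_mod_cast hn
  have hn1 : (1 : ℝ) ≤ n := by exact_mod_cast hn
  have hdn : (d : ℝ) ≤ n := by exact_mod_cast hd
  have hh0 : (0 : ℝ) < 1 / n := by positivity
  have hh1 : (1 / n : ℝ) ≤ 1 := by
    rw [div_le_one hn0]; exact hn1
  have hlam : (0 : ℝ) < 12800000000 * n := by positivity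
  have v1 := hA3 d a ha (1 / n) hh0 hh1 (12800000000 * n) hlam
  have v2 := hB d a ha (1 / n) hh0 10 (by norm_num)
  set Bad1 := {τ : ℝ | τ ∈ Icc 0 (2 * Real.pi) ∧
    ∃ R ∈ Icc (1 / n : ℝ) 1, 12800000000 * (n : ℝ) < ‖fld a (((1 + R : ℝ) : ℂ) * ex τ)‖}
    with hBad1
  set Bad2 := {τ : ℝ | τ ∈ Icc 0 (2 * Real.pi) ∧ ((∃ j, ex τ = a j) ∨
    10 < ∑ j, (Real.log ‖((1 + 1 / (n : ℝ) : ℝ) : ℂ) * ex τ - a j‖ - Real.log ‖ex τ - a j‖))}
    with hBad2
  have b1 : 20000 * Real.sqrt ((1 + d) / (12800000000 * n)) ≤ 1 / 4 := by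
    have h5 : (1 + (d : ℝ)) / (12800000000 * n) ≤ (1 / 80000) ^ 2 := by
      rw [div_le_iff₀ hlam]
      nlinarith
    have h6 : Real.sqrt ((1 + d) / (12800000000 * n)) ≤ 1 / 80000 := by
      rw [Real.sqrt_le_left (by norm_num)]
      exact h5
    linarith
  have b2 : 2 * Real.pi * d * (1 / n) / 10 ≤ 13 / 20 := by
    have hpi := Real.pi_lt_d2
    have hdn' : (d : ℝ) * (1 / n) ≤ 1 := by
      rw [mul_one_div, div_le_one hn0]; exact hdn
    have h7 : 2 * Real.pi * d * (1 / n) / 10 = (Real.pi / 5) * (d * (1 / n)) := by ring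
    rw [h7]
    have h8 : (Real.pi / 5) * (d * (1 / n)) ≤ (Real.pi / 5) * 1 :=
      mul_le_mul_of_nonneg_left hdn' (by positivity)
    linarith
  have v3 : volume (Bad1 ∪ Bad2) ≤ ENNReal.ofReal (9 / 10) := by
    calc volume (Bad1 ∪ Bad2) ≤ volume Bad1 + volume Bad2 := measure_union_le _ _
      _ ≤ ENNReal.ofReal (1 / 4) + ENNReal.ofReal (13 / 20) :=
        add_le_add (v1.trans (ENNReal.ofReal_le_ofReal b1)) (v2.trans (ENNReal.ofReal_le_ofReal b2))
      _ = ENNReal.ofReal (9 / 10) := by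
        rw [← ENNReal.ofReal_add (by norm_num) (by norm_num)]
        norm_num
  set O := toMeasurable volume (Bad1 ∪ Bad2) with hO
  have hOm : MeasurableSet O := measurableSet_toMeasurable _ _
  have hOsub : Bad1 ∪ Bad2 ⊆ O := subset_toMeasurable _ _
  have hOv : volume O ≤ ENNReal.ofReal (9 / 10) := by
    rw [hO, measure_toMeasurable]; exact v3
  have hpre : volume ((fun θ : ℝ => 2 * θ) ⁻¹' O) ≤ ENNReal.ofReal (9 / 20) := by
    rw [Real.volume_preimage_mul_left (by norm_num : (2 : ℝ) ≠ 0)]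
    calc ENNReal.ofReal |(2 : ℝ)⁻¹| * volume O ≤ ENNReal.ofReal (1 / 2) * ENNReal.ofReal (9 / 10) := by
          gcongr
          norm_num
      _ = ENNReal.ofReal (9 / 20) := by
        rw [← ENNReal.ofReal_mul (by norm_num)]
        norm_num
  refine ⟨Icc 0 Real.pi \ ((fun θ : ℝ => 2 * θ) ⁻¹' O), ?_, sdiff_subset, ?_, ?_⟩
  · exact measurableSet_Icc.diff (hOm.preimage (measurable_const.mul measurable_id))
  · calc ENNReal.ofReal 1 ≤ ENNReal.ofReal (Real.pi - 9 / 20) :=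
          ENNReal.ofReal_le_ofReal (by linarith [Real.pi_gt_three])
      _ = ENNReal.ofReal Real.pi - ENNReal.ofReal (9 / 20) :=
          ENNReal.ofReal_sub _ (by norm_num)
      _ ≤ volume (Icc 0 Real.pi) - volume ((fun θ : ℝ => 2 * θ) ⁻¹' O) := by
          apply tsub_le_tsub _ hpre
          rw [Real.volume_Icc, sub_zero]
      _ ≤ _ := le_measure_sdiff
  · intro θ hθ z
    obtain ⟨⟨hθ0, hθ1⟩, hθ2⟩ := hθ
    have hτ : 2 * θ ∉ Bad1 ∪ Bad2 := fun h => hθ2 (hOsub h)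
    have hτI : 2 * θ ∈ Icc 0 (2 * Real.pi) := ⟨by linarith, by linarith⟩
    have hτ1 : 2 * θ ∉ Bad1 := fun h => hτ (Or.inl h)
    have hτ2 : 2 * θ ∉ Bad2 := fun h => hτ (Or.inr h)
    have g1 : ∀ R ∈ Icc (1 / n : ℝ) 1, ‖fld a (((1 + R : ℝ) : ℂ) * ex (2 * θ))‖ ≤
        12800000000 * (n : ℝ) := by
      intro R hR
      by_contra hcon
      exact hτ1 ⟨hτI, R, hR, not_le.1 hcon⟩
    have g2 : ∀ j, ex (2 * θ) ≠ a j := by
      intro j hj
      exact hτ2 ⟨hτI, Or.inl ⟨j, hj⟩⟩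
    have g3 : ∑ j, (Real.log ‖((1 + 1 / (n : ℝ) : ℝ) : ℂ) * ex (2 * θ) - a j‖ -
        Real.log ‖ex (2 * θ) - a j‖) ≤ 10 := by
      by_contra hcon
      exact hτ2 ⟨hτI, Or.inr (not_le.1 hcon)⟩
    obtain ⟨c1, c2⟩ := hC d a ha (1 / n) hh0 hh1 (12800000000 * n) 10 (2 * θ) hlam.le g1 g2 g3
    exact e_point n c hn hd a κ hκ h1 h2 h3 12800000000 (by norm_num) θ c1 c2 z

end

end Pool.Agent.H811R2.Quad
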