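import Pool.Agent.H811R2.T.Defs

/-! Task F (helper153): the envelope. -/

open Set MeasureTheory Topology Filter
open scoped ENNReal

namespace Pool.Agent.H811R2.Quad

noncomputable section

/-- the two-sided exponential envelope -/
def f_s1 (g : ℂ → ℂ) (b : ℝ) (θ : ℝ) : ℝ := ⨆ z : ℂ, ‖g z‖ * Real.exp (-(b * ‖z - θ‖))

section

variable {g : ℂ → ℂ} {b0 b K : ℝ}

lemma f_K (hK : ∀ z, ‖g z‖ ≤ K * Real.exp (b0 * |z.im|)) : 0 ≤ K := by
  have h := hK 0
  simp only [Complex.zero_im, abs_zero, mul_zero, Real.exp_zero, mul_one] at h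
  exact (norm_nonneg _).trans h

lemma f_bdd (hb0 : 0 < b0) (hb : b0 ≤ b) (hK : ∀ z, ‖g z‖ ≤ K * Real.exp (b0 * |z.im|)) (θ : ℝ) :
    BddAbove (range fun z : ℂ => ‖g z‖ * Real.exp (-(b * ‖z - θ‖))) := by
  refine ⟨K, ?_⟩
  rintro _ ⟨z, rfl⟩
  have h1 : |z.im| ≤ ‖z - θ‖ := by
    have := Complex.abs_im_le_norm (z - θ)
    simpa using this
  have h2 : b0 * |z.im| ≤ b * ‖z - θ‖ :=
    mul_le_mul hb h1 (abs_nonneg _) (by linarith)
  calc ‖g z‖ * Real.exp (-(b * ‖z - θ‖))
      ≤ (K * Real.exp (b0 * |z.im|)) * Real.exp (-(b * ‖z - θ‖)) :=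
        mul_le_mul_of_nonneg_right (hK z) (Real.exp_pos _).le
    _ = K * Real.exp (b0 * |z.im| - b * ‖z - θ‖) := by
        rw [mul_assoc, ← Real.exp_add, ← sub_eq_add_neg]
    _ ≤ K * 1 := by
        apply mul_le_mul_of_nonneg_left _ (f_K hK)
        rw [Real.exp_le_one_iff]; linarith
    _ = K := mul_one K

lemma f_le (hb0 : 0 < b0) (hb : b0 ≤ b) (hK : ∀ z, ‖g z‖ ≤ K * Real.exp (b0 * |z.im|)) (θ : ℝ)
    (z : ℂ) : ‖g z‖ ≤ Real.exp (b * ‖z - θ‖) * f_s1 g b θ := by
  have h := le_ciSup (f_bdd hb0 hb hK θ) z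
  have h1 : ‖g z‖ = Real.exp (b * ‖z - θ‖) * (‖g z‖ * Real.exp (-(b * ‖z - θ‖))) := by
    rw [mul_left_comm, ← Real.exp_add, add_neg_cancel, Real.exp_zero, mul_one]
  rw [h1]
  exact mul_le_mul_of_nonneg_left h (Real.exp_pos _).le

lemma f_s1_le {θ T : ℝ} (h : ∀ z : ℂ, ‖g z‖ ≤ T * Real.exp (b * ‖z - θ‖)) : f_s1 g b θ ≤ T := by
  apply ciSup_le
  intro z
  calc ‖g z‖ * Real.exp (-(b * ‖z - θ‖))
      ≤ (T * Real.exp (b * ‖z - θ‖)) * Real.exp (-(b * ‖z - θ‖)) :=
        mul_le_mul_of_nonneg_right (h z) (Real.exp_pos _).le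
    _ = T := by rw [mul_assoc, ← Real.exp_add, add_neg_cancel, Real.exp_zero, mul_one]

lemma f_s1_pos (hb0 : 0 < b0) (hb : b0 ≤ b) (hK : ∀ z, ‖g z‖ ≤ K * Real.exp (b0 * |z.im|))
    (hne : ∃ z, g z ≠ 0) (θ : ℝ) : 0 < f_s1 g b θ := by
  obtain ⟨z, hz⟩ := hne
  have h := f_le hb0 hb hK θ z
  have h1 : 0 < ‖g z‖ := norm_pos_iff.2 hz
  by_contra hcon
  push Not at hcon
  have h2 : Real.exp (b * ‖z - θ‖) * f_s1 g b θ ≤ 0 :=
    mul_nonpos_of_nonneg_of_nonpos (Real.exp_pos _).le hcon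
  linarith

lemma f_s1_lip (hb0 : 0 < b0) (hb : b0 ≤ b) (hK : ∀ z, ‖g z‖ ≤ K * Real.exp (b0 * |z.im|))
    (hne : ∃ z, g z ≠ 0) (θ θ' : ℝ) : f_s1 g b θ' ≤ Real.exp (b * |θ - θ'|) * f_s1 g b θ := by
  apply f_s1_le
  intro z
  have h := f_le hb0 hb hK θ z
  have hp := f_s1_pos hb0 hb hK hne θ
  have h1 : ‖z - θ‖ ≤ ‖z - θ'‖ + |θ - θ'| := by
    have : z - (θ : ℂ) = (z - θ') + ((θ' - θ : ℝ) : ℂ) := by push_cast; ring
    rw [this]
    refine (norm_add_le _ _).trans ?_
    rw [Complex.norm_real, Real.norm_eq_abs, abs_sub_comm]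
  have h2 : Real.exp (b * ‖z - θ‖) ≤ Real.exp (b * |θ - θ'|) * Real.exp (b * ‖z - θ'‖) := by
    rw [← Real.exp_add]
    apply Real.exp_le_exp.2
    have : b * ‖z - θ‖ ≤ b * (‖z - θ'‖ + |θ - θ'|) := mul_le_mul_of_nonneg_left h1 (by linarith)
    linarith
  calc ‖g z‖ ≤ Real.exp (b * ‖z - θ‖) * f_s1 g b θ := h
    _ ≤ (Real.exp (b * |θ - θ'|) * Real.exp (b * ‖z - θ'‖)) * f_s1 g b θ :=
        mul_le_mul_of_nonneg_right h2 hp.le
    _ = _ := by ring

lemma f_s1_per (hper : ∀ z, ‖g (z + Real.pi)‖ = ‖g z‖) (θ : ℝ) :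
    f_s1 g b (θ + Real.pi) = f_s1 g b θ := by
  unfold f_s1
  apply ((Equiv.addRight (Real.pi : ℂ)).iSup_congr _).symm
  intro z
  simp only [Equiv.coe_addRight]
  rw [hper]
  have : z + (Real.pi : ℂ) - ((θ + Real.pi : ℝ) : ℂ) = z - θ := by push_cast; ring
  rw [this]

lemma f_s1_cont (hb0 : 0 < b0) (hb : b0 ≤ b) (hK : ∀ z, ‖g z‖ ≤ K * Real.exp (b0 * |z.im|))
    (hne : ∃ z, g z ≠ 0) : Continuous (f_s1 g b) := by
  rw [continuous_iff_continuousAt]
  intro x
  rw [ContinuousAt, tendsto_iff_dist_tendsto_zero]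
  have hlim : Tendsto (fun y : ℝ => (Real.exp (b * |x - y|) - 1) * f_s1 g b x) (𝓝 x) (𝓝 0) := by
    have hc : Continuous (fun y : ℝ => (Real.exp (b * |x - y|) - 1) * f_s1 g b x) := by fun_prop
    have := hc.tendsto x
    simpa using this
  refine squeeze_zero (fun _ => dist_nonneg) (fun y => ?_) hlim
  have h1 := f_s1_lip hb0 hb hK hne x y
  have h2 := f_s1_lip hb0 hb hK hne y x
  have hx := f_s1_pos hb0 hb hK hne x
  have hy := f_s1_pos hb0 hb hK hne y
  rw [abs_sub_comm y x] at h2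
  set t := Real.exp (b * |x - y|) with ht
  have ht1 : 1 ≤ t := by
    rw [ht, Real.one_le_exp_iff]
    exact mul_nonneg (by linarith) (abs_nonneg _)
  rw [Real.dist_eq, abs_le]
  constructor
  · -- s1 x - s1 y ≤ (t - 1) s1 x
    have h3 : f_s1 g b x - f_s1 g b y ≤ (t - 1) * f_s1 g b y := by linarith
    rcases le_total (f_s1 g b y) (f_s1 g b x) with h4 | h4
    · have : (t - 1) * f_s1 g b y ≤ (t - 1) * f_s1 g b x :=
        mul_le_mul_of_nonneg_left h4 (by linarith)
      linarith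
    · have : 0 ≤ (t - 1) * f_s1 g b x := mul_nonneg (by linarith) hx.le
      linarith
  · linarith

end

theorem tF : StF := by
  intro g b0 b K hg hb0 hb hK hper hne
  have hbpos : 0 < b := by linarith
  set s1 := f_s1 g b with hs1
  have hpos := f_s1_pos hb0 hb hK hne
  have hlip := f_s1_lip hb0 hb hK hne
  have hcont := f_s1_cont hb0 hb hK hne
  have hgle := f_le hb0 hb hK
  have hs1per := f_s1_per (b := b) hper
  simp only [← hs1] at hpos hlip hcont hgle hs1per
  have e1 := Real.exp_one_gt_d9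
  have e2 := Real.exp_one_lt_d9
  set E := Real.exp 1 with hE
  have hE0 : 0 < E := Real.exp_pos 1
  have hEE : E * E ≤ 8 := by nlinarith
  -- local comparison
  have hnear : ∀ x y : ℝ, |x - y| ≤ 1 / b → s1 y ≤ E * s1 x := by
    intro x y h
    refine (hlip x y).trans ?_
    apply mul_le_mul_of_nonneg_right _ (hpos x).le
    apply Real.exp_le_exp.2
    have : b * |x - y| ≤ b * (1 / b) := mul_le_mul_of_nonneg_left h hbpos.le
    rwa [mul_one_div_cancel hbpos.ne'] at this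
  -- Cauchy estimate
  have hder : ∀ θ : ℝ, ‖deriv g θ‖ ≤ b * E * s1 θ := by
    intro θ
    have h1 := Complex.norm_deriv_le_of_forall_mem_sphere_norm_le (c := (θ : ℂ)) (R := 1 / b)
      (C := E * s1 θ) (f := g) (by positivity) hg.diffContOnCl ?_
    · rw [div_div_eq_mul_div, div_one] at h1
      linarith
    · intro z hz
      rw [mem_sphere_iff_norm] at hz
      have h2 := hgle θ z
      rw [hz, mul_one_div_cancel hbpos.ne'] at h2
      exact h2
  -- the integral
  set F : ℝ → ℝ := fun x => ∫ t in (0:ℝ)..x, s1 t with hF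
  have hFd : ∀ x, HasDerivAt F (s1 x) x := fun x =>
    intervalIntegral.integral_hasDerivAt_right (hcont.intervalIntegrable _ _)
      (hcont.stronglyMeasurableAtFilter _ _) hcont.continuousAt
  set s : ℝ → ℝ := fun θ => b * (F (θ + 1 / b) - F θ) with hs
  have hsint : ∀ θ, s θ = b * ∫ t in θ..(θ + 1 / b), s1 t := by
    intro θ
    simp only [hs, hF]
    rw [intervalIntegral.integral_interval_sub_left (hcont.intervalIntegrable _ _)
      (hcont.intervalIntegrable _ _)]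
  have hbinv : 0 < 1 / b := by positivity
  have hlow : ∀ θ, s1 θ ≤ E * s θ := by
    intro θ
    have h1 : ∫ t in θ..(θ + 1 / b), s1 θ / E ≤ ∫ t in θ..(θ + 1 / b), s1 t := by
      apply intervalIntegral.integral_mono_on (by linarith) (by simp)
        (hcont.intervalIntegrable _ _)
      intro t ht
      rw [div_le_iff₀ hE0, mul_comm]
      apply hnear
      rw [abs_of_nonneg (by linarith [ht.1])]
      linarith [ht.2]
    rw [intervalIntegral.integral_const, smul_eq_mul] at h1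
    rw [hsint]
    have h2 : (θ + 1 / b - θ) * (s1 θ / E) = s1 θ / (b * E) := by
      field_simp
      ring
    rw [h2, div_le_iff₀ (by positivity)] at h1
    linarith
  have hup : ∀ θ, s θ ≤ E * s1 θ := by
    intro θ
    have h1 : ∫ t in θ..(θ + 1 / b), s1 t ≤ ∫ t in θ..(θ + 1 / b), E * s1 θ := by
      apply intervalIntegral.integral_mono_on (by linarith) (hcont.intervalIntegrable _ _)
        (by simp)
      intro t ht
      apply hnear
      rw [abs_sub_comm, abs_of_nonneg (by linarith [ht.1])]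
      linarith [ht.2]
    rw [intervalIntegral.integral_const, smul_eq_mul] at h1
    rw [hsint]
    have h2 : b * ((θ + 1 / b - θ) * (E * s1 θ)) = E * s1 θ := by
      field_simp
      ring
    rw [← h2]
    exact mul_le_mul_of_nonneg_left h1 hbpos.le
  have hspos : ∀ θ, 0 < s θ := by
    intro θ
    have h1 := hlow θ
    have h2 := hpos θ
    by_contra hcon
    push Not at hcon
    nlinarith
  have hds : ∀ θ : ℝ, ‖deriv g θ‖ ≤ 8 * b * s θ := by
    intro θ
    refine (hder θ).trans ?_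
    have h1 : b * E * s1 θ ≤ b * E * (E * s θ) := mul_le_mul_of_nonneg_left (hlow θ) (by positivity)
    have h2 : b * s θ * (E * E) ≤ b * s θ * 8 :=
      mul_le_mul_of_nonneg_left hEE (mul_nonneg hbpos.le (hspos θ).le)
    nlinarith
  refine ⟨s, fun θ => b * (s1 (θ + 1 / b) - s1 θ), by fun_prop, ?_, hspos, ?_, ?_, ?_, hds, ?_⟩
  · intro θ
    have h1 : HasDerivAt (fun θ => F (θ + 1 / b)) (s1 (θ + 1 / b)) θ :=
      (hFd (θ + 1 / b)).comp_add_const θ (1 / b)
    exact (h1.sub (hFd θ)).const_mul b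
  · intro θ
    rw [hsint, hsint]
    congr 1
    have h1 := intervalIntegral.integral_comp_add_right (a := θ) (b := θ + 1 / b) s1 Real.pi
    simp only [hs1per] at h1
    rw [h1]
    congr 1
    ring
  · intro θ
    have h1 : s1 (θ + 1 / b) ≤ E * s1 θ := by
      apply hnear
      rw [abs_sub_comm, add_sub_cancel_left, abs_of_pos hbinv]
    have h2 := hpos (θ + 1 / b)
    have h3 := hpos θ
    have h4 := hlow θ
    have h5 := hspos θ
    rw [abs_mul, abs_of_pos hbpos]
    have h6 : |s1 (θ + 1 / b) - s1 θ| ≤ (E - 1) * s1 θ := by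
      rw [abs_le]; constructor <;> nlinarith
    have h7 : (E - 1) * s1 θ ≤ (E - 1) * (E * s θ) := mul_le_mul_of_nonneg_left h4 (by linarith)
    have h8 : (E - 1) * (E * s θ) ≤ 8 * s θ := by nlinarith
    calc b * |s1 (θ + 1 / b) - s1 θ| ≤ b * (8 * s θ) :=
          mul_le_mul_of_nonneg_left (h6.trans (h7.trans h8)) hbpos.le
      _ = 8 * b * s θ := by ring
  · intro θ
    have h1 := hgle θ (θ : ℂ)
    rw [sub_self, norm_zero, mul_zero, Real.exp_zero, one_mul] at h1
    have h2 := hlow θ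
    have h3 := hspos θ
    nlinarith
  · intro θ0 S hS θ hθ
    have h1 : s1 θ0 ≤ S := f_s1_le hS
    have h2 : s1 θ ≤ E * s1 θ0 := hnear θ0 θ (by rwa [abs_sub_comm])
    have h3 : s1 θ ≤ E * S := h2.trans (mul_le_mul_of_nonneg_left h1 hE0.le)
    have hS0 : 0 < S := (hpos θ0).trans_le h1
    constructor
    · have h4 := hup θ
      have h5 : E * s1 θ ≤ E * (E * S) := mul_le_mul_of_nonneg_left h3 hE0.le
      nlinarith
    · refine (hder θ).trans ?_
      have h5 : b * E * s1 θ ≤ b * E * (E * S) := mul_le_mul_of_nonneg_left h3 (by positivity)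
      have h6 : b * S * (E * E) ≤ b * S * 8 :=
        mul_le_mul_of_nonneg_left hEE (by positivity)
      nlinarith

end

end Pool.Agent.H811R2.Quad
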