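import Pool.Agent.H811R2.T.Defs

/-! Task G (helper153): lower bound for the weighted length over a window. -/

open Set MeasureTheory Topology Filter
open scoped ENNReal

namespace Pool.Agent.H811R2.Quad

noncomputable section

/-- the integrand -/
def g_f (s v : ℝ → ℝ) (θ : ℝ) : ℝ := X (s θ) (v θ) ^ 2 + X (s θ) (v (θ + Real.pi)) ^ 2

lemma g_cont {s v : ℝ → ℝ} (hs : Continuous s) (hs0 : ∀ θ, 0 < s θ) (hv : Continuous v)
    (hv0 : ∀ θ, 0 < v θ) : Continuous (g_f s v) := by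
  have h2 : Continuous fun θ => v (θ + Real.pi) := by fun_prop
  unfold g_f X
  refine Continuous.add (Continuous.pow (Continuous.div hv (by fun_prop) fun θ => ?_) 2)
    (Continuous.pow (Continuous.div h2 (by fun_prop) fun θ => ?_) 2)
  · have := hs0 θ; have := hv0 θ; positivity
  · have := hs0 θ; have := hv0 (θ + Real.pi); positivity

/-- pointwise lower bound -/
lemma g_ge {s v : ℝ → ℝ} {θ ρ γ S : ℝ} (hs0 : 0 < s θ) (hv0 : ∀ θ, 0 < v θ) (hγ : 0 < γ)
    (hS : 1 ≤ S) (hρ0 : 0 ≤ ρ) (hρ1 : ρ ≤ 1) (hs : s θ ≤ S * γ)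
    (hM : ρ * γ ≤ max (v θ) (v (θ + Real.pi))) : (ρ / (2 * S)) ^ 2 ≤ g_f s v θ := by
  have key : ∀ w : ℝ, 0 < w → ρ * γ ≤ w → ρ / (2 * S) ≤ X (s θ) w := by
    intro w hw hρw
    unfold X
    rw [div_le_div_iff₀ (by positivity) (by positivity)]
    have h1 : ρ * s θ ≤ ρ * (S * γ) := mul_le_mul_of_nonneg_left hs hρ0
    have h2 : ρ * (S * γ) = S * (ρ * γ) := by ring
    have h3 : S * (ρ * γ) ≤ S * w := mul_le_mul_of_nonneg_left hρw (by linarith)
    have h4 : ρ * w ≤ S * w := mul_le_mul_of_nonneg_right (by linarith) hw.le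
    nlinarith
  have h0 : 0 ≤ ρ / (2 * S) := by positivity
  unfold g_f
  rcases le_max_iff.1 hM with h | h
  · have := pow_le_pow_left₀ h0 (key _ (hv0 _) h) 2
    nlinarith [sq_nonneg (X (s θ) (v (θ + Real.pi)))]
  · have := pow_le_pow_left₀ h0 (key _ (hv0 _) h) 2
    nlinarith [sq_nonneg (X (s θ) (v θ))]

/-- integral over a window minus a middle part -/
lemma g_int {f : ℝ → ℝ} (hf : Continuous f) (hf0 : ∀ x, 0 ≤ f x) {x0 η y c : ℝ} (hη : 0 < η)
    (hy : y ∈ Icc x0 (x0 + 2 * η)) (hc : 0 ≤ c)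
    (h : ∀ θ ∈ Icc x0 (x0 + 2 * η), η / 2 ≤ |θ - y| → c ≤ f θ) :
    η * c ≤ ∫ θ in x0..(x0 + 2 * η), f θ := by
  set a := max x0 (y - η / 2) with ha
  set b := min (x0 + 2 * η) (y + η / 2) with hb
  have hxa : x0 ≤ a := le_max_left _ _
  have hya : y - η / 2 ≤ a := le_max_right _ _
  have hay : a ≤ y := max_le hy.1 (by linarith)
  have hyb : y ≤ b := le_min hy.2 (by linarith)
  have hbx : b ≤ x0 + 2 * η := min_le_left _ _
  have hby : b ≤ y + η / 2 := min_le_right _ _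
  have e1 := intervalIntegral.integral_add_adjacent_intervals (a := x0) (b := a) (c := b)
    (f := f) (μ := volume) (hf.intervalIntegrable _ _) (hf.intervalIntegrable _ _)
  have e2 := intervalIntegral.integral_add_adjacent_intervals (a := x0) (b := b) (c := x0 + 2 * η)
    (f := f) (μ := volume) (hf.intervalIntegrable _ _) (hf.intervalIntegrable _ _)
  have i1 : (a - x0) * c ≤ ∫ θ in x0..a, f θ := by
    have : ∫ θ in x0..a, c ≤ ∫ θ in x0..a, f θ := by
      apply intervalIntegral.integral_mono_on_of_le_Ioo hxa (by simp) (hf.intervalIntegrable _ _)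
      intro θ hθ
      apply h θ ⟨hθ.1.le, by linarith [hθ.2, hy.2]⟩
      have h1 : θ < y - η / 2 := by
        rcases lt_max_iff.1 hθ.2 with h2 | h2
        · linarith [hθ.1]
        · exact h2
      rw [abs_of_nonpos (by linarith)]
      linarith
    rwa [intervalIntegral.integral_const, smul_eq_mul] at this
  have i2 : 0 ≤ ∫ θ in a..b, f θ :=
    intervalIntegral.integral_nonneg (hay.trans hyb) fun θ _ => hf0 θ
  have i3 : (x0 + 2 * η - b) * c ≤ ∫ θ in b..(x0 + 2 * η), f θ := by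
    have : ∫ θ in b..(x0 + 2 * η), c ≤ ∫ θ in b..(x0 + 2 * η), f θ := by
      apply intervalIntegral.integral_mono_on_of_le_Ioo hbx (by simp) (hf.intervalIntegrable _ _)
      intro θ hθ
      apply h θ ⟨by linarith [hθ.1, hy.1], hθ.2.le⟩
      have h1 : y + η / 2 < θ := by
        rcases min_lt_iff.1 hθ.1 with h2 | h2
        · linarith [hθ.2]
        · exact h2
      rw [abs_of_nonneg (by linarith)]
      linarith
    rwa [intervalIntegral.integral_const, smul_eq_mul] at this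
  have hba : b - a ≤ η := by linarith
  nlinarith [mul_nonneg hc (by linarith : 0 ≤ η - (b - a))]

/-- the case `G₁ ≥ 9/20 γ` -/
lemma g_case1 {m μ : ℝ} {G1 G2 v s : ℝ → ℝ} (hm : 0 < m) (hμ : 0 < μ)
    (hanti1 : ∀ θ, G1 (θ + Real.pi) = -G1 θ) (hanti2 : ∀ θ, G2 (θ + Real.pi) = -G2 θ)
    (hP : PSol (fun θ => m * G1 θ) G2 (m * μ) v) (hs : Continuous s) (hs0 : ∀ θ, 0 < s θ)
    {x0 η γ S : ℝ} (hη : 0 < η) (hmη : m * η ≤ 1) (hγ : 0 < γ) (hS : 1 ≤ S)
    (hsS : ∀ θ ∈ Icc x0 (x0 + 2 * η), s θ ≤ S * γ)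
    (hG : ∀ θ ∈ Icc x0 (x0 + 2 * η), 9 / 20 * γ ≤ G1 θ) :
    η * (m * η) ^ 2 / (400 * S ^ 2 * (1 + μ ^ 2)) ≤ ∫ θ in x0..(x0 + 2 * η), g_f s v θ := by
  have hcont := g_cont hs hs0 hP.cont hP.pos
  obtain ⟨y, hy, hyM⟩ := exists_center (G1 := fun θ => m * G1 θ) (G2 := G2)
    (fun θ => by simp only [hanti1]; ring) hanti2 (by positivity : 0 ≤ m * μ) hP
    (by positivity : 0 < 9 / 40 * m * γ) (by positivity : 0 < 2 * η) (x0 := x0)
    (fun θ hθ => by
      have := mul_le_mul_of_nonneg_left (hG θ hθ) hm.le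
      linarith)
  have hsq : 0 < Real.sqrt (1 + μ ^ 2) := Real.sqrt_pos.2 (by positivity)
  have hsq1 : 1 ≤ Real.sqrt (1 + μ ^ 2) := by
    rw [Real.one_le_sqrt]; nlinarith
  have hsqμ : μ ≤ Real.sqrt (1 + μ ^ 2) := Real.le_sqrt_of_sq_le (by linarith)
  set ρ : ℝ := 1 / 10 * (m * η) / Real.sqrt (1 + μ ^ 2) with hρ
  have hρ0 : 0 ≤ ρ := by positivity
  have hρ1 : ρ ≤ 1 / 10 * (m * η) := by
    rw [hρ, div_le_iff₀ hsq]
    have : 0 ≤ 1 / 10 * (m * η) := by positivity
    nlinarith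
  have hρμ : ρ * μ ≤ 1 / 10 := by
    have h1 : ρ * Real.sqrt (1 + μ ^ 2) = 1 / 10 * (m * η) := by
      rw [hρ]; field_simp
    have h2 : ρ * μ ≤ ρ * Real.sqrt (1 + μ ^ 2) := mul_le_mul_of_nonneg_left hsqμ hρ0
    linarith
  have hval : (ρ / (2 * S)) ^ 2 = (m * η) ^ 2 / (400 * S ^ 2 * (1 + μ ^ 2)) := by
    have h1 : Real.sqrt (1 + μ ^ 2) ^ 2 = 1 + μ ^ 2 := Real.sq_sqrt (by positivity)
    rw [hρ, div_div, div_pow, mul_pow (Real.sqrt (1 + μ ^ 2)), h1]
    field_simp
    norm_num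
  have hfin := g_int hcont (fun θ => by unfold g_f; positivity) hη hy
    (sq_nonneg (ρ / (2 * S))) ?_
  · rw [hval, ← mul_div_assoc] at hfin
    exact hfin
  · intro θ hθ hd
    apply g_ge (hs0 θ) hP.pos hγ hS hρ0 (by linarith) (hsS θ hθ)
    have hMpos : 0 < max (v θ) (v (θ + Real.pi)) := lt_max_of_lt_left (hP.pos θ)
    rcases hyM θ hθ with h | h
    · have h1 : 9 / 40 * m * γ * (η / 2) ≤ 9 / 40 * m * γ * |θ - y| :=
        mul_le_mul_of_nonneg_left hd (by positivity)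
      have h2 : ρ * γ ≤ 1 / 10 * (m * η) * γ := mul_le_mul_of_nonneg_right hρ1 hγ.le
      have h3 : 0 ≤ m * η * γ := by positivity
      nlinarith
    · have h1 : 9 / 40 * γ ≤ μ * max (v θ) (v (θ + Real.pi)) := by
        have : m * (9 / 40 * γ) ≤ m * (μ * max (v θ) (v (θ + Real.pi))) := by linarith
        exact le_of_mul_le_mul_left this hm
      have h2 : μ * (ρ * γ) ≤ μ * max (v θ) (v (θ + Real.pi)) := by
        have : μ * (ρ * γ) ≤ 1 / 10 * γ := by
          have := mul_le_mul_of_nonneg_right hρμ hγ.le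
          linarith
        linarith
      exact le_of_mul_le_mul_left h2 hμ

theorem tG : StG := by
  intro m μ G1 G2 v s hm hμ hanti1 hanti2 hP hs hs0 hsπ θ0 η γ S hη hmη hγ hS hsS hcase
  show _ ≤ ∫ θ in (θ0 - η)..(θ0 + η), g_f s v θ
  have hcont := g_cont hs hs0 hP.cont hP.pos
  rcases hcase with h | h | h
  · have e : θ0 + η = (θ0 - η) + 2 * η := by ring
    rw [e] at h hsS ⊢
    exact g_case1 hm hμ hanti1 hanti2 hP hs hs0 hη hmη hγ hS hsS h
  · have hf : ∀ θ, g_f s v (θ + Real.pi) = g_f s v θ := by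
      intro θ
      unfold g_f
      have : θ + Real.pi + Real.pi = θ + 2 * Real.pi := by ring
      rw [hsπ, this, hP.per]
      ring
    have hmem : ∀ θ ∈ Icc (θ0 - η + Real.pi) (θ0 - η + Real.pi + 2 * η),
        θ - Real.pi ∈ Icc (θ0 - η) (θ0 + η) := by
      intro θ hθ
      constructor <;> linarith [hθ.1, hθ.2]
    have h1 := g_case1 (x0 := θ0 - η + Real.pi) hm hμ hanti1 hanti2 hP hs hs0 hη hmη hγ hS
      (fun θ hθ => by
        have := hsS _ (hmem θ hθ)
        have h2 := hsπ (θ - Real.pi)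
        rw [sub_add_cancel] at h2
        rw [h2]; exact this)
      (fun θ hθ => by
        have := h _ (hmem θ hθ)
        have h2 := hanti1 (θ - Real.pi)
        rw [sub_add_cancel] at h2
        rw [h2]; linarith)
    have h2 : ∫ θ in (θ0 - η)..(θ0 + η), g_f s v θ
        = ∫ θ in (θ0 - η + Real.pi)..(θ0 - η + Real.pi + 2 * η), g_f s v θ := by
      have h3 := intervalIntegral.integral_comp_add_right (a := θ0 - η) (b := θ0 + η)
        (fun θ => g_f s v θ) Real.pi
      simp only [hf] at h3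
      rw [h3]
      congr 1
      ring
    rw [h2]
    exact h1
  · have hall : ∀ θ ∈ Icc (θ0 - η) (θ0 + η), (9 / 20 / (2 * S)) ^ 2 ≤ g_f s v θ := by
      intro θ hθ
      apply g_ge (hs0 θ) hP.pos hγ hS (by norm_num) (by norm_num) (hsS θ hθ)
      have h1 := h θ hθ
      have p1 := hP.pos' θ
      have p2 := hP.pos' (θ + Real.pi)
      rw [hanti2] at p2
      rcases le_total 0 (G2 θ) with hg | hg
      · rw [abs_of_nonneg hg] at h1
        exact le_max_of_le_right (by linarith)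
      · rw [abs_of_nonpos hg] at h1
        exact le_max_of_le_left (by linarith)
    have h1 : ∫ θ in (θ0 - η)..(θ0 + η), (9 / 20 / (2 * S)) ^ 2 ≤
        ∫ θ in (θ0 - η)..(θ0 + η), g_f s v θ :=
      intervalIntegral.integral_mono_on (by linarith) (by simp) (hcont.intervalIntegrable _ _) hall
    rw [intervalIntegral.integral_const, smul_eq_mul] at h1
    refine le_trans ?_ h1
    have e : (θ0 + η - (θ0 - η)) * (9 / 20 / (2 * S)) ^ 2 = η * (81 / 800 / S ^ 2) := by
      field_simp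
      ring
    rw [e, mul_div_assoc]
    apply mul_le_mul_of_nonneg_left _ hη.le
    rw [div_le_div_iff₀ (by positivity) (by positivity)]
    have hmη0 : 0 ≤ m * η := by positivity
    have h2 : (m * η) ^ 2 ≤ 1 := by nlinarith
    have h3 : 0 < S ^ 2 := by positivity
    have h4 : (m * η) ^ 2 * S ^ 2 ≤ 1 * S ^ 2 := mul_le_mul_of_nonneg_right h2 h3.le
    nlinarith [mul_nonneg h3.le (sq_nonneg μ)]

end

end Pool.Agent.H811R2.Quad
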