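import Pool.Agent.H811R2.T.Defs

/-! Task H: averaging over the centres of the windows. -/

open Set MeasureTheory Topology Filter

namespace Pool.Agent.H811R2.Quad

theorem tH : StH := by
  intro f hf hf0 hper E hE hEsub η β hη hβ hEk
  have hk1 : ∀ θ : ℝ, ∫ x in (θ - η)..(θ + η), f x = ∫ t in (-η)..η, f (θ + t) := by
    intro θ
    rw [intervalIntegral.integral_comp_add_left (fun x => f x) θ]
    rw [← sub_eq_add_neg]
  have hjoint : Continuous (Function.uncurry fun θ t : ℝ => f (θ + t)) :=
    hf.comp (continuous_fst.add continuous_snd)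
  have hkc : Continuous fun θ : ℝ => ∫ t in (-η)..η, f (θ + t) :=
    intervalIntegral.continuous_parametric_intervalIntegral_of_continuous' hjoint _ _
  have hk0 : ∀ θ : ℝ, 0 ≤ ∫ t in (-η)..η, f (θ + t) := fun θ =>
    intervalIntegral.integral_nonneg (by linarith) (fun t _ => hf0 _)
  have hEfin : volume E < ⊤ := lt_of_le_of_lt (measure_mono hEsub) (by
    rw [Real.volume_Icc]; exact ENNReal.ofReal_lt_top)
  have hki : IntegrableOn (fun θ : ℝ => ∫ t in (-η)..η, f (θ + t)) (Icc 0 Real.pi) :=
    hkc.integrableOn_Icc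
  have h1 : β * (volume E).toReal ≤ ∫ θ in E, ∫ t in (-η)..η, f (θ + t) := by
    have : ∫ θ in E, β = β * (volume E).toReal := by
      rw [setIntegral_const, smul_eq_mul, mul_comm]
      rfl
    rw [← this]
    refine setIntegral_mono_on (integrableOn_const (by exact hEfin.ne)) (hki.mono_set hEsub) hE ?_
    intro θ hθ
    rw [← hk1 θ]
    exact hEk θ hθ
  have h2 : ∫ θ in E, ∫ t in (-η)..η, f (θ + t)
      ≤ ∫ θ in Icc 0 Real.pi, ∫ t in (-η)..η, f (θ + t) := by
    refine setIntegral_mono_set hki (Filter.Eventually.of_forall fun θ => hk0 θ) ?_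
    exact hEsub.eventuallyLE
  have h3 : ∫ θ in Icc 0 Real.pi, ∫ t in (-η)..η, f (θ + t)
      = ∫ θ in (0:ℝ)..Real.pi, ∫ t in (-η)..η, f (θ + t) := by
    rw [intervalIntegral.integral_of_le Real.pi_pos.le, integral_Icc_eq_integral_Ioc]
  have h4 : ∫ θ in (0:ℝ)..Real.pi, ∫ t in (-η)..η, f (θ + t)
      = ∫ t in (-η)..η, ∫ θ in (0:ℝ)..Real.pi, f (θ + t) := by
    apply MeasureTheory.intervalIntegral_intervalIntegral_swap
    have hK : IsCompact (Icc (0:ℝ) Real.pi ×ˢ Icc (-η) η) := isCompact_Icc.prod isCompact_Icc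
    refine (hjoint.continuousOn.integrableOn_compact hK).mono_set ?_
    refine Set.prod_mono ?_ ?_
    · rw [uIoc_of_le Real.pi_pos.le]; exact Ioc_subset_Icc_self
    · rw [uIoc_of_le (by linarith)]; exact Ioc_subset_Icc_self
  have h5 : ∀ t : ℝ, ∫ θ in (0:ℝ)..Real.pi, f (θ + t) = ∫ θ in (0:ℝ)..Real.pi, f θ := by
    intro t
    rw [intervalIntegral.integral_comp_add_right (fun x => f x) t]
    have hp : Function.Periodic f Real.pi := hper
    have := hp.intervalIntegral_add_eq t 0
    rw [zero_add] at this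
    rw [zero_add, add_comm Real.pi t]
    exact this
  rw [h3, h4] at h2
  simp_rw [h5] at h2
  rw [intervalIntegral.integral_const, smul_eq_mul] at h2
  have h6 : η - -η = 2 * η := by ring
  rw [h6] at h2
  exact le_trans h1 h2

end Pool.Agent.H811R2.Quad
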