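import Pool.Agent.H811R2.T.Defs

/-! Averaged counts with a variable scale `s(θ)`. -/

open Set MeasureTheory Topology Filter
open scoped ENNReal

namespace Pool.Agent.H811R2.Quad

noncomputable section

lemma continuous_Xs {s v : ℝ → ℝ} (hs : Continuous s) (hs0 : ∀ θ, 0 < s θ) (hv : Continuous v)
    (hpos : ∀ θ, 0 < v θ) : Continuous fun θ => X (s θ) (v θ) := by
  unfold X
  refine Continuous.div (by fun_prop) (by fun_prop) fun θ => ?_
  have := hpos θ
  have := hs0 θ
  positivity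

/-- flux identity with a variable scale -/
lemma PSol.identity_s {G1 G2 G2' s s' : ℝ → ℝ} (hG1 : Continuous G1)
    (hG2 : ∀ θ, HasDerivAt G2 (G2' θ) θ) (hG2' : Continuous G2')
    (hper2 : ∀ θ, G2 (θ + 2 * Real.pi) = G2 θ) (hs : ∀ θ, HasDerivAt s (s' θ) θ)
    (hs' : Continuous s') (hs0 : ∀ θ, 0 < s θ) (hsper : ∀ θ, s (θ + 2 * Real.pi) = s θ)
    {μ : ℝ} {v : ℝ → ℝ} (h : PSol G1 G2 μ v) :
    μ * ellv s v = ∫ θ in (0:ℝ)..(2 * Real.pi),
      ((G2' θ / s θ - G1 θ / s θ - 2 * G2 θ * s' θ / s θ ^ 2) * X (s θ) (v θ) +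
        (G1 θ / s θ - s' θ / s θ + G2 θ * s' θ / s θ ^ 2) * X (s θ) (v θ) ^ 2) := by
  have hsc : Continuous s := continuous_iff_continuousAt.2 fun θ => (hs θ).continuousAt
  have hX := continuous_Xs hsc hs0 h.cont h.pos
  have hG2c : Continuous G2 := continuous_iff_continuousAt.2 fun θ => (hG2 θ).continuousAt
  have hc1 : Continuous fun θ => G2' θ / s θ - G1 θ / s θ - 2 * G2 θ * s' θ / s θ ^ 2 := by
    refine ((hG2'.div hsc fun θ => (hs0 θ).ne').sub (hG1.div hsc fun θ => (hs0 θ).ne')).sub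
      (Continuous.div (by fun_prop) (by fun_prop) fun θ => ?_)
    have := hs0 θ
    positivity
  have hc2 : Continuous fun θ => G1 θ / s θ - s' θ / s θ + G2 θ * s' θ / s θ ^ 2 := by
    refine ((hG1.div hsc fun θ => (hs0 θ).ne').sub (hs'.div hsc fun θ => (hs0 θ).ne')).add
      (Continuous.div (by fun_prop) (by fun_prop) fun θ => ?_)
    have := hs0 θ
    positivity
  set W : ℝ → ℝ := fun θ => Real.log (v θ + s θ) - Real.log (s θ) + s θ / (v θ + s θ) +
    G2 θ * (v θ / (s θ * (v θ + s θ))) with hW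
  have hWd : ∀ θ, HasDerivAt W
      (((G2' θ / s θ - G1 θ / s θ - 2 * G2 θ * s' θ / s θ ^ 2) * X (s θ) (v θ) +
        (G1 θ / s θ - s' θ / s θ + G2 θ * s' θ / s θ ^ 2) * X (s θ) (v θ) ^ 2) -
          μ * X (s θ) (v θ) ^ 2) θ := by
    intro θ
    have hv := h.deriv θ
    have p1 := h.pos θ
    have p2 := (h.pos' θ).ne'
    have p4 := hs0 θ
    have p3 : v θ + s θ ≠ 0 := by positivity
    have p5 : s θ * (v θ + s θ) ≠ 0 := by positivity
    have d1 := hv.add (hs θ)
    have d2 := d1.log p3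
    have d3 := (hs θ).div d1 p3
    have d4 := (hG2 θ).mul (hv.div ((hs θ).mul d1) p5)
    have d5 := (hs θ).log p4.ne'
    refine (((d2.sub d5).add d3).add d4).congr_deriv ?_
    unfold X
    simp only [Pi.div_apply, Pi.add_apply, Pi.mul_apply]
    field_simp
    ring
  have hint := intervalIntegral.integral_eq_sub_of_hasDerivAt (a := 0) (b := 2 * Real.pi)
    (fun θ _ => hWd θ) (by
      apply Continuous.intervalIntegrable
      exact ((hc1.mul hX).add (hc2.mul (hX.pow 2))).sub (continuous_const.mul (hX.pow 2)))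
  have hW0 : W (2 * Real.pi) - W 0 = 0 := by
    have e1 := h.per 0
    have e2 := hper2 0
    have e3 := hsper 0
    rw [zero_add] at e1 e2 e3
    simp only [hW, e1, e2, e3, sub_self]
  rw [hW0, intervalIntegral.integral_sub
    (by apply Continuous.intervalIntegrable; exact (hc1.mul hX).add (hc2.mul (hX.pow 2)))
    (by apply Continuous.intervalIntegrable; exact continuous_const.mul (hX.pow 2)),
    intervalIntegral.integral_const_mul] at hint
  unfold ellv
  linarith

/-- the clock with a variable scale -/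
def clocks (κ b : ℝ) (s v : ℝ → ℝ) : ℝ :=
  ∫ θ in (0:ℝ)..(2 * Real.pi), (κ * X (s θ) (v θ) + b * X (s θ) (v θ) ^ 2)

lemma flux_s {al be s v1 v2 : ℝ → ℝ} (hal : Continuous al) (hbe : Continuous be) {κ b μ1 μ2 : ℝ}
    (hκ : ∀ θ, |al θ| + 2 * |be θ| ≤ κ) (hb : 0 < b) (hs : Continuous s) (hs0 : ∀ θ, 0 < s θ)
    (c1 : Continuous v1) (c2 : Continuous v2) (p1 : ∀ θ, 0 < v1 θ) (p2 : ∀ θ, 0 < v2 θ)
    (i1 : μ1 * ellv s v1 = ∫ θ in (0:ℝ)..(2 * Real.pi),
      (al θ * X (s θ) (v1 θ) + be θ * X (s θ) (v1 θ) ^ 2))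
    (i2 : μ2 * ellv s v2 = ∫ θ in (0:ℝ)..(2 * Real.pi),
      (al θ * X (s θ) (v2 θ) + be θ * X (s θ) (v2 θ) ^ 2))
    (hle : ∀ θ, v1 θ < v2 θ) :
    |μ1 * ellv s v1 - μ2 * ellv s v2| + b * |ellv s v1 - ellv s v2| ≤
      clocks κ b s v2 - clocks κ b s v1 := by
  have hX1 := continuous_Xs hs hs0 c1 p1
  have hX2 := continuous_Xs hs hs0 c2 p2
  have hXle : ∀ θ, X (s θ) (v1 θ) ≤ X (s θ) (v2 θ) := fun θ => X_mono (hs0 θ) (p1 θ) (hle θ).le
  have e1 : |μ1 * ellv s v1 - μ2 * ellv s v2| ≤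
      ∫ θ in (0:ℝ)..(2 * Real.pi), κ * (X (s θ) (v2 θ) - X (s θ) (v1 θ)) := by
    rw [i1, i2,
      ← intervalIntegral.integral_sub (by apply Continuous.intervalIntegrable; fun_prop)
        (by apply Continuous.intervalIntegrable; fun_prop)]
    refine (intervalIntegral.abs_integral_le_integral_abs (by positivity)).trans ?_
    apply intervalIntegral.integral_mono_on (by positivity)
      (by apply Continuous.intervalIntegrable; fun_prop)
      (by apply Continuous.intervalIntegrable; fun_prop)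
    intro θ _
    have a1 := X_pos (hs0 θ) (p1 θ)
    have a2 := X_lt_one (hs0 θ) (p1 θ)
    have a3 := X_pos (hs0 θ) (p2 θ)
    have a4 := X_lt_one (hs0 θ) (p2 θ)
    have a5 := hXle θ
    have a6 := hκ θ
    set x1 := X (s θ) (v1 θ)
    set x2 := X (s θ) (v2 θ)
    have : (al θ * x1 + be θ * x1 ^ 2) - (al θ * x2 + be θ * x2 ^ 2) =
        -(al θ + be θ * (x1 + x2)) * (x2 - x1) := by ring
    rw [this, abs_mul, abs_neg, abs_of_nonneg (by linarith : 0 ≤ x2 - x1)]
    apply mul_le_mul_of_nonneg_right _ (by linarith)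
    refine (abs_add_le _ _).trans ?_
    rw [abs_mul, abs_of_pos (by linarith : 0 < x1 + x2)]
    nlinarith [abs_nonneg (be θ)]
  have e2 : |ellv s v1 - ellv s v2| ≤
      ∫ θ in (0:ℝ)..(2 * Real.pi), (X (s θ) (v2 θ) ^ 2 - X (s θ) (v1 θ) ^ 2) := by
    unfold ellv
    rw [← intervalIntegral.integral_sub (by apply Continuous.intervalIntegrable; fun_prop)
        (by apply Continuous.intervalIntegrable; fun_prop)]
    refine (intervalIntegral.abs_integral_le_integral_abs (by positivity)).trans (le_of_eq ?_)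
    apply intervalIntegral.integral_congr
    intro θ _
    have a1 := X_pos (hs0 θ) (p1 θ)
    have a5 := hXle θ
    simp only
    rw [abs_of_nonpos (by nlinarith)]
    ring
  refine (add_le_add e1 (mul_le_mul_of_nonneg_left e2 hb.le)).trans (le_of_eq ?_)
  unfold clocks
  rw [← intervalIntegral.integral_const_mul,
    ← intervalIntegral.integral_sub (by apply Continuous.intervalIntegrable; fun_prop)
        (by apply Continuous.intervalIntegrable; fun_prop),
    ← intervalIntegral.integral_add (by apply Continuous.intervalIntegrable; fun_prop)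
        (by apply Continuous.intervalIntegrable; fun_prop)]
  apply intervalIntegral.integral_congr
  intro θ _
  simp only
  ring

lemma clocks_nonneg {κ b : ℝ} {s v : ℝ → ℝ} (hκ : 0 ≤ κ) (hb : 0 < b) (hs0 : ∀ θ, 0 < s θ)
    (hpos : ∀ θ, 0 < v θ) : 0 ≤ clocks κ b s v := by
  unfold clocks
  apply intervalIntegral.integral_nonneg (by positivity)
  intro θ _
  have := X_pos (hs0 θ) (hpos θ)
  positivity

lemma clocks_le {κ b xm : ℝ} {s v : ℝ → ℝ} (hκ : 0 ≤ κ) (hb : 0 < b) (hs : Continuous s)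
    (hs0 : ∀ θ, 0 < s θ) (hv : Continuous v) (hpos : ∀ θ, 0 < v θ)
    (hx : ∀ θ, X (s θ) (v θ) ≤ xm) :
    clocks κ b s v ≤ 2 * Real.pi * (κ * xm + b * xm ^ 2) := by
  have hX := continuous_Xs hs hs0 hv hpos
  unfold clocks
  have : 2 * Real.pi * (κ * xm + b * xm ^ 2) =
      ∫ θ in (0:ℝ)..(2 * Real.pi), (κ * xm + b * xm ^ 2) := by
    simp only [intervalIntegral.integral_const, smul_eq_mul]
    ring
  rw [this]
  apply intervalIntegral.integral_mono_on (by positivity)
    (by apply Continuous.intervalIntegrable; fun_prop)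
    (by apply Continuous.intervalIntegrable; fun_prop)
  intro θ _
  have h1 := X_pos (hs0 θ) (hpos θ)
  have h2 := hx θ
  have h4 := mul_le_mul_of_nonneg_left h2 hκ
  have h5 := mul_le_mul_of_nonneg_left (pow_le_pow_left₀ h1.le h2 2) hb.le
  linarith

lemma clocks_lt {κ b : ℝ} {s v1 v2 : ℝ → ℝ} (hκ : 0 ≤ κ) (hb : 0 < b) (hs : Continuous s)
    (hs0 : ∀ θ, 0 < s θ) (hv1 : Continuous v1) (hv2 : Continuous v2)
    (hpos : ∀ θ, 0 < v1 θ) (hle : ∀ θ, v1 θ < v2 θ) :
    clocks κ b s v1 < clocks κ b s v2 := by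
  have hpos2 : ∀ θ, 0 < v2 θ := fun θ => (hpos θ).trans (hle θ)
  have hX1 := continuous_Xs hs hs0 hv1 hpos
  have hX2 := continuous_Xs hs hs0 hv2 hpos2
  unfold clocks
  apply intervalIntegral.integral_lt_integral_of_continuousOn_of_le_of_exists_lt (by positivity)
    (by apply Continuous.continuousOn; fun_prop) (by apply Continuous.continuousOn; fun_prop)
  · intro θ _
    have a1 := X_mono (hs0 θ) (hpos θ) (hle θ).le
    have a2 := X_pos (hs0 θ) (hpos θ)
    have a4 := mul_le_mul_of_nonneg_left a1 hκ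
    have a5 := mul_le_mul_of_nonneg_left (pow_le_pow_left₀ a2.le a1 2) hb.le
    linarith
  · refine ⟨0, ⟨le_rfl, by positivity⟩, ?_⟩
    have a1 := X_strictMono (hs0 0) (hpos 0) (hle 0)
    have a2 := X_pos (hs0 0) (hpos 0)
    have a4 := mul_le_mul_of_nonneg_left a1.le hκ
    have a5 := mul_lt_mul_of_pos_left (pow_lt_pow_left₀ a1 a2.le (by norm_num : 2 ≠ 0)) hb
    linarith

/-- count over a window of the trace parameter -/
theorem count_window_s {m : ℝ} (hm : 0 < m) {G1 G2 al be s : ℝ → ℝ} (hG1 : Continuous G1)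
    (hG2 : Continuous G2) (hal : Continuous al) (hbe : Continuous be) (hs : Continuous s)
    (hs0 : ∀ θ, 0 < s θ) {κ : ℝ} (hκ : ∀ θ, |al θ| + 2 * |be θ| ≤ κ)
    (hident : ∀ μ v, PSol (fun θ => m * G1 θ) G2 (m * μ) v →
      μ * ellv s v = ∫ θ in (0:ℝ)..(2 * Real.pi),
        (al θ * X (s θ) (v θ) + be θ * X (s θ) (v θ) ^ 2))
    {a b xm l0 : ℝ} (ha : 0 ≤ a) (hab : a < b) (hxm : 0 ≤ xm) (hl0 : 0 < l0)
    (hx : ∀ μ v, a < μ → μ ≤ b → PSol (fun θ => m * G1 θ) G2 (m * μ) v →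
      ∀ θ, X (s θ) (v θ) ≤ xm)
    (hlow : ∀ μ v, a < μ → μ ≤ b → PSol (fun θ => m * G1 θ) G2 (m * μ) v → l0 ≤ ellv s v) :
    ∃ g : ℝ → ℝ≥0∞, Measurable g ∧
      (∀ μ : ℝ, a < μ → μ ≤ b →
        ((({v : ℝ → ℝ | PSol (fun θ => m * G1 θ) G2 (m * μ) v} :
          Set (ℝ → ℝ)).encard : ℕ∞) : ℝ≥0∞) ≤ g μ) ∧
      ∫⁻ t, g t ≤ ENNReal.ofReal (2 * Real.pi * (κ * xm + b * xm ^ 2) / l0) := by
  have hb : 0 < b := lt_of_le_of_lt ha hab
  have hκ0 : 0 ≤ κ := le_trans (by positivity) (hκ 0)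
  have hG1m : Continuous fun θ => m * G1 θ := continuous_const.mul hG1
  set Tm := 2 * Real.pi * (κ * xm + b * xm ^ 2) with hTm
  have hTm0 : 0 ≤ Tm := by positivity
  let ι := {p : ℝ × (ℝ → ℝ) // a < p.1 ∧ p.1 ≤ b ∧ PSol (fun θ => m * G1 θ) G2 (m * p.1) p.2}
  let τ : ι → ℝ := fun p => clocks κ b s p.1.2
  let f : ι → ℝ := fun p => p.1.1
  -- the basic inequality for ordered pairs
  have hpair : ∀ i j : ι, (∀ θ, i.1.2 θ < j.1.2 θ) → l0 * |f i - f j| ≤ τ j - τ i := by
    rintro ⟨⟨t1, v1⟩, h1a, h1b, h1⟩ ⟨⟨t2, v2⟩, h2a, h2b, h2⟩ hlt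
    simp only at h1a h1b h1 h2a h2b h2 hlt
    have hfl := flux_s hal hbe hκ hb hs hs0 h1.cont h2.cont h1.pos h2.pos (hident _ _ h1)
      (hident _ _ h2) hlt
    refine le_trans ?_ hfl
    show l0 * |t1 - t2| ≤ _
    have l1 := hlow _ _ h1a h1b h1
    have k1 : (t1 - t2) * ellv s v1 =
        (t1 * ellv s v1 - t2 * ellv s v2) - t2 * (ellv s v1 - ellv s v2) := by ring
    have k2 : |t1 - t2| * ellv s v1 ≤
        |t1 * ellv s v1 - t2 * ellv s v2| + b * |ellv s v1 - ellv s v2| := by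
      have hl1 : 0 ≤ ellv s v1 := hl0.le.trans l1
      calc |t1 - t2| * ellv s v1 = |(t1 - t2) * ellv s v1| := by
            rw [abs_mul, abs_of_nonneg hl1]
        _ ≤ |t1 * ellv s v1 - t2 * ellv s v2| + |t2 * (ellv s v1 - ellv s v2)| := by
            rw [k1]; exact abs_sub _ _
        _ ≤ _ := by
            rw [abs_mul, abs_of_pos (lt_of_le_of_lt ha h2a)]
            have := mul_le_mul_of_nonneg_right h2b (abs_nonneg (ellv s v1 - ellv s v2))
            linarith
    have k3 : l0 * |t1 - t2| ≤ |t1 - t2| * ellv s v1 := by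
      rw [mul_comm]; exact mul_le_mul_of_nonneg_left l1 (abs_nonneg _)
    linarith
  have hlt : ∀ i j : ι, (∀ θ, i.1.2 θ < j.1.2 θ) → τ i < τ j := by
    intro i j hij
    exact clocks_lt hκ0 hb hs hs0 i.2.2.2.cont j.2.2.2.cont i.2.2.2.pos hij
  have htri : ∀ i j : ι, i.1.2 = j.1.2 ∨ (∀ θ, i.1.2 θ < j.1.2 θ) ∨ (∀ θ, j.1.2 θ < i.1.2 θ) := by
    intro i j
    by_cases hij : i.1.2 = j.1.2
    · exact Or.inl hij
    · exact Or.inr (PSol.order hG1m hG2 i.2.2.2 j.2.2.2 hij)
  have hfeq : ∀ i j : ι, i.1.2 = j.1.2 → i = j := by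
    intro i j hij
    have h1 := i.2.2.2
    have h2 := j.2.2.2
    rw [← hij] at h2
    have h3 := mul_left_cancel₀ hm.ne' (h1.toGSol.mu_unique h2.toGSol)
    exact Subtype.ext (Prod.ext h3 hij)
  have hinj : Function.Injective τ := by
    intro i j hij
    rcases htri i j with h | h | h
    · exact hfeq i j h
    · exact absurd hij (hlt i j h).ne
    · exact absurd hij (hlt j i h).ne'
  have hLip : ∀ i j, |f i - f j| ≤ 1 / l0 * |τ i - τ j| := by
    intro i j
    rcases htri i j with h | h | h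
    · rw [hfeq i j h]; simp
    · have h1 := hpair i j h
      have h2 := hlt i j h
      rw [abs_sub_comm (τ i), abs_of_pos (by linarith : 0 < τ j - τ i), div_mul_eq_mul_div,
        one_mul, le_div_iff₀ hl0]
      linarith
    · have h1 := hpair j i h
      have h2 := hlt j i h
      rw [abs_sub_comm] at h1
      rw [abs_of_pos (by linarith : 0 < τ i - τ j), div_mul_eq_mul_div,
        one_mul, le_div_iff₀ hl0]
      linarith
  obtain ⟨g, hg1, hg2, hg3⟩ := indic_lip τ f hinj hTm0 (by positivity : (0:ℝ) ≤ 1 / l0)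
    (fun i => clocks_nonneg hκ0 hb hs0 i.2.2.2.pos)
    (fun i => clocks_le hκ0 hb hs hs0 i.2.2.2.cont i.2.2.2.pos
      (hx _ _ i.2.1 i.2.2.1 i.2.2.2)) hLip
  refine ⟨g, hg1, fun μ hμa hμb => ?_, ?_⟩
  · refine le_trans ?_ (hg2 μ)
    have hinjOn : InjOn (fun i : ι => i.1.2) {i | f i = μ} := by
      intro i _ j _ hij
      exact hfeq i j hij
    have himg : ({v : ℝ → ℝ | PSol (fun θ => m * G1 θ) G2 (m * μ) v} : Set (ℝ → ℝ)) ⊆
        (fun i : ι => i.1.2) '' {i | f i = μ} := by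
      intro v hv
      exact ⟨⟨(μ, v), hμa, hμb, hv⟩, rfl, rfl⟩
    have := (Set.encard_le_encard himg).trans_eq hinjOn.encard_image
    exact_mod_cast this
  · refine hg3.trans (le_of_eq ?_)
    congr 1
    ring

/-- closed orbits for a large trace parameter are far away, relatively to the scale -/
lemma PSol.X_le_of_mu {m : ℝ} (hm : 0 < m) {G1 G2 s s' : ℝ → ℝ} {μ : ℝ} (hμ : 0 < μ) {v : ℝ → ℝ}
    (h : PSol (fun θ => m * G1 θ) G2 (m * μ) v) (hs : ∀ θ, HasDerivAt s (s' θ) θ)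
    (hs0 : ∀ θ, 0 < s θ) (hsper : ∀ θ, s (θ + 2 * Real.pi) = s θ) {k : ℝ} (hk : 0 ≤ k)
    (h1 : ∀ θ, |G1 θ| ≤ k * s θ) (h2 : ∀ θ, |G2 θ| ≤ k * s θ) (h3 : ∀ θ, |s' θ| ≤ m * k * s θ)
    (θ : ℝ) : X (s θ) (v θ) ≤ (2 * k ^ 2 + 4 * k) / μ := by
  rcases lt_or_ge μ (2 * k) with hμk | hμk
  · refine (X_lt_one (hs0 θ) (h.pos θ)).le.trans ?_
    rw [le_div_iff₀ hμ]
    nlinarith
  have hsc : Continuous s := continuous_iff_continuousAt.2 fun θ => (hs θ).continuousAt
  set q : ℝ → ℝ := fun θ => v θ / s θ with hq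
  have hqc : Continuous q := h.cont.div hsc fun θ => (hs0 θ).ne'
  have hper : Function.Periodic q (2 * Real.pi) := by
    intro θ
    simp only [hq, h.per, hsper]
  obtain ⟨y, -, hy⟩ := (isCompact_Icc (a := 0) (b := 2 * Real.pi)).exists_isMaxOn
    ⟨0, le_rfl, by positivity⟩ hqc.continuousOn
  have hmax : ∀ x, q x ≤ q y := by
    intro x
    obtain ⟨z, hz, hze⟩ := hper.exists_mem_Ico₀ (by positivity) x
    rw [hze]
    exact hy ⟨hz.1, hz.2.le⟩
  have hloc : IsLocalMax q y := Filter.Eventually.of_forall hmax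
  have h0 := hloc.hasDerivAt_eq_zero ((h.deriv y).div (hs y) (hs0 y).ne')
  have p1 := h.pos y
  have p2 := h.pos' y
  have p3 := hs0 y
  have e0 : -(v y * (m * μ * v y + m * G1 y)) / (v y + G2 y) * s y - v y * s' y = 0 := by
    rcases div_eq_zero_iff.1 h0 with h4 | h4
    · exact h4
    · exact absurd h4 (by positivity)
  have e1 : m * (μ * v y + G1 y) * s y = -(s' y * (v y + G2 y)) := by
    have : -(v y * (m * μ * v y + m * G1 y)) / (v y + G2 y) * s y - v y * s' y =
        -(v y / (v y + G2 y)) * (m * (μ * v y + G1 y) * s y + s' y * (v y + G2 y)) := by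
      field_simp
      ring
    rw [this] at e0
    rcases mul_eq_zero.1 e0 with h4 | h4
    · have : 0 < v y / (v y + G2 y) := by positivity
      linarith
    · linarith
  have a1 := h1 y
  have a2 := h2 y
  have a3 := h3 y
  have e2 : -(s' y * (v y + G2 y)) ≤ m * k * s y * (v y + k * s y) := by
    have b1 : -(s' y * (v y + G2 y)) ≤ |s' y| * (v y + G2 y) := by
      have := neg_abs_le (s' y)
      nlinarith
    have b2 : |s' y| * (v y + G2 y) ≤ m * k * s y * (v y + G2 y) :=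
      mul_le_mul_of_nonneg_right a3 p2.le
    have b3 : v y + G2 y ≤ v y + k * s y := by
      have := le_abs_self (G2 y)
      linarith
    have b4 : m * k * s y * (v y + G2 y) ≤ m * k * s y * (v y + k * s y) :=
      mul_le_mul_of_nonneg_left b3 (by positivity)
    linarith
  have e3 : μ * v y + G1 y ≤ k * (v y + k * s y) := by
    have : m * s y * (μ * v y + G1 y) ≤ m * s y * (k * (v y + k * s y)) := by
      calc m * s y * (μ * v y + G1 y) = m * (μ * v y + G1 y) * s y := by ring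
        _ = -(s' y * (v y + G2 y)) := e1
        _ ≤ m * k * s y * (v y + k * s y) := e2
        _ = _ := by ring
    exact le_of_mul_le_mul_left this (by positivity)
  have e4 : (μ - k) * v y ≤ (k ^ 2 + k) * s y := by
    have := neg_abs_le (G1 y)
    nlinarith
  have e5 : q y ≤ 2 * (k ^ 2 + k) / μ := by
    simp only [hq]
    rw [div_le_div_iff₀ p3 hμ]
    have : μ / 2 * v y ≤ (μ - k) * v y := mul_le_mul_of_nonneg_right (by linarith) p1.le
    linarith
  have e6 : X (s θ) (v θ) ≤ q θ := by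
    unfold X
    simp only [hq]
    exact div_le_div_of_nonneg_left (h.pos θ).le (hs0 θ) (by linarith [h.pos θ])
  refine e6.trans ((hmax θ).trans (e5.trans ?_))
  apply div_le_div_of_nonneg_right _ hμ.le
  nlinarith

theorem tI : StI := by
  intro k hk
  set Q := 2 * k ^ 2 + 4 * k with hQ
  set κ := 6 * k + 4 * k ^ 2 with hκdef
  have hQ0 : 0 ≤ Q := by positivity
  have hκ0 : 0 ≤ κ := by positivity
  refine ⟨4 * Real.pi * (κ + 1) + 20 * Real.pi * (κ * Q + 2 * Q ^ 2), by positivity, ?_⟩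
  intro m G1 G2 G2' s s' hm hG1 hG2 hG2' hper2 hs hs' hs0 hsper h1 h2 h3 h4 c hc hlow M hM
  have hsc : Continuous s := continuous_iff_continuousAt.2 fun θ => (hs θ).continuousAt
  have hG2c : Continuous G2 := continuous_iff_continuousAt.2 fun θ => (hG2 θ).continuousAt
  set al : ℝ → ℝ := fun θ => G2' θ / (m * s θ) - G1 θ / s θ - 2 * G2 θ * s' θ / (m * s θ ^ 2)
    with hal
  set be : ℝ → ℝ := fun θ => G1 θ / s θ - s' θ / (m * s θ) + G2 θ * s' θ / (m * s θ ^ 2) with hbe
  have hcal : Continuous al := by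
    refine ((hG2'.div (by fun_prop) fun θ => ?_).sub (hG1.div hsc fun θ => (hs0 θ).ne')).sub
      (Continuous.div (by fun_prop) (by fun_prop) fun θ => ?_)
    · have := hs0 θ
      positivity
    · have := hs0 θ
      positivity
  have hcbe : Continuous be := by
    refine ((hG1.div hsc fun θ => (hs0 θ).ne').sub (hs'.div (by fun_prop) fun θ => ?_)).add
      (Continuous.div (by fun_prop) (by fun_prop) fun θ => ?_)
    · have := hs0 θ
      positivity
    · have := hs0 θ
      positivity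
  have hκb : ∀ θ, |al θ| + 2 * |be θ| ≤ κ := by
    intro θ
    have p := hs0 θ
    have b1 : |G1 θ / s θ| ≤ k := by
      rw [abs_div, abs_of_pos p, div_le_iff₀ p]; exact h1 θ
    have b2 : |G2' θ / (m * s θ)| ≤ k := by
      rw [abs_div, abs_of_pos (by positivity : 0 < m * s θ), div_le_iff₀ (by positivity)]
      calc _ ≤ m * k * s θ := h3 θ
        _ = _ := by ring
    have b3 : |s' θ / (m * s θ)| ≤ k := by
      rw [abs_div, abs_of_pos (by positivity : 0 < m * s θ), div_le_iff₀ (by positivity)]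
      calc _ ≤ m * k * s θ := h4 θ
        _ = _ := by ring
    have b4 : |G2 θ / s θ| ≤ k := by
      rw [abs_div, abs_of_pos p, div_le_iff₀ p]; exact h2 θ
    have b5 : |G2 θ * s' θ / (m * s θ ^ 2)| ≤ k ^ 2 := by
      have : G2 θ * s' θ / (m * s θ ^ 2) = (G2 θ / s θ) * (s' θ / (m * s θ)) := by
        field_simp
      rw [this, abs_mul, sq]
      exact mul_le_mul b4 b3 (abs_nonneg _) hk
    have b6 : |2 * G2 θ * s' θ / (m * s θ ^ 2)| ≤ 2 * k ^ 2 := by
      have : 2 * G2 θ * s' θ / (m * s θ ^ 2) = 2 * (G2 θ * s' θ / (m * s θ ^ 2)) := by ring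
      rw [this, abs_mul, abs_two]
      linarith
    have c1 : |al θ| ≤ k + k + 2 * k ^ 2 := by
      simp only [hal]
      refine (abs_sub _ _).trans (add_le_add ((abs_sub _ _).trans (add_le_add b2 b1)) b6)
    have c2 : |be θ| ≤ k + k + k ^ 2 := by
      simp only [hbe]
      refine (abs_add_le _ _).trans (add_le_add ((abs_sub _ _).trans (add_le_add b1 b3)) b5)
    rw [hκdef]
    linarith
  have hident : ∀ μ v, PSol (fun θ => m * G1 θ) G2 (m * μ) v →
      μ * ellv s v = ∫ θ in (0:ℝ)..(2 * Real.pi),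
        (al θ * X (s θ) (v θ) + be θ * X (s θ) (v θ) ^ 2) := by
    intro μ v h
    have hG1m : Continuous fun θ => m * G1 θ := continuous_const.mul hG1
    have e1 := h.identity_s hG1m hG2 hG2' hper2 hs hs' hs0 hsper
    have e2 : ∫ θ in (0:ℝ)..(2 * Real.pi),
        ((G2' θ / s θ - m * G1 θ / s θ - 2 * G2 θ * s' θ / s θ ^ 2) * X (s θ) (v θ) +
        (m * G1 θ / s θ - s' θ / s θ + G2 θ * s' θ / s θ ^ 2) * X (s θ) (v θ) ^ 2) =
        m * ∫ θ in (0:ℝ)..(2 * Real.pi),
        (al θ * X (s θ) (v θ) + be θ * X (s θ) (v θ) ^ 2) := by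
      rw [← intervalIntegral.integral_const_mul]
      apply intervalIntegral.integral_congr
      intro θ _
      have := hs0 θ
      simp only [hal, hbe]
      field_simp
    rw [e2, mul_assoc] at e1
    exact mul_left_cancel₀ hm.ne' e1
  -- first window
  obtain ⟨g0, hg01, hg02, hg03⟩ := count_window_s hm hG1 hG2c hcal hcbe hsc hs0 hκb hident
    (a := 0) (b := 1) (xm := 1) (l0 := c / 2) le_rfl one_pos zero_le_one (by positivity)
    (fun μ v _ _ h θ => (X_lt_one (hs0 θ) (h.pos θ)).le)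
    (fun μ v h1 h2 h => by
      refine le_trans ?_ (hlow μ v h1 h)
      apply div_le_div_of_nonneg_left hc.le (by positivity)
      nlinarith)
  -- dyadic windows
  have hwin : ∀ j : ℕ, ∃ g : ℝ → ℝ≥0∞, Measurable g ∧
      (∀ μ : ℝ, 2 ^ j < μ → μ ≤ 2 ^ (j + 1) →
        ((({v : ℝ → ℝ | PSol (fun θ => m * G1 θ) G2 (m * μ) v} :
          Set (ℝ → ℝ)).encard : ℕ∞) : ℝ≥0∞) ≤ g μ) ∧
      ∫⁻ t, g t ≤ ENNReal.ofReal (5 * 2 ^ j * (2 * Real.pi * (κ * Q + 2 * Q ^ 2)) / c) := by
    intro j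
    have h2k : (0:ℝ) < 2 ^ j := by positivity
    have h2k1 : (1:ℝ) ≤ 2 ^ j := one_le_pow₀ (by norm_num)
    obtain ⟨g, hg1, hg2, hg3⟩ := count_window_s hm hG1 hG2c hcal hcbe hsc hs0 hκb hident
      (a := 2 ^ j) (b := 2 ^ (j + 1)) (xm := Q / 2 ^ j) (l0 := c / (1 + (2 ^ (j + 1)) ^ 2)) h2k.le
      (by rw [pow_succ]; linarith) (by positivity) (by positivity)
      (fun μ v g1 _ h θ => by
        have g3 := h.X_le_of_mu hm (h2k.trans g1) hs hs0 hsper hk h1 h2 h4 θ
        exact g3.trans (div_le_div_of_nonneg_left hQ0 h2k g1.le))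
      (fun μ v g1 g2 h => by
        refine le_trans ?_ (hlow μ v (h2k.trans g1) h)
        apply div_le_div_of_nonneg_left hc.le (by positivity)
        have := pow_le_pow_left₀ (h2k.trans g1).le g2 2
        linarith)
    refine ⟨g, hg1, hg2, hg3.trans (ENNReal.ofReal_le_ofReal ?_)⟩
    have e1 : 2 * Real.pi * (κ * (Q / 2 ^ j) + 2 ^ (j + 1) * (Q / 2 ^ j) ^ 2) /
        (c / (1 + (2 ^ (j + 1)) ^ 2)) =
        (2 * Real.pi * (κ * Q + 2 * Q ^ 2)) * ((1 + 4 * (2 ^ j) ^ 2) / 2 ^ j) / c := by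
      rw [pow_succ]
      field_simp
      ring
    rw [e1]
    apply div_le_div_of_nonneg_right _ hc.le
    have e2 : (1 + 4 * ((2:ℝ) ^ j) ^ 2) / 2 ^ j ≤ 5 * 2 ^ j := by
      rw [div_le_iff₀ h2k]
      nlinarith
    calc (2 * Real.pi * (κ * Q + 2 * Q ^ 2)) * ((1 + 4 * (2 ^ j) ^ 2) / 2 ^ j)
        ≤ (2 * Real.pi * (κ * Q + 2 * Q ^ 2)) * (5 * 2 ^ j) :=
          mul_le_mul_of_nonneg_left e2 (by positivity)
      _ = 5 * 2 ^ j * (2 * Real.pi * (κ * Q + 2 * Q ^ 2)) := by ring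
  choose g hg1 hg2 hg3 using hwin
  obtain ⟨n, hn1, hn2⟩ := exists_nat_pow_near hM (by norm_num : (1:ℝ) < 2)
  refine ⟨fun μ => g0 μ + ∑ k ∈ Finset.range (n + 1), g k μ, ?_, ?_, ?_⟩
  · exact hg01.add (Finset.measurable_fun_sum _ fun k _ => hg1 k)
  · intro μ hμ0 hμM
    rcases le_or_gt μ 1 with h1 | h1
    · exact (hg02 μ hμ0 h1).trans le_self_add
    · -- the window of `μ`
      obtain ⟨j, hj1, hj2⟩ : ∃ j : ℕ, (2:ℝ) ^ j < μ ∧ μ ≤ 2 ^ (j + 1) := by
        obtain ⟨j, hj1, hj2⟩ := exists_nat_pow_near h1.le (by norm_num : (1:ℝ) < 2)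
        rcases eq_or_lt_of_le hj1 with h | h
        · rcases j with _ | j
          · rw [pow_zero] at h; linarith
          · refine ⟨j, ?_, h.ge⟩
            rw [← h, pow_succ]
            have : (0:ℝ) < 2 ^ j := by positivity
            linarith
        · exact ⟨j, h, hj2.le⟩
      have hjn : j < n + 1 := by
        by_contra hc
        push Not at hc
        have := pow_le_pow_right₀ (by norm_num : (1:ℝ) ≤ 2) hc
        linarith
      calc _ ≤ g j μ := hg2 j μ hj1 hj2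
        _ ≤ ∑ k ∈ Finset.range (n + 1), g k μ :=
            Finset.single_le_sum (f := fun k => g k μ) (fun _ _ => zero_le)
              (Finset.mem_range.2 hjn)
        _ ≤ _ := le_add_self
  · rw [lintegral_add_left hg01, lintegral_finsetSum _ (fun k _ => hg1 k)]
    set R := 2 * Real.pi * (κ * Q + 2 * Q ^ 2) with hR
    have hR0 : 0 ≤ R := by positivity
    have h1 : ∑ k ∈ Finset.range (n + 1), ∫⁻ t, g k t ≤
        ENNReal.ofReal (∑ k ∈ Finset.range (n + 1), 5 * 2 ^ k * R / c) := by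
      rw [ENNReal.ofReal_sum_of_nonneg (fun k _ => by positivity)]
      exact Finset.sum_le_sum fun k _ => hg3 k
    have h2 : ∑ k ∈ Finset.range (n + 1), 5 * 2 ^ k * R / c ≤ 10 * R * M / c := by
      have : ∀ k : ℕ, 5 * (2:ℝ) ^ k * R / c = 5 * R / c * 2 ^ k := fun k => by ring
      simp_rw [this]
      rw [← Finset.mul_sum, geom_sum_eq (by norm_num), pow_succ]
      have h3 : ((2:ℝ) ^ n * 2 - 1) / (2 - 1) ≤ 2 * M := by
        rw [div_le_iff₀ (by norm_num)]; linarith
      calc 5 * R / c * (((2:ℝ) ^ n * 2 - 1) / (2 - 1)) ≤ 5 * R / c * (2 * M) :=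
            mul_le_mul_of_nonneg_left h3 (by positivity)
        _ = 10 * R * M / c := by ring
    have h0 : ∫⁻ t, g0 t ≤ ENNReal.ofReal (4 * Real.pi * (κ + 1) * M / c) := by
      refine hg03.trans (ENNReal.ofReal_le_ofReal ?_)
      have e1 : 2 * Real.pi * (κ * 1 + 1 * 1 ^ 2) / (c / 2) = 4 * Real.pi * (κ + 1) / c := by
        field_simp
        ring
      rw [e1]
      apply div_le_div_of_nonneg_right _ hc.le
      have e3 : 0 ≤ 4 * Real.pi * (κ + 1) := by positivity
      nlinarith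
    calc _ ≤ ENNReal.ofReal (4 * Real.pi * (κ + 1) * M / c) +
          ENNReal.ofReal (10 * R * M / c) :=
          add_le_add h0 (h1.trans (ENNReal.ofReal_le_ofReal h2))
      _ = ENNReal.ofReal (4 * Real.pi * (κ + 1) * M / c + 10 * R * M / c) :=
          (ENNReal.ofReal_add (by positivity) (by positivity)).symm
      _ = _ := by congr 1; rw [hR]; ring

end

end Pool.Agent.H811R2.Quad
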