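import Pool.Agent.H811R2.T.I

/-! Assembly: counts for the homogeneous family of even degree, uniformly in the degree. -/

open Set MeasureTheory Topology Filter
open scoped ENNReal

namespace Pool.Agent.H811R2.Quad

noncomputable section

lemma j_differentiable_GC (n : ℕ) (c : ℕ → ℂ) : Differentiable ℂ (GC n c) := by
  unfold GC
  have h1 := differentiable_Pc n c
  have h2 : Differentiable ℂ fun z : ℂ => Pc n c (Complex.exp (2 * z * Complex.I)) :=
    h1.comp (by fun_prop)
  fun_prop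

lemma j_GC_bound (n : ℕ) (c : ℕ → ℂ) : ∃ K : ℝ, ∀ z : ℂ,
    ‖GC n c z‖ ≤ K * Real.exp ((n + 1) * |z.im|) := by
  set κ := ∑ j ∈ Finset.range (n + 1), ‖c j‖ with hκ
  have hκ0 : 0 ≤ κ := Finset.sum_nonneg fun j _ => norm_nonneg _
  have h1 : ∀ w : ℂ, ‖w‖ = 1 → ‖Pc n c w‖ ≤ κ := by
    intro w hw
    unfold Pc
    refine (norm_sum_le _ _).trans (Finset.sum_le_sum fun j _ => ?_)
    rw [norm_mul, norm_pow, hw, one_pow, mul_one]
  refine ⟨κ, fun z => ?_⟩
  have e1 : ‖Complex.exp (2 * z * Complex.I)‖ = Real.exp (-2 * z.im) := by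
    rw [Complex.norm_exp]
    congr 1
    simp
  have e2 : ‖Complex.exp (-((n + 1 : ℕ) * z) * Complex.I)‖ = Real.exp ((n + 1) * z.im) := by
    rw [Complex.norm_exp]
    congr 1
    simp
  unfold GC
  rw [norm_mul, e2]
  rcases le_total 0 z.im with hz | hz
  · have h2 : ‖Pc n c (Complex.exp (2 * z * Complex.I))‖ ≤ κ := by
      apply Pc_le_disc h1
      rw [e1]
      apply Real.exp_le_one_iff.2
      linarith
    rw [abs_of_nonneg hz, mul_comm κ]
    exact mul_le_mul_of_nonneg_left h2 (Real.exp_pos _).le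
  · have h2 : ‖Pc n c (Complex.exp (2 * z * Complex.I))‖ ≤ Real.exp (-2 * z.im) ^ n * κ := by
      apply Pc_le h1
      · apply Real.one_le_exp
        linarith
      · rw [e1]
    rw [abs_of_nonpos hz]
    calc Real.exp ((n + 1) * z.im) * ‖Pc n c (Complex.exp (2 * z * Complex.I))‖
        ≤ Real.exp ((n + 1) * z.im) * (Real.exp (-2 * z.im) ^ n * κ) :=
          mul_le_mul_of_nonneg_left h2 (Real.exp_pos _).le
      _ = κ * Real.exp ((n + 1) * z.im + n * (-2 * z.im)) := by
          rw [← Real.exp_nat_mul, Real.exp_add]; ring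
      _ ≤ κ * Real.exp ((n + 1) * -z.im) := by
          apply mul_le_mul_of_nonneg_left _ hκ0
          apply Real.exp_le_exp.2
          linarith

lemma j_GC_anti {n : ℕ} (hn : Even n) (c : ℕ → ℂ) (z : ℂ) :
    GC n c (z + Real.pi) = -GC n c z := by
  unfold GC
  have h2 : Complex.exp (2 * (z + Real.pi) * Complex.I) = Complex.exp (2 * z * Complex.I) := by
    rw [show 2 * (z + Real.pi) * Complex.I = 2 * z * Complex.I +
      2 * Real.pi * Complex.I by ring, Complex.exp_periodic]
  have h1 : Complex.exp (-((n + 1 : ℕ) * (z + Real.pi)) * Complex.I) =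
      -Complex.exp (-((n + 1 : ℕ) * z) * Complex.I) := by
    obtain ⟨k, hk⟩ := hn
    have e : -(((n + 1 : ℕ) : ℂ) * (z + Real.pi)) * Complex.I =
        -(((n + 1 : ℕ) : ℂ) * z) * Complex.I - Real.pi * Complex.I -
          (k : ℕ) * (2 * Real.pi * Complex.I) := by
      rw [hk]; push_cast; ring
    rw [e, Complex.exp_periodic.sub_nat_mul_eq, Complex.exp_sub, Complex.exp_pi_mul_I]
    ring
  rw [h1, h2]
  ring

lemma j_exists_GC_ne {n : ℕ} {c : ℕ → ℂ} (h : ∃ w, Pc n c w ≠ 0) : ∃ z, GC n c z ≠ 0 := by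
  by_contra hcon
  push Not at hcon
  have h1 : ∀ w : ℂ, w ≠ 0 → Pc n c w = 0 := by
    intro w hw
    have h2 := hcon (Complex.log w / (2 * Complex.I))
    unfold GC at h2
    have e : Complex.exp (2 * (Complex.log w / (2 * Complex.I)) * Complex.I) = w := by
      rw [show 2 * (Complex.log w / (2 * Complex.I)) * Complex.I = Complex.log w by
        have := Complex.I_ne_zero
        field_simp]
      exact Complex.exp_log hw
    rw [e] at h2
    exact (mul_eq_zero.1 h2).resolve_left (Complex.exp_ne_zero _)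
  have h3 : Pc n c = fun _ => 0 := by
    apply Continuous.ext_on (dense_compl_singleton (0:ℂ)) (differentiable_Pc n c).continuous
      continuous_const
    intro w hw
    exact h1 w hw
  obtain ⟨w, hw⟩ := h
  exact hw (congrFun h3 w)

lemma j_deriv_GC (n : ℕ) (c : ℕ → ℂ) (θ : ℝ) : deriv (GC n c) (θ : ℂ) = Gn' n c θ := by
  have h1 : HasDerivAt (fun x : ℝ => GC n c (x : ℂ)) (deriv (GC n c) (θ : ℂ)) θ :=
    ((j_differentiable_GC n c (θ : ℂ)).hasDerivAt).comp_ofReal
  exact h1.unique (hasDerivAt_Gn n c θ)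

lemma j_re_im {w : ℂ} : 7 / 10 * ‖w‖ ≤ |w.re| ∨ 7 / 10 * ‖w‖ ≤ |w.im| := by
  by_contra hcon
  push Not at hcon
  obtain ⟨h1, h2⟩ := hcon
  have h3 : ‖w‖ ^ 2 = |w.re| ^ 2 + |w.im| ^ 2 := by
    rw [← Complex.normSq_eq_norm_sq, Complex.normSq_apply, sq_abs, sq_abs]; ring
  have h4 := pow_lt_pow_left₀ h1 (abs_nonneg _) (by norm_num : 2 ≠ 0)
  have h5 := pow_lt_pow_left₀ h2 (abs_nonneg _) (by norm_num : 2 ≠ 0)
  nlinarith [sq_nonneg ‖w‖]

/-- the scale and the lower bound of the weighted length, uniformly in the degree -/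
theorem j_low (hE : StE) (hF : StF) (hG : StG) (hH : StH) :
    ∃ k c₀ : ℝ, 0 ≤ k ∧ 0 < c₀ ∧ ∀ (m : ℕ) (c : ℕ → ℂ), 1 ≤ m → Even (m + 1) →
      (∃ w, Pc (m + 1) c w ≠ 0) →
      ∃ s s' : ℝ → ℝ, (∀ θ, HasDerivAt s (s' θ) θ) ∧ Continuous s' ∧ (∀ θ, 0 < s θ) ∧
        (∀ θ, s (θ + 2 * Real.pi) = s θ) ∧ (∀ θ, |(Gn (m + 1) c θ).re| ≤ k * s θ) ∧
        (∀ θ, |(Gn (m + 1) c θ).im| ≤ k * s θ) ∧
        (∀ θ, |(Gn' (m + 1) c θ).im| ≤ m * k * s θ) ∧ (∀ θ, |s' θ| ≤ m * k * s θ) ∧
        ∀ μ v, 0 < μ → PSol (fun θ => m * (Gn (m + 1) c θ).re) (fun θ => (Gn (m + 1) c θ).im)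
          (m * μ) v → c₀ / (1 + μ ^ 2) ≤ ellv s v := by
  obtain ⟨B, hB1, hB⟩ := hE
  set S := 8 * Real.exp B with hS
  have hexpB : 1 ≤ Real.exp B := Real.one_le_exp (by linarith)
  have hS1 : 1 ≤ S := by rw [hS]; linarith
  set e₀ := 1 / (256 * B * Real.exp B) with he₀
  have he₀0 : 0 < e₀ := by positivity
  refine ⟨32 * B, e₀ ^ 2 / (800 * S ^ 2), by positivity, by positivity, ?_⟩
  intro m c hm1 hev hne
  set n := m + 1 with hn
  have hmR : (1:ℝ) ≤ m := by exact_mod_cast hm1
  have hnR : (n:ℝ) = m + 1 := by rw [hn]; push_cast; ring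
  have hn1 : 1 ≤ n := by omega
  obtain ⟨E, hEm, hEsub, hEvol, hEty⟩ := hB n c hn1 hne
  set b := 2 * B * n with hb
  have hnR1 : (1:ℝ) ≤ n := by rw [hnR]; linarith
  have hb0 : 0 < b := by positivity
  have hbn : (n:ℝ) + 1 ≤ b := by rw [hb]; nlinarith
  obtain ⟨K, hK⟩ := j_GC_bound n c
  obtain ⟨s, s', hs'c, hsd, hs0, hsπ, hs'b, hsg, hsg', hst⟩ := hF (GC n c) (n + 1) b K
    (j_differentiable_GC n c) (by positivity) hbn hK
    (fun z => by rw [j_GC_anti hev, norm_neg]) (j_exists_GC_ne hne)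
  have hsc : Continuous s := continuous_iff_continuousAt.2 fun θ => (hsd θ).continuousAt
  have h8b : 8 * b ≤ m * (32 * B) := by
    rw [hb, hnR]
    nlinarith
  have h3k : (3:ℝ) ≤ 32 * B := by linarith
  have hsper : ∀ θ, s (θ + 2 * Real.pi) = s θ := by
    intro θ
    rw [show θ + 2 * Real.pi = (θ + Real.pi) + Real.pi by ring, hsπ, hsπ]
  refine ⟨s, s', hsd, hs'c, hs0, hsper, ?_, ?_, ?_, ?_, ?_⟩
  · intro θ
    refine (Complex.abs_re_le_norm _).trans ((hsg θ).trans ?_)
    exact mul_le_mul_of_nonneg_right h3k (hs0 θ).le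
  · intro θ
    refine (Complex.abs_im_le_norm _).trans ((hsg θ).trans ?_)
    exact mul_le_mul_of_nonneg_right h3k (hs0 θ).le
  · intro θ
    refine (Complex.abs_im_le_norm _).trans ?_
    rw [← j_deriv_GC]
    refine (hsg' θ).trans ?_
    exact mul_le_mul_of_nonneg_right h8b (hs0 θ).le
  · intro θ
    refine (hs'b θ).trans ?_
    exact mul_le_mul_of_nonneg_right h8b (hs0 θ).le
  · intro μ v hμ hv
    set G1 : ℝ → ℝ := fun θ => (Gn n c θ).re with hG1
    set G2 : ℝ → ℝ := fun θ => (Gn n c θ).im with hG2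
    have hanti1 : ∀ θ, G1 (θ + Real.pi) = -G1 θ := by
      intro θ; simp only [hG1, Gn_anti hev, Complex.neg_re]
    have hanti2 : ∀ θ, G2 (θ + Real.pi) = -G2 θ := by
      intro θ; simp only [hG2, Gn_anti hev, Complex.neg_im]
    set η := 1 / (32 * Real.exp B * b) with hη
    have hη0 : 0 < η := by positivity
    have hη1 : η ≤ 1 / b := by
      rw [hη]
      apply one_div_le_one_div_of_le hb0
      nlinarith
    have hmη : e₀ ≤ m * η := by
      rw [hη, he₀, hb, hnR, mul_one_div, div_le_div_iff₀ (by positivity) (by positivity)]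
      have : (0:ℝ) ≤ B * Real.exp B := by positivity
      nlinarith
    have hmη1 : m * η ≤ 1 := by
      rw [hη, mul_one_div, div_le_one (by positivity), hb, hnR]
      have h1 : (1:ℝ) ≤ Real.exp B * B := by nlinarith
      have h2 : (m:ℝ) ≤ (Real.exp B * B) * (m + 1) := by nlinarith
      nlinarith
    set f : ℝ → ℝ := fun θ => X (s θ) (v θ) ^ 2 + X (s θ) (v (θ + Real.pi)) ^ 2 with hf
    have hXc := continuous_Xs hsc hs0 hv.cont hv.pos
    have hXc2 : Continuous fun θ => X (s θ) (v (θ + Real.pi)) :=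
      continuous_Xs (v := fun θ => v (θ + Real.pi)) hsc hs0
        (hv.cont.comp (continuous_id.add continuous_const)) (fun θ => hv.pos _)
    have hfc : Continuous f := (hXc.pow 2).add (hXc2.pow 2)
    have hf0 : ∀ x, 0 ≤ f x := fun x => by simp only [hf]; positivity
    have hfper : ∀ x, f (x + Real.pi) = f x := by
      intro x
      simp only [hf, hsπ]
      rw [show x + Real.pi + Real.pi = x + 2 * Real.pi by ring, hv.per]
      ring
    set β := η * (m * η) ^ 2 / (400 * S ^ 2 * (1 + μ ^ 2)) with hβ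
    have hβ0 : 0 ≤ β := by positivity
    have hwin : ∀ θ0 ∈ E, β ≤ ∫ x in (θ0 - η)..(θ0 + η), f x := by
      intro θ0 hθ0
      have hty := hEty θ0 hθ0
      set γ := ‖GC n c θ0‖ with hγ
      have hγ0 : 0 < γ := by
        rcases eq_or_lt_of_le (norm_nonneg (GC n c θ0)) with h | h
        · exfalso
          obtain ⟨z, hz⟩ := j_exists_GC_ne hne
          have := hty z
          rw [hγ, ← h, mul_zero] at this
          exact hz (norm_le_zero_iff.1 this)
        · exact h
      have hst' := hst θ0 (Real.exp B * γ) (fun z => by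
        refine (hty z).trans ?_
        rw [Real.exp_add]
        have h1 : Real.exp (B * n * ‖z - θ0‖) ≤ Real.exp (b * ‖z - θ0‖) := by
          apply Real.exp_le_exp.2
          apply mul_le_mul_of_nonneg_right _ (norm_nonneg _)
          rw [hb]
          nlinarith
        calc Real.exp B * Real.exp (B * n * ‖z - θ0‖) * γ
            = Real.exp B * γ * Real.exp (B * n * ‖z - θ0‖) := by ring
          _ ≤ _ := mul_le_mul_of_nonneg_left h1 (by positivity))
      have hwθ : ∀ θ ∈ Icc (θ0 - η) (θ0 + η), |θ - θ0| ≤ η := by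
        intro θ hθ
        rw [abs_le]
        constructor <;> linarith [hθ.1, hθ.2]
      have hvar : ∀ θ ∈ Icc (θ0 - η) (θ0 + η), ‖Gn n c θ - Gn n c θ0‖ ≤ γ / 4 := by
        intro θ hθ
        have h1 := Convex.norm_image_sub_le_of_norm_hasDerivWithin_le
          (s := Icc (θ0 - η) (θ0 + η)) (f := Gn n c) (f' := Gn' n c)
          (C := 8 * b * (Real.exp B * γ)) (x := θ0) (y := θ)
          (fun x _ => (hasDerivAt_Gn n c x).hasDerivWithinAt)
          (fun x hx => by
            rw [← j_deriv_GC]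
            exact (hst' x ((hwθ x hx).trans hη1)).2)
          (convex_Icc _ _) ⟨by linarith, by linarith⟩ hθ
        refine h1.trans ?_
        rw [Real.norm_eq_abs]
        calc 8 * b * (Real.exp B * γ) * |θ - θ0| ≤ 8 * b * (Real.exp B * γ) * η :=
              mul_le_mul_of_nonneg_left (hwθ θ hθ) (by positivity)
          _ = γ / 4 := by rw [hη]; field_simp; norm_num
      apply hG m μ G1 G2 v s (by linarith) hμ hanti1 hanti2 hv hsc hs0 hsπ θ0 η γ S hη0 hmη1 hγ0
        hS1
      · intro θ hθ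
        have := (hst' θ ((hwθ θ hθ).trans hη1)).1
        rw [hS]
        linarith
      · have hγ' : γ = ‖Gn n c θ0‖ := rfl
        rcases j_re_im (w := Gn n c θ0) with h | h
        · rcases le_total 0 (Gn n c θ0).re with h0 | h0
          · left
            intro θ hθ
            have h1 := (Complex.abs_re_le_norm (Gn n c θ - Gn n c θ0)).trans (hvar θ hθ)
            rw [Complex.sub_re] at h1
            rw [abs_of_nonneg h0, ← hγ'] at h
            have := (abs_le.1 h1).1
            simp only [hG1]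
            linarith
          · right; left
            intro θ hθ
            have h1 := (Complex.abs_re_le_norm (Gn n c θ - Gn n c θ0)).trans (hvar θ hθ)
            rw [Complex.sub_re] at h1
            rw [abs_of_nonpos h0, ← hγ'] at h
            have := (abs_le.1 h1).2
            simp only [hG1]
            linarith
        · right; right
          intro θ hθ
          have h1 := (Complex.abs_im_le_norm (Gn n c θ - Gn n c θ0)).trans (hvar θ hθ)
          rw [Complex.sub_im] at h1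
          rw [← hγ'] at h
          have h2 := abs_sub_abs_le_abs_sub (Gn n c θ0).im (Gn n c θ).im
          rw [abs_sub_comm] at h2
          simp only [hG2]
          linarith
    have hav := hH f hfc hf0 hfper E hEm hEsub η β hη0 hβ0 hwin
    have hvol : 1 ≤ (volume E).toReal := by
      have h1 : volume E ≠ ⊤ := by
        apply ne_top_of_le_ne_top _ (measure_mono hEsub)
        rw [Real.volume_Icc]
        exact ENNReal.ofReal_ne_top
      have h2 := ENNReal.toReal_mono h1 hEvol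
      rwa [ENNReal.toReal_ofReal zero_le_one] at h2
    have hell : ellv s v = ∫ x in (0:ℝ)..Real.pi, f x := by
      unfold ellv
      simp only [hf]
      rw [intervalIntegral.integral_add (by apply Continuous.intervalIntegrable; exact hXc.pow 2)
        (by apply Continuous.intervalIntegrable; exact hXc2.pow 2)]
      have e1 : ∫ x in (0:ℝ)..Real.pi, X (s x) (v (x + Real.pi)) ^ 2 =
          ∫ x in (0:ℝ)..Real.pi, (fun y => X (s y) (v y) ^ 2) (x + Real.pi) := by
        apply intervalIntegral.integral_congr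
        intro x _
        simp only [hsπ]
      have e3 := intervalIntegral.integral_add_adjacent_intervals (a := 0) (b := Real.pi)
        (c := Real.pi + Real.pi) (f := fun y => X (s y) (v y) ^ 2) (μ := volume)
        (Continuous.intervalIntegrable (hXc.pow 2) _ _)
        (Continuous.intervalIntegrable (hXc.pow 2) _ _)
      rw [e1, intervalIntegral.integral_comp_add_right (fun y => X (s y) (v y) ^ 2) Real.pi,
        zero_add, e3]
      congr 1
      ring
    rw [hell]
    have h1 : β ≤ 2 * η * ∫ x in (0:ℝ)..Real.pi, f x := by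
      refine le_trans ?_ hav
      nlinarith
    have h2 : β / (2 * η) ≤ ∫ x in (0:ℝ)..Real.pi, f x := by
      rw [div_le_iff₀ (by positivity)]
      linarith
    refine le_trans ?_ h2
    have h3 : β / (2 * η) = (m * η) ^ 2 / (800 * S ^ 2) / (1 + μ ^ 2) := by
      rw [hβ]
      field_simp
      ring
    rw [h3]
    apply div_le_div_of_nonneg_right _ (by positivity)
    apply div_le_div_of_nonneg_right _ (by positivity)
    exact pow_le_pow_left₀ he₀0.le hmη 2

/-- half of the count, uniformly in the degree -/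
theorem j_half (hE : StE) (hF : StF) (hG : StG) (hH : StH) :
    ∃ K : ℝ, 0 ≤ K ∧ ∀ (m : ℕ) (c : ℕ → ℂ), 1 ≤ m → Even (m + 1) → ∀ M : ℝ, 1 ≤ M →
      ∃ g : ℝ → ℝ≥0∞, Measurable g ∧
        (∀ μ : ℝ, 0 < μ → μ ≤ M →
          ((({v : ℝ → ℝ | PSol (fun θ => m * (Gn (m + 1) c θ).re)
            (fun θ => (Gn (m + 1) c θ).im) (m * μ) v} :
            Set (ℝ → ℝ)).encard : ℕ∞) : ℝ≥0∞) ≤ g μ) ∧
        ∫⁻ t, g t ≤ ENNReal.ofReal (K * M) := by
  obtain ⟨k, c₀, hk, hc₀, hlow⟩ := j_low hE hF hG hH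
  obtain ⟨C, hC0, hC⟩ := tI k hk
  refine ⟨C / c₀, by positivity, ?_⟩
  intro m c hm1 hev M hM
  have hmR : (0:ℝ) < m := by exact_mod_cast hm1
  have hcG1 : Continuous fun θ => (Gn (m + 1) c θ).re :=
    Complex.continuous_re.comp (contDiff_Gn (m + 1) c).continuous
  by_cases hne : ∃ w, Pc (m + 1) c w ≠ 0
  · obtain ⟨s, s', h1, h2, h3, h4, h5, h6, h7, h8, h9⟩ := hlow m c hm1 hev hne
    obtain ⟨g, hg1, hg2, hg3⟩ := hC m (fun θ => (Gn (m + 1) c θ).re)
      (fun θ => (Gn (m + 1) c θ).im) (fun θ => (Gn' (m + 1) c θ).im) s s' hmR hcG1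
      (fun θ => by
        have := (hasDerivAt_Gn (m + 1) c θ)
        exact (Complex.imCLM.hasFDerivAt.comp_hasDerivAt θ this))
      (Complex.continuous_im.comp (continuous_Gn' (m + 1) c))
      (fun θ => by
        have := Gn_anti hev c
        rw [show θ + 2 * Real.pi = (θ + Real.pi) + Real.pi by ring, this, this, neg_neg])
      h1 h2 h3 h4 h5 h6 h7 h8 c₀ hc₀ h9 M hM
    refine ⟨g, hg1, hg2, hg3.trans (le_of_eq ?_)⟩
    congr 1
    ring
  · push Not at hne
    have hz : ∀ θ, Gn (m + 1) c θ = 0 := by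
      intro θ
      unfold Gn
      rw [hne, mul_zero]
    refine ⟨fun _ => 0, measurable_const, fun μ hμ _ => ?_, by simp⟩
    have hempty : ({v : ℝ → ℝ | PSol (fun θ => m * (Gn (m + 1) c θ).re)
            (fun θ => (Gn (m + 1) c θ).im) (m * μ) v} : Set (ℝ → ℝ)) = ∅ := by
      ext v
      simp only [Set.mem_ofPred_eq, mem_empty_iff_false, iff_false]
      intro h
      have := h.le_of_mu hmR hμ (K := 0) (fun θ => by rw [hz]; simp) 0
      have h2 := h.pos 0
      rw [zero_div] at this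
      linarith
    rw [hempty]
    simp

/-- the planar field: a focus plus a homogeneous polynomial of degree `n` -/
def VH (n : ℕ) (c : ℕ → ℂ) (μ : ℝ) (z : ℂ) : ℂ :=
  ((μ : ℂ) + Complex.I) * z +
    ∑ j ∈ Finset.range (n + 1), c j * (z ^ j * (starRingEnd ℂ) z ^ (n - j))

lemma j_reflect_Gn (n : ℕ) (c : ℕ → ℂ) (θ : ℝ) :
    Gn n (fun j => -(starRingEnd ℂ) (c j)) θ = -(starRingEnd ℂ) (Gn n c (-θ)) := by
  unfold Gn Pc
  have h1 : Complex.exp ((starRingEnd ℂ) (-((n + 1 : ℕ) * ((-θ : ℝ) : ℂ)) * Complex.I)) =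
      Complex.exp (-((n + 1 : ℕ) * (θ : ℂ)) * Complex.I) := by
    congr 1
    simp [Complex.conj_ofReal]
  have h2 : ∑ j ∈ Finset.range (n + 1), (starRingEnd ℂ) (c j *
      Complex.exp (2 * ((-θ : ℝ) : ℂ) * Complex.I) ^ j) =
      -∑ j ∈ Finset.range (n + 1), (-(starRingEnd ℂ) (c j)) *
        Complex.exp (2 * (θ : ℂ) * Complex.I) ^ j := by
    rw [← Finset.sum_neg_distrib]
    refine Finset.sum_congr rfl fun j _ => ?_
    rw [map_mul, map_pow, ← Complex.exp_conj, neg_mul, neg_neg]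
    congr 3
    have h2 : (starRingEnd ℂ) 2 = 2 := map_ofNat _ 2
    simp [Complex.conj_ofReal, h2]
  rw [map_mul, map_sum, ← Complex.exp_conj, h1, h2, mul_neg, neg_neg]

theorem j_main (hE : StE) (hF : StF) (hG : StG) (hH : StH) :
    ∃ K : ℝ, 0 ≤ K ∧ ∀ (n : ℕ) (c : ℕ → ℂ), 2 ≤ n → Even n → ∀ M : ℝ, 1 ≤ M →
      ∃ g : ℝ → ℝ≥0∞, Measurable g ∧
        (∀ μ ∈ Icc (-M) M, (((around (VH n c μ)).encard : ℕ∞) : ℝ≥0∞) ≤ g μ) ∧
        ∫⁻ μ in Icc (-M) M, g μ ≤ ENNReal.ofReal (K * (2 * M)) := by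
  obtain ⟨K, hK0, hK⟩ := j_half hE hF hG hH
  refine ⟨K, hK0, ?_⟩
  intro n c hn hev M hM
  obtain ⟨m, rfl⟩ : ∃ m, n = m + 1 := ⟨n - 1, by omega⟩
  have hm1 : 1 ≤ m := by omega
  have hmR : (0:ℝ) < m := by exact_mod_cast hm1
  set G1 : ℝ → ℝ := fun θ => (Gn (m + 1) c θ).re with hG1
  set G2 : ℝ → ℝ := fun θ => (Gn (m + 1) c θ).im with hG2
  have hle : ∀ μ : ℝ, (around (VH (m + 1) c μ)).encard ≤
      ({v | PSol (fun θ => m * G1 θ) G2 (m * μ) v} : Set (ℝ → ℝ)).encard := by
    intro μ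
    apply around_encard_le (V := VH (m + 1) c μ) (G1 := G1) (G2 := G2) _ hm1
      (Complex.reCLM.contDiff.comp (contDiff_Gn (m + 1) c))
      (Complex.imCLM.contDiff.comp (contDiff_Gn (m + 1) c))
      (fun θ => by simp only [hG1, Gn_anti hev, Complex.neg_re])
      (fun θ => by simp only [hG2, Gn_anti hev, Complex.neg_im])
    · intro r θ hr
      unfold VH
      rw [Gn_polar (by omega) c r θ]
      have e1 : Gn (m + 1) c θ = (G1 θ : ℂ) + G2 θ * Complex.I := (Complex.re_add_im _).symm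
      rw [e1, Nat.add_sub_cancel]
      push_cast
      ring
    · unfold VH
      have h2 : Continuous fun z : ℂ => (starRingEnd ℂ) z := Complex.continuous_conj
      fun_prop
  obtain ⟨gp, hgp1, hgp2, hgp3⟩ := hK m c hm1 hev M hM
  obtain ⟨gm, hgm1, hgm2, hgm3⟩ := hK m (fun j => -(starRingEnd ℂ) (c j)) hm1 hev M hM
  have := glueM (N := fun μ => (((around (VH (m + 1) c μ)).encard : ℕ∞) : ℝ≥0∞)) hgp1 hgm1
    (M := M) (fun μ h0 h1 => ?_) (fun μ h0 h1 => ?_) hgp3 hgm3 (by positivity)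
  · obtain ⟨g, hg1, hg2, hg3⟩ := this
    refine ⟨g, hg1, hg2, hg3.trans (le_of_eq ?_)⟩
    congr 1
    ring
  · exact le_trans (by exact_mod_cast hle μ) (hgp2 μ h0 h1)
  · refine le_trans ?_ (hgm2 μ h0 h1)
    have h1 := (hle (-μ)).trans (reflect_encard _ _ _)
    have e1 : (fun θ => -(fun θ => m * G1 θ) (-θ)) =
        fun θ => m * (Gn (m + 1) (fun j => -(starRingEnd ℂ) (c j)) θ).re := by
      funext θ
      simp only [hG1, j_reflect_Gn, Complex.neg_re, Complex.conj_re]
      ring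
    have e2 : (fun θ => G2 (-θ)) =
        fun θ => (Gn (m + 1) (fun j => -(starRingEnd ℂ) (c j)) θ).im := by
      funext θ
      simp only [hG2, j_reflect_Gn, Complex.neg_im, Complex.conj_im, neg_neg]
    rw [e1, e2, show -(m * -μ) = m * μ by ring] at h1
    exact_mod_cast h1

end

end Pool.Agent.H811R2.Quad
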