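import Pool.Agent.H811R2.T.J
import Pool.Agent.H811R2.T.A1
import Pool.Agent.H811R2.T.A2
import Pool.Agent.H811R2.T.A3
import Pool.Agent.H811R2.T.B
import Pool.Agent.H811R2.T.C
import Pool.Agent.H811R2.T.D
import Pool.Agent.H811R2.T.E
import Pool.Agent.H811R2.T.F
import Pool.Agent.H811R2.T.G
import Pool.Agent.H811R2.T.H

/-! The uniform averaged bound for all even degrees. -/

open Set MeasureTheory
open scoped ENNReal

namespace Pool.Agent.H811R2.Quad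

noncomputable section

theorem even_mean :
    ∃ K : ℝ, 0 ≤ K ∧ ∀ (n : ℕ) (c : ℕ → ℂ), 2 ≤ n → Even n → ∀ M : ℝ, 1 ≤ M →
      ∃ g : ℝ → ℝ≥0∞, Measurable g ∧
        (∀ μ ∈ Icc (-M) M, (((around (VH n c μ)).encard : ℕ∞) : ℝ≥0∞) ≤ g μ) ∧
        ∫⁻ μ in Icc (-M) M, g μ ≤ ENNReal.ofReal (K * (2 * M)) :=
  j_main (tE' (tA3' tA1 tA2) tB tC tD) tF tG tH

end

end Pool.Agent.H811R2.Quad
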